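import Mathlib
import Pool.Agent.H2.MC.Defs

set_option autoImplicit false

/-!
# Littlewood for all pairs of low joint complexity, BOTH sequences read forward (MP_0ea415): definitions

THEOREM (Main.lean). Let `α`, `β` be neither rational nor quadratic, `b`, `a` their sequences of partial quotients, `P n` the
number of words of length `n` which occur in `b` or in `a`, `P' n` the number of those which occur infinitely often in `b` or
in `a`. If `c ≥ 0`, `k + 4c < 19/18` and `P' n + 2 (P n - P' n) ≤ k n` for infinitely many `n`, then Littlewood's statement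
holds for `(α, β)` with the power gain `q^(-c)`.

OUTLINE.
1. (Pig, Tht, Sid, Crt, Fin) DUAL RUN CRITERION. Let `b = U R …`, `a = V R' …`, `R`, `R'` words of length `L` of ONE `p`-periodic
   sequence (any phases), `w`, `w'` the periods. The two periodic continuations `α'`, `β'` have automorphs with the same eigenvalue
   `λ`: `r α' + v = λ = r' β' + v'`, integers `|r| ≤ 2 K(U)² K(w)`, `|r'| ≤ 2 K(V)² K(w')`; so `r α - r' β + (v - v')` is small, and
   pigeonholes give `q` with `q ‖qα‖ ‖qβ‖ ≪ K(U) K(V) K(w)^(3/2) / K(R)`. All logarithms of continuants are `lam · length + o` (module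
   `rate` of H2/MC), so everything reduces to lengths: we need `i + j + (3/2) p < L` (with a margin).
2. (LanD, TraD, SloD, EqD) Recurrent words `F n = RecB b n = RecB a n`; transient words; scales of slope one.
3. (Det, Lev1, RetM, Clm) At a scale `m` of slope one there is one word `R` of `F m` with two right extensions `c`, `d`; climbing to
   a bispecial scale. Return words `U` (after `R c`, length `A + m`), `V` (after `R d`, length `B + m`): they begin and end with `R`.
4. (Suf, Cnt, Lps, Opt) At a bispecial scale `A + B = ncard (F m) + 1`; every sequence with all windows in `F (m+1)` begins with a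
   suffix of `U` or of `V` which ends with `R`. `U` has the period `A`, `V` the period `B`.
5. (SL) Three positions of the two sequences (both in `U`; one in `U`, one in `V`; both in `V`) and six dual runs: one of them is
   good if `A + 2Δ ≤ B` and `16 Δ ≤ A + B`, `Δ = t + D + μ`, `D = A + B - m`, `t` the lengths cut off, `μ` the margin.
6. (Low, Scl, Cmb) If `B < A + 2Δ` then the scale `m - A` has a return time `≤ B - A`, and a slope one scale just below it is good.
   Altogether `18 Δ ≤ m` suffices.
-/

namespace Pool.Agent.H1.DC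

open Filter Pool.Agent.H2.MC

/-- The words of length `n` which occur in `b` or in `a`. -/
def OccD (b a : ℕ → ℕ) (n : ℕ) : Set (List ℕ) := {w | (∃ i, win b i n = w) ∨ ∃ j, win a j n = w}

/-- The words of length `n` which occur infinitely often in `b` or infinitely often in `a`. -/
def RecD (b a : ℕ → ℕ) (n : ℕ) : Set (List ℕ) :=
  {w | (∃ᶠ i in atTop, win b i n = w) ∨ ∃ᶠ j in atTop, win a j n = w}

/-- Transient words: those which occur, but not infinitely often. -/
def TrD (b a : ℕ → ℕ) (n : ℕ) : Set (List ℕ) := OccD b a n \ RecD b a n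

/-- All words of length `n` of the sequence `z` are recurrent words of `b`. -/
def In (b : ℕ → ℕ) (n : ℕ) (z : ℕ → ℕ) : Prop := ∀ i, win z i n ∈ RecB b n

/-- A dual run: the words of length `L` of `b` at `i` and of `a` at `j` are words of one `p`-periodic sequence. -/
def DR (b a : ℕ → ℕ) (i j p L : ℕ) : Prop :=
  ∃ (e : ℕ → ℕ) (s t : ℕ), (∀ n, e (n + p) = e n) ∧ win b i L = win e s L ∧ win a j L = win e t L

/-- A scale of slope one of the recurrent words of `b`: `R` is the only word with two right extensions, `c` and `d`. -/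
structure Lev (b : ℕ → ℕ) (m : ℕ) (R : List ℕ) (c d : ℕ) : Prop where
  cd : c ≠ d
  rc : R ++ [c] ∈ RecB b (m + 1)
  rd : R ++ [d] ∈ RecB b (m + 1)
  uniq : ∀ (w : List ℕ) (e e' : ℕ), w ≠ R → w ++ [e] ∈ RecB b (m + 1) → w ++ [e'] ∈ RecB b (m + 1) → e = e'
  two : ∀ e, R ++ [e] ∈ RecB b (m + 1) → e = c ∨ e = d
  card : (RecB b (m + 1)).ncard = (RecB b m).ncard + 1

/-- `R` has two left extensions. -/
def Bis (b : ℕ → ℕ) (m : ℕ) (R : List ℕ) : Prop :=
  ∃ x y : ℕ, x ≠ y ∧ x :: R ∈ RecB b (m + 1) ∧ y :: R ∈ RecB b (m + 1)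

/-- `U` (of length `A + m`) is what every sequence reads from an occurrence of `R c` to the next occurrence of `R`. -/
structure Ret (b : ℕ → ℕ) (m : ℕ) (R : List ℕ) (c A : ℕ) (U : List ℕ) : Prop where
  pos : 0 < A
  mem : U ∈ RecB b (A + m)
  tk : U.take m = R
  dr : U.drop A = R
  t1 : U.take (m + 1) = R ++ [c]
  ret : ∀ z, In b (m + 1) z → ∀ i, win z i (m + 1) = R ++ [c] → win z i (A + m) = U
  no : ∀ z, In b (m + 1) z → ∀ i, win z i (m + 1) = R ++ [c] → ∀ t, 0 < t → t < A → win z (i + t) m ≠ R

/-- The two return words at a bispecial scale. -/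
structure Loops (b : ℕ → ℕ) (m A B : ℕ) (R U V : List ℕ) : Prop where
  A0 : 0 < A
  AB : A ≤ B
  lt : A ≤ m → A < B
  hU : U ∈ RecB b (A + m)
  hV : V ∈ RecB b (B + m)
  U1 : U.take m = R
  U2 : U.drop A = R
  V1 : V.take m = R
  V2 : V.drop B = R
  cnt : A + B = (RecB b m).ncard + 1
  suf : ∀ z, In b (m + 1) z → ∃ d, (d ≤ A ∧ win z 0 (d + m) = U.drop (A - d)) ∨
    (d ≤ B ∧ win z 0 (d + m) = V.drop (B - d))
  gap : ∀ z, In b (m + 1) z → ∀ i i', i < i' → win z i m = R → win z i' m = R → A ≤ i' - i

/-- The two possible beginnings of a sequence: a suffix of `U`, or a suffix of `V` (`eA`, `eB` the periodic continuations). -/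
def Typ (eA eB : ℕ → ℕ) (m A B : ℕ) (z : ℕ → ℕ) (d : ℕ) : Prop :=
  (d ≤ A ∧ win z 0 (d + m) = win eA (A - d) (d + m)) ∨
    (d ≤ B ∧ win z 0 (d + m) = win eB (B - d) (d + m) ∧
      win z 0 (d + m - B) = win eA (B - d) (d + m - B) ∧ win z d m = win eA 0 m)

end Pool.Agent.H1.DC
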