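import Mathlib
import Pool.Agent.H1.DC.Defs
import Pool.Agent.H2.MC.EvP

set_option autoImplicit false

/-!
# Module LanD (80 lines): the recurrent words of the pair form a language

From H2/MC: `lang_RecB`, `ev_RecB`, `Occ_finite`, `bd_of_Occ_finite`, `evPer_of_card`, `Lang.right_special`.
* `recD_eq`: by definition.
* `lang_RecD`: the union of two languages (copy of `lang_Rec` in H2/MC/Ev.lean with `lang_RecB h.1`, `lang_RecB h.2`).
* `occD_finite`: `OccD b a n ⊆ Occ b b n ∪ Occ a a n` (`Occ_finite ⟨h.1, h.1⟩`, `⟨h.2, h.2⟩`).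
* `bd_of_occD`: as `bd_of_Occ_finite` in H2/MC/Ev.lean; or: `win b i n` is in the finite set, so its first letter `b i` is in a finite
  set of numbers (`win_succ'`, `n = m + 1`), the same for `a`.
* `ev_RecD`: `ev_RecB` for `b` and `a`.
* `occD_card`: `TrD = OccD \ RecD`, `RecD ⊆ OccD` (`Filter.Frequently.exists`), `Set.ncard_sdiff_add_ncard_of_subset`.
* `recD_slope`: as `rec_slope` in H2/MC/Comb.lean (there for `Rec b a`): `RecB b` has strictly more words of length `n + 1` than of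
  length `n` (otherwise `EvPer b` by `evPer_of_card`), so it has a word with two right extensions, which are in `RecD`; `dropLast`
  maps `RecD (n+1)` without one of them onto `RecD n`.
* `recB_slope`: the same for `RecB b` alone: `evPer_of_card`.
-/

namespace Pool.Agent.H1.DC

open Filter Pool.Agent.H2.MC

lemma recD_eq (b a : ℕ → ℕ) (n : ℕ) : RecD b a n = RecB b n ∪ RecB a n := by
  rfl

lemma lang_RecD {b a : ℕ → ℕ} {M : ℕ} (h : Bd b a M) : Lang (RecD b a) := by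
  have hB := lang_RecB h.1
  have hA := lang_RecB h.2
  refine ⟨?_, ?_, ?_, ?_, ?_, ?_, ?_⟩
  · intro n
    rw [recD_eq]
    exact (hB.fin n).union (hA.fin n)
  · obtain ⟨w, hw⟩ := hB.ne
    exact ⟨w, Or.inl hw⟩
  · rintro n w (hw | hw)
    · exact RecB_length (b := b) hw
    · exact RecB_length (b := a) hw
  · rintro n w e (hw | hw)
    · exact Or.inl (hB.pre n w e hw)
    · exact Or.inr (hA.pre n w e hw)
  · rintro n w e (hw | hw)
    · exact Or.inl (hB.suf n w e hw)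
    · exact Or.inr (hA.suf n w e hw)
  · rintro n w (hw | hw)
    · obtain ⟨e, he⟩ := hB.exr n w hw
      exact ⟨e, Or.inl he⟩
    · obtain ⟨e, he⟩ := hA.exr n w hw
      exact ⟨e, Or.inr he⟩
  · rintro n w (hw | hw)
    · obtain ⟨e, he⟩ := hB.exl n w hw
      exact ⟨e, Or.inl he⟩
    · obtain ⟨e, he⟩ := hA.exl n w hw
      exact ⟨e, Or.inr he⟩

lemma occD_finite {b a : ℕ → ℕ} {M : ℕ} (h : Bd b a M) (n : ℕ) : (OccD b a n).Finite := by
  have h1 : (Occ b b n).Finite := Occ_finite ⟨h.1, h.1⟩ n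
  have h2 : (Occ a a n).Finite := Occ_finite ⟨h.2, h.2⟩ n
  refine (h1.union h2).subset ?_
  rintro w (⟨i, hi⟩ | ⟨j, hj⟩)
  · exact Or.inl (Or.inl ⟨i, hi⟩)
  · exact Or.inr (Or.inl ⟨j, hj⟩)

lemma bd_of_occD {b a : ℕ → ℕ} {n : ℕ} (hn : 0 < n) (h : (OccD b a n).Finite) : ∃ M, Bd b a M := by
  have hS : (⋃ w ∈ OccD b a n, {x : ℕ | x ∈ w}).Finite :=
    h.biUnion (fun w _ => w.finite_toSet)
  obtain ⟨M, hM⟩ := hS.bddAbove
  obtain ⟨m, rfl⟩ : ∃ m, n = m + 1 := ⟨n - 1, by omega⟩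
  refine ⟨M, ?_, ?_⟩
  · intro i
    apply hM
    rw [Set.mem_iUnion₂]
    refine ⟨win b i (m + 1), Or.inl ⟨i, rfl⟩, ?_⟩
    show b i ∈ win b i (m + 1)
    rw [win_succ']
    simp
  · intro j
    apply hM
    rw [Set.mem_iUnion₂]
    refine ⟨win a j (m + 1), Or.inr ⟨j, rfl⟩, ?_⟩
    show a j ∈ win a j (m + 1)
    rw [win_succ']
    simp

lemma ev_RecD {b a : ℕ → ℕ} {M : ℕ} (h : Bd b a M) (n : ℕ) :
    ∃ N, ∀ i, N ≤ i → win b i n ∈ RecD b a n ∧ win a i n ∈ RecD b a n := by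
  obtain ⟨N1, h1⟩ := ev_RecB h.1 n
  obtain ⟨N2, h2⟩ := ev_RecB h.2 n
  exact ⟨max N1 N2, fun i hi => ⟨Or.inl (h1 i (le_trans (le_max_left _ _) hi)),
    Or.inr (h2 i (le_trans (le_max_right _ _) hi))⟩⟩

lemma occD_card {b a : ℕ → ℕ} {M : ℕ} (h : Bd b a M) (n : ℕ) :
    (OccD b a n).ncard = (RecD b a n).ncard + (TrD b a n).ncard := by
  have hsub : RecD b a n ⊆ OccD b a n := by
    rintro w (hw | hw)
    · exact Or.inl hw.exists
    · exact Or.inr hw.exists
  have h1 := Set.ncard_sdiff_add_ncard_of_subset hsub (occD_finite h n)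
  unfold TrD
  omega

lemma recD_slope {b a : ℕ → ℕ} {M : ℕ} (h : Bd b a M) (hb : ¬ EvPer b) (n : ℕ) :
    (RecD b a n).ncard + 1 ≤ (RecD b a (n + 1)).ncard := by
  have hF := lang_RecD h
  have hB := lang_RecB h.1
  have hlt : (RecB b n).ncard < (RecB b (n + 1)).ncard := by
    by_contra hcon
    exact hb (evPer_of_card h.1 n (not_lt.1 hcon))
  obtain ⟨w, e, e', he, h1, h2⟩ := hB.right_special n hlt
  have h1' : w ++ [e] ∈ RecD b a (n + 1) := Or.inl h1
  have h2' : w ++ [e'] ∈ RecD b a (n + 1) := Or.inl h2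
  have hsub : RecD b a n ⊆ List.dropLast '' (RecD b a (n + 1) \ {w ++ [e]}) := by
    intro u hu
    obtain ⟨f, hf⟩ := hF.exr n u hu
    by_cases hc : u ++ [f] = w ++ [e]
    · obtain ⟨huw, _⟩ := append_singleton_inj.1 hc
      refine ⟨w ++ [e'], ⟨h2', ?_⟩, ?_⟩
      · intro hm
        have hm' : w ++ [e'] = w ++ [e] := hm
        exact he (append_singleton_inj.1 hm').2.symm
      · rw [huw]
        simp
    · refine ⟨u ++ [f], ⟨hf, hc⟩, ?_⟩
      simp
  have hfin : (RecD b a (n + 1) \ {w ++ [e]}).Finite := (hF.fin (n + 1)).subset Set.sdiff_subset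
  have h3 : (RecD b a n).ncard ≤ (RecD b a (n + 1) \ {w ++ [e]}).ncard :=
    (Set.ncard_le_ncard hsub (hfin.image _)).trans (Set.ncard_image_le hfin)
  have h4 : (RecD b a (n + 1) \ {w ++ [e]}).ncard + 1 = (RecD b a (n + 1)).ncard :=
    Set.ncard_sdiff_singleton_add_one h1' (hF.fin (n + 1))
  omega

lemma recB_slope {b : ℕ → ℕ} {M : ℕ} (h : ∀ n, b n ≤ M) (hb : ¬ EvPer b) (n : ℕ) :
    (RecB b n).ncard + 1 ≤ (RecB b (n + 1)).ncard := by
  by_contra hcon
  exact hb (evPer_of_card h n (by omega))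

end Pool.Agent.H1.DC
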