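import Mathlib
import Pool.Agent.H1.DC.LanD

set_option autoImplicit false

/-!
# Module Lev1 (130 lines): scales of slope one and one climbing step

`F n = RecB b n`, `Lang F` (`lang_RecB`).
* `lev_of_slope`: `recB_slope` and `hc` give `card`. `Lang.right_special` gives `R, c ≠ d` with `R ++ [c], R ++ [d] ∈ F (m+1)`, `Lang.uniq_right` gives
  `uniq`, `Lang.two_right` gives `two` (three extensions `c, d, e`: `c = d` or `c = e` or `d = e`).
* `lev_succ`: let `y :: R ∈ F (m+1)` (`exl` for `R ∈ F m`, which is the prefix of `R ++ [c]`); by `hl` it is the only left extension.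
  `uniq` at `m+1` for `y :: R`: let `u ≠ y :: R`, `u ++ [e], u ++ [e'] ∈ F (m+2)`; `u ∈ F (m+1)` has length `m+1 ≥ 1`, `u = x :: w`; `w ++ [e], w ++ [e'] ∈ F (m+1)`
  (`suf`). If `w ≠ R`: `e = e'` by `h.uniq`. If `w = R`: `x :: R = u ∈ F (m+1)` so `x = y`, contradiction.
  `rc`: `R ++ [c]` has a left extension `x :: (R ++ [c]) ∈ F (m+2)` (`exl`), whose prefix `x :: R ∈ F (m+1)`, so `x = y`: `(y :: R) ++ [c] ∈ F (m+2)`.
  The same for `d`. `two`: `(y :: R) ++ [e] ∈ F (m+2)` gives `R ++ [e] ∈ F (m+1)` (`suf`). `card`: `Lang.card_ext` for `m+1`, `y :: R` and for `m`, `R`: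
  `ncard F (m+2) + 1 = ncard F (m+1) + ncard {e | (y :: R) ++ [e] ∈ F (m+2)}` and the set of `e` is `{c, d}`, of `ncard` 2 (`Set.ncard_pair`).
  Second claim: `z` with `In b (m+1) z`; `win z i (m+2) = u ++ [e]`, `u = win z i (m+1) = z i :: w`, `w = win z (i+1) m`, `w ++ [e] = win z (i+1) (m+1) ∈ F (m+1)`.
  If `w ≠ R`: `u` has a right extension `u ++ [e'] ∈ F (m+2)` (`exr`), its suffix `w ++ [e'] ∈ F (m+1)`, so `e' = e` by `h.uniq`. If `w = R`: `z i :: R = u ∈ F (m+1)`,
  so `z i = y`; `R ++ [e] ∈ F (m+1)` has a left extension `x :: (R ++ [e]) ∈ F (m+2)`, `x :: R ∈ F (m+1)`, `x = y`; so `u ++ [e] ∈ F (m+2)`.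
  Third claim: `win z (i+1) m = R` gives `z i :: R = win z i (m+1) ∈ F (m+1)`, so `z i = y`.
(Compare `climb` in H2/MC/Climb.lean, proved there for another structure.)
-/

namespace Pool.Agent.H1.DC

open Filter Pool.Agent.H2.MC

lemma lev_of_slope {b : ℕ → ℕ} {M : ℕ} (hM : ∀ n, b n ≤ M) (hb : ¬ EvPer b) {m : ℕ}
    (hc : (RecB b (m + 1)).ncard ≤ (RecB b m).ncard + 1) : ∃ (R : List ℕ) (c d : ℕ), Lev b m R c d := by
  have hF : Lang (RecB b) := lang_RecB hM
  have h1 := recB_slope hM hb m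
  have hlt : (RecB b m).ncard < (RecB b (m + 1)).ncard := by omega
  obtain ⟨R, c, d, hcd, hc1, hd1⟩ := hF.right_special m hlt
  refine ⟨R, c, d, ⟨hcd, hc1, hd1, hF.uniq_right m hc hcd hc1 hd1, fun e he => ?_, by omega⟩⟩
  rcases hF.two_right m hc hc1 hd1 he with h | h | h
  · exact absurd h hcd
  · exact Or.inl h.symm
  · exact Or.inr h.symm

lemma lev_succ {b : ℕ → ℕ} {M : ℕ} (hM : ∀ n, b n ≤ M) {m c d : ℕ} {R : List ℕ} (h : Lev b m R c d)
    (hl : ∀ e e' : ℕ, e :: R ∈ RecB b (m + 1) → e' :: R ∈ RecB b (m + 1) → e = e') :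
    ∃ y, Lev b (m + 1) (y :: R) c d ∧ (∀ z, In b (m + 1) z → In b (m + 2) z) ∧
      ∀ z, In b (m + 1) z → ∀ i, win z (i + 1) m = R → z i = y := by
  have hF : Lang (RecB b) := lang_RecB hM
  have hR : R ∈ RecB b m := hF.pre m R c h.rc
  obtain ⟨y, hy⟩ := hF.exl m R hR
  have hyu : ∀ x, x :: R ∈ RecB b (m + 1) → x = y := fun x hx => hl x y hx hy
  have key : ∀ e, R ++ [e] ∈ RecB b (m + 1) → (y :: R) ++ [e] ∈ RecB b (m + 1 + 1) := by
    intro e he
    obtain ⟨x, hx⟩ := hF.exl (m + 1) _ he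
    have hx2 : (x :: R) ++ [e] ∈ RecB b (m + 1 + 1) := hx
    have hx3 : x = y := hyu x (hF.pre (m + 1) (x :: R) e hx2)
    rw [hx3] at hx2
    exact hx2
  have uq : ∀ (w : List ℕ) (e e' : ℕ), w ≠ y :: R → w ++ [e] ∈ RecB b (m + 1 + 1) →
      w ++ [e'] ∈ RecB b (m + 1 + 1) → e = e' := by
    intro u e e' hu h1 h2
    have hum : u ∈ RecB b (m + 1) := hF.pre (m + 1) u e h1
    cases u with
    | nil => exact absurd (hF.len _ _ hum) (by simp)
    | cons x w =>
      have h1' : w ++ [e] ∈ RecB b (m + 1) := hF.suf (m + 1) (w ++ [e]) x h1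
      have h2' : w ++ [e'] ∈ RecB b (m + 1) := hF.suf (m + 1) (w ++ [e']) x h2
      by_cases hw : w = R
      · exfalso
        apply hu
        rw [hw] at hum ⊢
        rw [hyu x hum]
      · exact h.uniq w e e' hw h1' h2'
  have tw : ∀ e, (y :: R) ++ [e] ∈ RecB b (m + 1 + 1) → e = c ∨ e = d := fun e he =>
    h.two e (hF.suf (m + 1) (R ++ [e]) y he)
  refine ⟨y, ⟨h.cd, key c h.rc, key d h.rd, uq, tw, ?_⟩, ?_, ?_⟩
  · have h1 := hF.card_ext (m + 1) hy uq
    have h2 : {e : ℕ | (y :: R) ++ [e] ∈ RecB b (m + 1 + 1)} = {c, d} := by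
      ext e
      constructor
      · intro he
        exact tw e he
      · intro he
        rcases he with he | he
        · rw [he]; exact key c h.rc
        · rw [Set.mem_singleton_iff] at he
          rw [he]; exact key d h.rd
    rw [h2, Set.ncard_pair h.cd] at h1
    omega
  · intro z hz i
    have e1 : win z i (m + 2) = (z i :: win z (i + 1) m) ++ [z (i + 1 + m)] := by
      rw [show m + 2 = m + 1 + 1 from rfl, win_succ z i (m + 1), win_succ' z i m]
      rw [show i + (m + 1) = i + 1 + m by ring]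
    have hu : z i :: win z (i + 1) m ∈ RecB b (m + 1) := by
      rw [← win_succ']; exact hz i
    have hw : win z (i + 1) m ++ [z (i + 1 + m)] ∈ RecB b (m + 1) := by
      rw [← win_succ]; exact hz (i + 1)
    rw [e1]
    by_cases hR2 : win z (i + 1) m = R
    · rw [hR2] at hu hw ⊢
      rw [hyu _ hu]
      exact key _ hw
    · obtain ⟨e', he'⟩ := hF.exr (m + 1) _ hu
      have h3 : win z (i + 1) m ++ [e'] ∈ RecB b (m + 1) := hF.suf (m + 1) (win z (i + 1) m ++ [e']) (z i) he'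
      have h4 : e' = z (i + 1 + m) := h.uniq _ _ _ hR2 h3 hw
      rw [h4] at he'
      exact he'
  · intro z hz i hR2
    apply hyu
    rw [← hR2, ← win_succ']
    exact hz i

end Pool.Agent.H1.DC
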