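import Mathlib
import Pool.Agent.H1.DC.LanD

set_option autoImplicit false

/-!
# Module Det (110 lines): determinism away from the special word

* `win_sh`: `win (fun n => z (T + n)) i n = win z (T + i) n` (`win_eq_iff`).
* `In.take`: `win z i n` is the prefix of `win z i (n + k) ∈ RecB b (n+k)` (`win_take`, `Lang.take_mem`, `lang_RecB`).
* `In.shift`: by `win_sh`.
* `In.sub`: every `win z i n` with `n ≤ N` is in `RecB b n` if `In b N z` (`In.take`).
* `in_late`: `ev_RecB` and `win_sh`.
* `det`: induction on `t`. `t = 0`: `he`. `t + 1`: by induction `win z i (t + m) = win z' i' (t + m)`, drop `t` letters (`win_drop`):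
  `win z (i+t) m = win z' (i'+t) m =: w ≠ R`. `win z (i+t) (m+1) = w ++ [z (i+t+m)]` and `win z' (i'+t) (m+1) = w ++ [z' (i'+t+m)]` are in
  `RecB b (m+1)`, so the letters agree (`h.uniq`), and `win z i (t+1+m) = win z i (t+m) ++ [z (i+(t+m))]` (`win_succ`).
* `det1`: `he` of length `m + 1`; drop one letter: `win z (i+1) m = win z' (i'+1) m`. Apply `det` at `i+1`, `i'+1` with `t - 1`:
  `win z (i+1) (t-1+m) = win z' (i'+1) (t-1+m)`, and prepend the first letter (`win_succ'`; the first letters agree by `he`).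
* `ret_next`: an occurrence of `R ++ [c]` at `i` (`Ret`): `R` at `i + A` (`U.drop A = R`, `win_drop`).
-/

namespace Pool.Agent.H1.DC

open Filter Pool.Agent.H2.MC

lemma win_sh (z : ℕ → ℕ) (T i n : ℕ) : win (fun k => z (T + k)) i n = win z (T + i) n := by
  rw [win_eq_iff]
  intro t _
  show z (T + (i + t)) = z (T + i + t)
  rw [Nat.add_assoc]

lemma In.take {b z : ℕ → ℕ} {M : ℕ} (hM : ∀ n, b n ≤ M) {n k : ℕ} (h : In b (n + k) z) : In b n z := by
  intro i
  have h1 := (lang_RecB hM).take_mem (h i)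
  rwa [win_take z i (Nat.le_add_right n k)] at h1

lemma In.sub {b z : ℕ → ℕ} {M : ℕ} (hM : ∀ n, b n ≤ M) {n N : ℕ} (hn : n ≤ N) (h : In b N z) : In b n z := by
  obtain ⟨k, rfl⟩ := Nat.exists_eq_add_of_le hn
  exact h.take hM

lemma In.shift {b z : ℕ → ℕ} {n : ℕ} (h : In b n z) (T : ℕ) : In b n (fun k => z (T + k)) := by
  intro i
  rw [win_sh]
  exact h (T + i)

lemma in_late {b : ℕ → ℕ} {M : ℕ} (hM : ∀ n, b n ≤ M) (n : ℕ) : ∃ T, ∀ T', T ≤ T' → In b n (fun k => b (T' + k)) := by
  obtain ⟨N, hN⟩ := ev_RecB hM n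
  refine ⟨N, fun T' hT' i => ?_⟩
  rw [win_sh]
  exact hN (T' + i) (by omega)

lemma det {b : ℕ → ℕ} {m c d : ℕ} {R : List ℕ} (h : Lev b m R c d) {z z' : ℕ → ℕ} (hz : In b (m + 1) z)
    (hz' : In b (m + 1) z') {i i' : ℕ} (t : ℕ) (he : win z i m = win z' i' m)
    (hR : ∀ s < t, win z (i + s) m ≠ R) : win z i (t + m) = win z' i' (t + m) := by
  induction t with
  | zero =>
    rw [Nat.zero_add]
    exact he
  | succ t ih =>
    have h1 := ih fun s hs => hR s (by omega)
    have h2 : win z (i + t) m = win z' (i' + t) m := by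
      have h3 := congrArg (List.drop t) h1
      rw [win_drop z i (Nat.le_add_right t m), win_drop z' i' (Nat.le_add_right t m)] at h3
      have h4 : t + m - t = m := by omega
      rwa [h4] at h3
    have h5 := hz (i + t)
    have h6 := hz' (i' + t)
    rw [win_succ] at h5 h6
    rw [← h2] at h6
    have h7 := h.uniq _ _ _ (hR t (by omega)) h5 h6
    have h8 : t + 1 + m = t + m + 1 := by omega
    have h9 : i + (t + m) = i + t + m := by omega
    have h10 : i' + (t + m) = i' + t + m := by omega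
    rw [h8, win_succ, win_succ, h1, h9, h10, h7]

lemma det1 {b : ℕ → ℕ} {m c d : ℕ} {R : List ℕ} (h : Lev b m R c d) {z z' : ℕ → ℕ} (hz : In b (m + 1) z)
    (hz' : In b (m + 1) z') {i i' : ℕ} (t : ℕ) (ht : 0 < t) (he : win z i (m + 1) = win z' i' (m + 1))
    (hR : ∀ s, 0 < s → s < t → win z (i + s) m ≠ R) : win z i (t + m) = win z' i' (t + m) := by
  obtain ⟨t, rfl⟩ : ∃ t', t = t' + 1 := ⟨t - 1, by omega⟩
  rw [win_succ', win_succ'] at he
  have h1 : z i = z' i' := (List.cons.inj he).1
  have h2 : win z (i + 1) m = win z' (i' + 1) m := (List.cons.inj he).2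
  have h3 := det h hz hz' t h2 (fun s hs => by
    have h4 := hR (s + 1) (by omega) (by omega)
    have h5 : i + 1 + s = i + (s + 1) := by omega
    rwa [h5])
  have h6 : t + 1 + m = t + m + 1 := by omega
  rw [h6, win_succ', win_succ', h1, h3]

lemma ret_next {b : ℕ → ℕ} {m c A : ℕ} {R U : List ℕ} (h : Ret b m R c A U) {z : ℕ → ℕ} (hz : In b (m + 1) z) {i : ℕ}
    (hi : win z i (m + 1) = R ++ [c]) : win z (i + A) m = R := by
  have h1 := h.ret z hz i hi
  have h2 := congrArg (List.drop A) h1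
  rw [win_drop z i (Nat.le_add_right A m), h.dr] at h2
  have h3 : A + m - A = m := by omega
  rwa [h3] at h2

end Pool.Agent.H1.DC
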