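import Mathlib
import Pool.Agent.H1.DC.Det

set_option autoImplicit false

/-!
# Module RetM (90 lines): return words exist

`R ++ [e] ∈ RecB b (m+1)`, `e` = `c` or `d`. By `in_late` there is `T` such that `z0 = fun k => b (T + k)` has `In b (m+1) z0`. Since `R ++ [e]` occurs
infinitely often in `b` there is `i` with `win z0 i (m+1) = R ++ [e]` (`win_sh`), and since `R` (a prefix) occurs infinitely often there is `g > 0` with
`win z0 (i+g) m = R`; let `A` be the least such `g` (`Nat.find`), `U = win z0 i (A + m)`.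
* `tk`, `t1`, `dr`: `win_take` (`m + 1 ≤ A + m`), `win_drop`.
* `ret`, `no`: let `In b (m+1) z`, `win z i' (m+1) = R ++ [e]`. `det1` (with `z0, z`, `t = A`) gives `win z0 i (A+m) = win z i' (A+m)`. `no`: if `win z (i'+t) m = R`,
  `0 < t < A`, then dropping `t` letters and taking `m` of the two equal words `win z0 (i+t) m = R`, against minimality.
* `mem`: `U ∈ RecB b (A+m)`: `R ++ [e]` occurs at infinitely many positions `p`; for `p ≥ T`, `p = T + i'`, `win z0 i' (m+1) = R ++ [e]`, so
  `win b p (A+m) = win z0 i' (A+m) = U` (`ret` with `z = z0`). (`Filter.Frequently.and_eventually`, `.mono`.)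
-/

namespace Pool.Agent.H1.DC

open Filter Pool.Agent.H2.MC

private lemma RetM_len (z : ℕ → ℕ) (i n : ℕ) : (win z i n).length = n := by
  simp [win]

lemma ret_ex {b : ℕ → ℕ} {M : ℕ} (hM : ∀ n, b n ≤ M) {m c d e : ℕ} {R : List ℕ} (h : Lev b m R c d)
    (he : R ++ [e] ∈ RecB b (m + 1)) : ∃ (A : ℕ) (U : List ℕ), Ret b m R e A U := by
  obtain ⟨T, hT⟩ := in_late hM (m + 1)
  obtain ⟨z0, hz0def⟩ : ∃ z0 : ℕ → ℕ, z0 = fun k => b (T + k) := ⟨_, rfl⟩
  have hz0 : In b (m + 1) z0 := hz0def ▸ hT T le_rfl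
  have hsh : ∀ i n, win z0 i n = win b (T + i) n := fun i n => by rw [hz0def, win_sh]
  have hfe : ∃ᶠ p in atTop, win b p (m + 1) = R ++ [e] := he
  obtain ⟨p, hp, hpT⟩ := (hfe.and_eventually (eventually_ge_atTop T)).exists
  have hlen : R.length = m := by
    have h1 := congrArg List.length hp
    rw [RetM_len, List.length_append, List.length_singleton] at h1
    omega
  have htake : ∀ (z : ℕ → ℕ) (i : ℕ), win z i (m + 1) = R ++ [e] → win z i m = R := by
    intro z i hi
    rw [← win_take z i (Nat.le_succ m), hi, List.take_append_of_le_length hlen.ge, ← hlen,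
      List.take_length]
  obtain ⟨i, hi⟩ : ∃ i, T + i = p := ⟨p - T, by omega⟩
  have hi0 : win z0 i (m + 1) = R ++ [e] := by rw [hsh, hi]; exact hp
  have hex : ∃ g, 0 < g ∧ win z0 (i + g) m = R := by
    obtain ⟨p', hp', hpT'⟩ := (hfe.and_eventually (eventually_ge_atTop (p + 1))).exists
    refine ⟨p' - p, by omega, ?_⟩
    rw [hsh, show T + (i + (p' - p)) = p' by omega]
    exact htake b p' hp'
  classical
  obtain ⟨A, hA⟩ : ∃ A, A = Nat.find hex := ⟨_, rfl⟩
  have hA1 : 0 < A := hA ▸ (Nat.find_spec hex).1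
  have hA2 : win z0 (i + A) m = R := hA ▸ (Nat.find_spec hex).2
  have hA3 : ∀ g, 0 < g → g < A → win z0 (i + g) m ≠ R := by
    intro g hg0 hgA hgR
    rw [hA] at hgA
    exact Nat.find_min hex hgA ⟨hg0, hgR⟩
  have hret : ∀ z, In b (m + 1) z → ∀ i', win z i' (m + 1) = R ++ [e] →
      win z0 i (A + m) = win z i' (A + m) := fun z hz i' hi' =>
    det1 h hz0 hz A hA1 (hi0.trans hi'.symm) hA3
  refine ⟨A, win z0 i (A + m), hA1, ?_, ?_, ?_, ?_, fun z hz i' hi' => (hret z hz i' hi').symm, ?_⟩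
  · refine (hfe.and_eventually (eventually_ge_atTop T)).mono ?_
    rintro p' ⟨h1, h2⟩
    obtain ⟨j, hj⟩ : ∃ j, T + j = p' := ⟨p' - T, by omega⟩
    have h3 := hret z0 hz0 j (by rw [hsh, hj]; exact h1)
    rw [h3, hsh j, hj]
  · rw [win_take z0 i (Nat.le_add_left m A)]
    exact htake z0 i hi0
  · rw [win_drop z0 i (Nat.le_add_right A m), show A + m - A = m by omega]
    exact hA2
  · rw [win_take z0 i (by omega : m + 1 ≤ A + m)]
    exact hi0
  · intro z hz i' hi' t ht0 htA hR
    have h1 := congrArg (List.drop t) (hret z hz i' hi')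
    rw [win_drop z0 i (by omega : t ≤ A + m), win_drop z i' (by omega : t ≤ A + m)] at h1
    have h2 := congrArg (List.take m) h1
    rw [win_take z0 (i + t) (by omega : m ≤ A + m - t),
      win_take z (i' + t) (by omega : m ≤ A + m - t)] at h2
    exact hA3 t ht0 htA (h2.trans hR)

end Pool.Agent.H1.DC
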