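import Mathlib
import Pool.Agent.H1.DC.Lev1
import Pool.Agent.H1.DC.RetM

set_option autoImplicit false

/-!
# Module Clm (130 lines): climbing to a bispecial scale

STATEMENT `Q t` (for `t : ℕ`): there is `C` with `C.length = t`, `Lev b (t+m) (C ++ R) c d`, `ncard (RecB b (t+m)) = ncard (RecB b m) + t`,
`∀ z, In b (m+1) z → In b (t+m+1) z`, `∀ z, In b (m+1) z → ∀ i, win z (i+t) m = R → win z i (t+m) = C ++ R`, and `nb`: for `m ≤ k < t+m` no word with two
right extensions in `RecB b (k+1)` is bispecial.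
`Q 0`: `C = []`. STEP: if `Q t` and `C ++ R` is not `Bis b (t+m)`: then `hl` of `lev_succ` holds (two different left extensions would give `Bis`), so there is
`y` with `Lev b (t+1+m) (y :: C ++ R) c d`, …: take `y :: C`. Transfer: if `win z (i+(t+1)) m = R` then `win z (i+1) (t+m) = C ++ R` (induction), and `z i = y`
by the third claim of `lev_succ`, so `win z i (t+1+m) = y :: (C ++ R)` (`win_succ'`). `card`: `(lev).card`. `nb` at `k = t+m`: a word `R'` with two right
extensions at `k` is `C ++ R` (`Lev.uniq`), which is not bispecial.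
END: suppose no `t` has `Q t` with `C ++ R` bispecial. Then `Q t` holds for all `t`. Let `Ret b m R c A U`, `Ret b m R d B V` (`ret_ex`), say `A ≤ B` (the other case is
symmetric, write a private lemma for two letters `c ≠ d`, `A ≤ B`). Take `z0` late (`in_late`, `In b (m+1) z0`) and `i, i'` with `win z0 i (m+1) = R ++ [c]`,
`win z0 i' (m+1) = R ++ [d]`. `win z0 (i+A) m = R`, `win z0 (i'+B) m = R` (`ret_next`). `Q A` with its `C`: `win z0 i (A+m) = C ++ R`, and (position `i'+B-A`)
`win z0 (i'+(B-A)) (A+m) = C ++ R`. The first `m` letters of the former are `R`, so `win z0 (i'+(B-A)) m = R`. If `A < B` this contradicts `Ret.no` for `d`. If `A = B`: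
`win z0 i' (A+m) = win z0 i (A+m)`, so (`A ≥ 1`) the first `m+1` letters agree: `R ++ [d] = R ++ [c]`, contradiction to `c ≠ d`.
So there is `t` with `Q t` and bispecial `C ++ R`.
-/

namespace Pool.Agent.H1.DC

open Filter Pool.Agent.H2.MC

private lemma Clm_step {b : ℕ → ℕ} {M : ℕ} (hM : ∀ n, b n ≤ M) {m c d t : ℕ} {R C : List ℕ}
    (hC : C.length = t) (hL : Lev b (t + m) (C ++ R) c d)
    (hn : (RecB b (t + m)).ncard = (RecB b m).ncard + t)
    (hI : ∀ z, In b (m + 1) z → In b (t + m + 1) z)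
    (hT : ∀ z, In b (m + 1) z → ∀ i, win z (i + t) m = R → win z i (t + m) = C ++ R)
    (hnb : ∀ k, m ≤ k → k < t + m → ∀ (R' : List ℕ) (c' d' : ℕ), c' ≠ d' → R' ++ [c'] ∈ RecB b (k + 1) →
        R' ++ [d'] ∈ RecB b (k + 1) → ¬ Bis b k R')
    (hb : ¬ Bis b (t + m) (C ++ R)) :
    ∃ C' : List ℕ, C'.length = t + 1 ∧ Lev b (t + 1 + m) (C' ++ R) c d ∧
      (RecB b (t + 1 + m)).ncard = (RecB b m).ncard + (t + 1) ∧
      (∀ z, In b (m + 1) z → In b (t + 1 + m + 1) z) ∧
      (∀ z, In b (m + 1) z → ∀ i, win z (i + (t + 1)) m = R → win z i (t + 1 + m) = C' ++ R) ∧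
      ∀ k, m ≤ k → k < t + 1 + m → ∀ (R' : List ℕ) (c' d' : ℕ), c' ≠ d' → R' ++ [c'] ∈ RecB b (k + 1) →
        R' ++ [d'] ∈ RecB b (k + 1) → ¬ Bis b k R' := by
  have hl : ∀ e e' : ℕ, e :: (C ++ R) ∈ RecB b (t + m + 1) → e' :: (C ++ R) ∈ RecB b (t + m + 1) → e = e' := by
    intro e e' h1 h2
    by_contra hne
    exact hb ⟨e, e', hne, h1, h2⟩
  obtain ⟨y, hy, hy2, hy3⟩ := lev_succ hM hL hl
  have e1 : t + 1 + m = t + m + 1 := by omega
  refine ⟨y :: C, by simp [hC], ?_, ?_, ?_, ?_, ?_⟩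
  · rw [e1, List.cons_append]; exact hy
  · rw [e1, hL.card, hn]; omega
  · intro z hz
    rw [e1]
    exact hy2 z (hI z hz)
  · intro z hz i hi
    have h1 : win z (i + 1) (t + m) = C ++ R := by
      apply hT z hz (i + 1)
      rw [show i + 1 + t = i + (t + 1) by omega]
      exact hi
    have h2 : z i = y := hy3 z (hI z hz) i h1
    rw [e1, win_succ', h1, h2, List.cons_append]
  · intro k hk1 hk2 R' c' d' hcd h1 h2
    by_cases hk : k < t + m
    · exact hnb k hk1 hk R' c' d' hcd h1 h2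
    · have hk3 : k = t + m := by omega
      subst hk3
      intro hB
      have hR : R' = C ++ R := by
        by_contra hne
        exact hcd (hL.uniq R' c' d' hne h1 h2)
      rw [hR] at hB
      exact hb hB

private lemma Clm_end {b : ℕ → ℕ} {M : ℕ} (hM : ∀ n, b n ≤ M) {m c d A B : ℕ} {R U V C : List ℕ} (hcd : c ≠ d)
    (hc : R ++ [c] ∈ RecB b (m + 1)) (hd : R ++ [d] ∈ RecB b (m + 1))
    (hU : Ret b m R c A U) (hV : Ret b m R d B V) (hAB : A ≤ B)
    (hT : ∀ z, In b (m + 1) z → ∀ i, win z (i + A) m = R → win z i (A + m) = C ++ R) : False := by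
  obtain ⟨T, hTT⟩ := in_late hM (m + 1)
  have hz := hTT T le_rfl
  have hocc : ∀ w : List ℕ, w ∈ RecB b (m + 1) → ∃ i, win (fun k => b (T + k)) i (m + 1) = w := by
    intro w hw
    obtain ⟨i, hi, hwi⟩ := (Filter.frequently_atTop.mp hw) T
    obtain ⟨i0, rfl⟩ := Nat.exists_eq_add_of_le hi
    exact ⟨i0, by rw [win_sh]; exact hwi⟩
  obtain ⟨i, hi⟩ := hocc _ hc
  obtain ⟨i', hi'⟩ := hocc _ hd
  set z0 : ℕ → ℕ := fun k => b (T + k) with hz0
  have hA0 := hU.pos
  have h1 := ret_next hU hz hi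
  have h2 := ret_next hV hz hi'
  have h3 := hT z0 hz i h1
  have h4 := hT z0 hz (i' + (B - A)) (by rw [show i' + (B - A) + A = i' + B by omega]; exact h2)
  have h5 : win z0 (i' + (B - A)) (A + m) = win z0 i (A + m) := by rw [h3, h4]
  have h6 : win z0 i m = R := by
    have := congrArg (List.take m) hi
    rw [win_take z0 i (by omega : m ≤ m + 1)] at this
    rw [this]
    have hl : R.length = m := by
      have := congrArg List.length hi
      simp at this
      omega
    rw [List.take_append_of_le_length (by omega), List.take_of_length_le (by omega)]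
  rcases Nat.lt_or_ge A B with hlt | hge
  · have h7 : win z0 (i' + (B - A)) m = R := by
      have := congrArg (List.take m) h5
      rw [win_take z0 _ (by omega : m ≤ A + m), win_take z0 _ (by omega : m ≤ A + m), h6] at this
      exact this
    exact hV.no z0 hz i' hi' (B - A) (by omega) (by omega) h7
  · have hBA : B - A = 0 := by omega
    rw [hBA, Nat.add_zero] at h5
    have := congrArg (List.take (m + 1)) h5
    rw [win_take z0 _ (by omega : m + 1 ≤ A + m), win_take z0 _ (by omega : m + 1 ≤ A + m), hi, hi'] at this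
    exact hcd ((append_singleton_inj.mp this).2.symm)

lemma climbD {b : ℕ → ℕ} {M : ℕ} (hM : ∀ n, b n ≤ M) {m c d : ℕ} {R : List ℕ} (h : Lev b m R c d) :
    ∃ C : List ℕ, Lev b (C.length + m) (C ++ R) c d ∧ Bis b (C.length + m) (C ++ R) ∧
      (RecB b (C.length + m)).ncard = (RecB b m).ncard + C.length ∧
      (∀ z, In b (m + 1) z → In b (C.length + m + 1) z) ∧
      (∀ z, In b (m + 1) z → ∀ i, win z (i + C.length) m = R → win z i (C.length + m) = C ++ R) ∧
      ∀ k, m ≤ k → k < C.length + m → ∀ (R' : List ℕ) (c' d' : ℕ), c' ≠ d' → R' ++ [c'] ∈ RecB b (k + 1) →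
        R' ++ [d'] ∈ RecB b (k + 1) → ¬ Bis b k R' := by
  by_contra hno
  have hQ : ∀ t : ℕ, ∃ C : List ℕ, C.length = t ∧ Lev b (t + m) (C ++ R) c d ∧
      (RecB b (t + m)).ncard = (RecB b m).ncard + t ∧
      (∀ z, In b (m + 1) z → In b (t + m + 1) z) ∧
      (∀ z, In b (m + 1) z → ∀ i, win z (i + t) m = R → win z i (t + m) = C ++ R) ∧
      ∀ k, m ≤ k → k < t + m → ∀ (R' : List ℕ) (c' d' : ℕ), c' ≠ d' → R' ++ [c'] ∈ RecB b (k + 1) →
        R' ++ [d'] ∈ RecB b (k + 1) → ¬ Bis b k R' := by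
    intro t
    induction t with
    | zero =>
      refine ⟨[], rfl, ?_, ?_, ?_, ?_, ?_⟩
      · rw [Nat.zero_add, List.nil_append]; exact h
      · rw [Nat.zero_add, Nat.add_zero]
      · intro z hz; rw [Nat.zero_add]; exact hz
      · intro z _ i hi; rw [Nat.zero_add, List.nil_append]; exact hi
      · intro k hk1 hk2; omega
    | succ t ih =>
      obtain ⟨C, hC, hL, hn, hI, hT, hnb⟩ := ih
      apply Clm_step hM hC hL hn hI hT hnb
      intro hB
      apply hno
      refine ⟨C, ?_⟩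
      rw [hC]
      exact ⟨hL, hB, hn, hI, hT, hnb⟩
  obtain ⟨A, U, hU⟩ := ret_ex hM h h.rc
  obtain ⟨B, V, hV⟩ := ret_ex hM h h.rd
  rcases Nat.le_total A B with hAB | hAB
  · obtain ⟨C, _, _, _, _, hT, _⟩ := hQ A
    exact Clm_end hM h.cd h.rc h.rd hU hV hAB hT
  · obtain ⟨C, _, _, _, _, hT, _⟩ := hQ B
    exact Clm_end hM h.cd.symm h.rd h.rc hV hU hAB hT

end Pool.Agent.H1.DC
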