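import Mathlib
import Pool.Agent.H1.DC.RetM

/-!
# Module Suf (110 lines): every sequence begins with a suffix of a return word; gaps

`last_R` (the basic fact about `z0`, a late part of `b`): there is a late sequence `z0 = fun k => b (T + k)` with `In b (m+1) z0`, `win z0 0 m = R` (choose `T` an
occurrence of `R` in `b` beyond the bound of `in_late`), in which every word of `RecB b (m+1)` and of `RecB b m` occurs. For every `Q` let `q ≤ Q` be the
largest index `≤ Q` with `win z0 q m = R` (`q = 0` is one: `Nat.findGreatest` or induction). `win z0 q (m+1) = R ++ [x]` is in `RecB b (m+1)`, so `x = c` or `x = d`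
(`h.two`). If `x = c`: `Q < q + A` (otherwise `q + A ≤ Q` is a larger occurrence, `ret_next`), `win z0 q (A+m) = U` (`ret`), and `win z0 (q+t) m ≠ R` for
`0 < t < A` (`no`). The same for `d`, `B`, `V`.
`last_R` states this: for every `w ∈ RecB b (m+1)` there are `g, s` with `s < g`, `(g = A ∧ X = U) ∨ (g = B ∧ X = V)`, `w = (X.drop s).take (m+1)`.
`suf_ex`: let `w = win z 0 (m+1) ∈ RecB b (m+1)`, occurring in `z0` at `Q`. If `win z 0 m = R` take `e = 0`: `win z 0 (0+m) = R = U.drop (A - 0)` (`hU.dr`). Otherwise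
`win z0 Q m ≠ R`, so `q < Q`, with `g = A` or `B` and `X = U` or `V` as above: `e = q + g - Q ≤ g`; the words `win z0 (Q+s) m`, `s < e`, are `≠ R`, so by `det`
(`z0` at `Q`, `z` at `0`) `win z 0 (e+m) = win z0 Q (e+m) = (win z0 q (g+m)).drop (Q-q) = X.drop (g-e)` (`win_drop`).
`gap_ex`: `win z i (m+1) = R ++ [x]`, `x = c` or `d` (`h.two`); by `no` the word at `i'` can be `R` only if `i' - i ≥ A` (resp. `B`).
-/

set_option autoImplicit false

namespace Pool.Agent.H1.DC

open Filter Pool.Agent.H2.MC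

private lemma Suf_z0 {b : ℕ → ℕ} {M : ℕ} (hM : ∀ n, b n ≤ M) {m c d : ℕ} {R : List ℕ} (h : Lev b m R c d) :
    ∃ T, In b (m + 1) (fun k => b (T + k)) ∧ win (fun k => b (T + k)) 0 m = R ∧
      ∀ w ∈ RecB b (m + 1), ∃ Q, win (fun k => b (T + k)) Q (m + 1) = w := by
  obtain ⟨T0, hT0⟩ := in_late hM (m + 1)
  have hR : R ∈ RecB b m := (lang_RecB hM).pre m R c h.rc
  obtain ⟨T, hT, hTR⟩ := (Filter.frequently_atTop.1 hR) T0
  refine ⟨T, hT0 T hT, ?_, ?_⟩
  · rw [win_sh, Nat.add_zero]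
    exact hTR
  · intro w hw
    obtain ⟨p, hp, hpw⟩ := (Filter.frequently_atTop.1 hw) T
    refine ⟨p - T, ?_⟩
    rw [win_sh, Nat.add_sub_cancel' hp]
    exact hpw

private lemma Suf_core {b : ℕ → ℕ} {m c d A B : ℕ} {R U V : List ℕ} (h : Lev b m R c d)
    (hU : Ret b m R c A U) (hV : Ret b m R d B V) {z : ℕ → ℕ} (hz : In b (m + 1) z)
    (h0 : win z 0 m = R) (Q : ℕ) :
    ∃ q, q ≤ Q ∧ win z q m = R ∧ ((Q < q + A ∧ win z q (m + 1) = R ++ [c]) ∨
      (Q < q + B ∧ win z q (m + 1) = R ++ [d])) := by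
  classical
  have hq := Nat.findGreatest_spec (P := fun j => win z j m = R) (n := Q) (m := 0) (Nat.zero_le _) h0
  have hle : Nat.findGreatest (fun j => win z j m = R) Q ≤ Q := Nat.findGreatest_le Q
  have hgr : ∀ j, Nat.findGreatest (fun j => win z j m = R) Q < j → j ≤ Q → ¬ win z j m = R :=
    fun j h1 h2 => Nat.findGreatest_is_greatest h1 h2
  set q := Nat.findGreatest (fun j => win z j m = R) Q with hqd
  have hs : win z q (m + 1) = R ++ [z (q + m)] := by
    rw [win_succ]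
    have : win z q m = R := hq
    rw [this]
  have hmem : R ++ [z (q + m)] ∈ RecB b (m + 1) := by
    rw [← hs]
    exact hz q
  refine ⟨q, hle, hq, ?_⟩
  rcases h.two _ hmem with hx | hx
  · left
    rw [hx] at hs
    refine ⟨?_, hs⟩
    by_contra hc
    exact hgr (q + A) (by have := hU.pos; omega) (by omega) (ret_next hU hz hs)
  · right
    rw [hx] at hs
    refine ⟨?_, hs⟩
    by_contra hc
    exact hgr (q + B) (by have := hV.pos; omega) (by omega) (ret_next hV hz hs)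

lemma last_R {b : ℕ → ℕ} {M : ℕ} (hM : ∀ n, b n ≤ M) {m c d A B : ℕ} {R U V : List ℕ} (h : Lev b m R c d)
    (hU : Ret b m R c A U) (hV : Ret b m R d B V) {w : List ℕ} (hw : w ∈ RecB b (m + 1)) :
    (∃ s, s < A ∧ w = (U.drop s).take (m + 1)) ∨ ∃ s, s < B ∧ w = (V.drop s).take (m + 1) := by
  obtain ⟨T, hz, h0, hall⟩ := Suf_z0 hM h
  obtain ⟨Q, hQ⟩ := hall w hw
  obtain ⟨q, hqQ, -, h1 | h1⟩ := Suf_core h hU hV hz h0 Q
  · left
    refine ⟨Q - q, by omega, ?_⟩
    rw [← hU.ret _ hz q h1.2, win_drop _ _ (by omega), win_take _ _ (by omega),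
      Nat.add_sub_cancel' hqQ, hQ]
  · right
    refine ⟨Q - q, by omega, ?_⟩
    rw [← hV.ret _ hz q h1.2, win_drop _ _ (by omega), win_take _ _ (by omega),
      Nat.add_sub_cancel' hqQ, hQ]

private lemma Suf_one {b : ℕ → ℕ} {m c d A e : ℕ} {R U : List ℕ} (h : Lev b m R c d)
    (hU : Ret b m R e A U) {z0 z : ℕ → ℕ} (hz0 : In b (m + 1) z0) (hz : In b (m + 1) z) {q Q : ℕ}
    (hqQ : q < Q) (hQ : Q < q + A) (he : win z0 q (m + 1) = R ++ [e]) (hw : win z0 Q m = win z 0 m) :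
    ∃ f, f ≤ A ∧ win z 0 (f + m) = U.drop (A - f) := by
  refine ⟨q + A - Q, by omega, ?_⟩
  have h1 := det h hz0 hz (i := Q) (i' := 0) (q + A - Q) hw (fun s hs => by
    have h2 := hU.no z0 hz0 q he (Q + s - q) (by omega) (by omega)
    have h3 : q + (Q + s - q) = Q + s := by omega
    rwa [h3] at h2)
  rw [← h1, ← hU.ret z0 hz0 q he, win_drop _ _ (by omega)]
  have h4 : q + (A - (q + A - Q)) = Q := by omega
  have h5 : A + m - (A - (q + A - Q)) = q + A - Q + m := by omega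
  rw [h4, h5]

lemma suf_ex {b : ℕ → ℕ} {M : ℕ} (hM : ∀ n, b n ≤ M) {m c d A B : ℕ} {R U V : List ℕ} (h : Lev b m R c d)
    (hU : Ret b m R c A U) (hV : Ret b m R d B V) {z : ℕ → ℕ} (hz : In b (m + 1) z) :
    ∃ e, (e ≤ A ∧ win z 0 (e + m) = U.drop (A - e)) ∨ (e ≤ B ∧ win z 0 (e + m) = V.drop (B - e)) := by
  by_cases hR : win z 0 m = R
  · refine ⟨0, Or.inl ⟨Nat.zero_le _, ?_⟩⟩
    rw [Nat.zero_add, hR, Nat.sub_zero, hU.dr]
  · obtain ⟨T, hz0, h0, hall⟩ := Suf_z0 hM h
    obtain ⟨Q, hQ⟩ := hall _ (hz 0)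
    have hw : win (fun k => b (T + k)) Q m = win z 0 m := by
      have h1 := congrArg (List.take m) hQ
      rwa [win_take _ _ (Nat.le_succ m), win_take _ _ (Nat.le_succ m)] at h1
    obtain ⟨q, hqQ, hqR, h1 | h1⟩ := Suf_core h hU hV hz0 h0 Q
    · have hlt : q < Q := by
        rcases hqQ.eq_or_lt with h2 | h2
        · exact absurd (by rw [← hw, ← h2]; exact hqR) hR
        · exact h2
      obtain ⟨f, hf⟩ := Suf_one h hU hz0 hz hlt h1.1 h1.2 hw
      exact ⟨f, Or.inl hf⟩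
    · have hlt : q < Q := by
        rcases hqQ.eq_or_lt with h2 | h2
        · exact absurd (by rw [← hw, ← h2]; exact hqR) hR
        · exact h2
      obtain ⟨f, hf⟩ := Suf_one h hV hz0 hz hlt h1.1 h1.2 hw
      exact ⟨f, Or.inr hf⟩

lemma gap_ex {b : ℕ → ℕ} {m c d A B : ℕ} {R U V : List ℕ} (h : Lev b m R c d)
    (hU : Ret b m R c A U) (hV : Ret b m R d B V) {z : ℕ → ℕ} (hz : In b (m + 1) z) {i i' : ℕ} (hi : i < i')
    (h1 : win z i m = R) (h2 : win z i' m = R) : A ≤ i' - i ∨ B ≤ i' - i := by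
  have hs : win z i (m + 1) = R ++ [z (i + m)] := by rw [win_succ, h1]
  have hmem : R ++ [z (i + m)] ∈ RecB b (m + 1) := by
    rw [← hs]
    exact hz i
  have h3 : i + (i' - i) = i' := by omega
  rcases h.two _ hmem with hx | hx
  · left
    rw [hx] at hs
    by_contra hc
    refine hU.no z hz i hs (i' - i) (by omega) (by omega) ?_
    rw [h3]
    exact h2
  · right
    rw [hx] at hs
    by_contra hc
    refine hV.no z hz i hs (i' - i) (by omega) (by omega) ?_
    rw [h3]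
    exact h2

end Pool.Agent.H1.DC
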