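import Mathlib
import Pool.Agent.H1.DC.Suf

set_option autoImplicit false

/-!
# Module Cnt (130 lines): the return times at a bispecial scale

CLAIM `A + B = ncard (RecB b (m+1))` (`= ncard (RecB b m) + 1` by `h.card`). Take `z0 = fun k => b (T + k)` with `In b (m+1) z0` (`in_late`), and positions `i1, i2` with
`win z0 i1 (m+1) = R ++ [c]`, `win z0 i2 (m+1) = R ++ [d]`. Then `win z0 i1 (A+m) = U`, `win z0 i2 (B+m) = V` (`ret`). Edges: `u t = win z0 (i1+t) (m+1)`, `t < A`;
`v t = win z0 (i2+t) (m+1)`, `t < B`; `u t = (U.drop t).take (m+1)`, `v t = (V.drop t).take (m+1)`.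
(1) every `w ∈ RecB b (m+1)` is some `u t` or `v t`: `last_R`. All `u t`, `v t` are in `RecB b (m+1)` (`In`).
(2) `u` is injective: if `u t = u t'`, `t < t' < A`: `det1` from `(z0, i1+t')`, `(z0, i1+t)` with `A - t'` steps (the words at `i1+t'+s`, `0 < s < A-t'` are `≠ R` by `no`):
 `win z0 (i1+t+(A-t')) m = win z0 (i1+A) m = R` (`ret_next`), but `0 < t+(A-t') < A`, contradiction to `no`. The same for `v`.
(3) `u t ≠ v t'`: suppose equality. If `t = 0`: the prefix is `R`, so `t' = 0` (`no` for `V`), and `R ++ [c] = R ++ [d]`, contradiction; the same if `t' = 0`. Let `t, t' > 0`.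
 Then `A - t = B - t'`: if `A - t < B - t'`: `det1` with `A - t` steps gives `win z0 (i2+t'+(A-t)) m = R` with `0 < t' + (A-t) < B`, contradiction; symmetric the other way.
 With `g = A - t = B - t' ≥ 1`, `det1` with `g` steps: `win z0 (i1+t) (g+m) = win z0 (i2+t') (g+m)`; the last `m+1` letters (drop `g - 1`):
 `win z0 (i1+A-1) (m+1) = win z0 (i2+B-1) (m+1)`: so the letter before `R` at the end of `U` and of `V` is the same letter `ℓ`.
 But every `w ∈ RecB b (m+1)` of the form `x :: R` is `u t` or `v t'` by (1) with `win z0 (i1+t+1) m = R`, so `t + 1 = A` (`no`), `w = win z0 (i1+A-1) (m+1)`, or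
 `t' + 1 = B`: in both cases `x = ℓ`. This contradicts `Bis` (`x ≠ y`).
So `RecB b (m+1)` is the disjoint union of the images of `u` on `range A` and of `v` on `range B` (`Set.ncard_union_eq`, `Set.ncard_image_of_injOn`,
or `Finset.card_image_of_injOn`).
-/

namespace Pool.Agent.H1.DC

open Filter Pool.Agent.H2.MC

private lemma Cnt_occ {b : ℕ → ℕ} {M : ℕ} (hM : ∀ n, b n ≤ M) (m : ℕ) :
    ∃ z : ℕ → ℕ, In b (m + 1) z ∧ ∀ w ∈ RecB b (m + 1), ∃ i, win z i (m + 1) = w := by
  obtain ⟨T, hTT⟩ := in_late hM (m + 1)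
  refine ⟨fun k => b (T + k), hTT T le_rfl, ?_⟩
  intro w hw
  obtain ⟨i, hi, hwi⟩ := (Filter.frequently_atTop.mp hw) T
  obtain ⟨i0, rfl⟩ := Nat.exists_eq_add_of_le hi
  exact ⟨i0, by rw [win_sh]; exact hwi⟩

/-- Equal words of length `m + 1` with `g` deterministic steps after the first: equal words `m` letters long, `g` places on. -/
private lemma Cnt_go {b : ℕ → ℕ} {m c d : ℕ} {R : List ℕ} (h : Lev b m R c d) {z : ℕ → ℕ} (hz : In b (m + 1) z)
    {i i' g : ℕ} (hg : 0 < g) (he : win z i (m + 1) = win z i' (m + 1))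
    (hR : ∀ s, 0 < s → s < g → win z (i + s) m ≠ R) : win z (i + g) m = win z (i' + g) m := by
  have h1 := det1 h hz hz g hg he hR
  have h2 := congrArg (List.drop g) h1
  rw [win_drop z i (by omega : g ≤ g + m), win_drop z i' (by omega : g ≤ g + m)] at h2
  rw [Nat.add_sub_cancel_left] at h2
  exact h2

private lemma Cnt_inj {b : ℕ → ℕ} {m c d e A : ℕ} {R U : List ℕ} (h : Lev b m R c d) (hU : Ret b m R e A U)
    {z : ℕ → ℕ} (hz : In b (m + 1) z) {i : ℕ} (hi : win z i (m + 1) = R ++ [e]) {t t' : ℕ} (htt : t < t') (ht : t' < A) :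
    win z (i + t) (m + 1) ≠ win z (i + t') (m + 1) := by
  intro heq
  have hR : ∀ s, 0 < s → s < A - t' → win z (i + t' + s) m ≠ R := by
    intro s hs1 hs2
    have := hU.no z hz i hi (t' + s) (by omega) (by omega)
    rwa [← Nat.add_assoc] at this
  have h1 := Cnt_go h hz (by omega : 0 < A - t') heq.symm hR
  have h2 := ret_next hU hz hi
  rw [show i + t' + (A - t') = i + A by omega, h2] at h1
  exact hU.no z hz i hi (t + (A - t')) (by omega) (by omega) (by rw [← Nat.add_assoc]; exact h1.symm)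

private lemma Cnt_lt {b : ℕ → ℕ} {m c d e e' A B : ℕ} {R U V : List ℕ} (h : Lev b m R c d) (hU : Ret b m R e A U)
    (hV : Ret b m R e' B V) {z : ℕ → ℕ} (hz : In b (m + 1) z) {i1 i2 : ℕ} (h1 : win z i1 (m + 1) = R ++ [e])
    (h2 : win z i2 (m + 1) = R ++ [e']) {t t' : ℕ} (htA : t < A) (ht' : 0 < t')
    (heq : win z (i1 + t) (m + 1) = win z (i2 + t') (m + 1)) : ¬ A - t < B - t' := by
  intro hlt
  have hR : ∀ s, 0 < s → s < A - t → win z (i1 + t + s) m ≠ R := by
    intro s hs1 hs2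
    have := hU.no z hz i1 h1 (t + s) (by omega) (by omega)
    rwa [← Nat.add_assoc] at this
  have h3 := Cnt_go h hz (by omega : 0 < A - t) heq hR
  have h4 := ret_next hU hz h1
  rw [show i1 + t + (A - t) = i1 + A by omega, h4] at h3
  exact hV.no z hz i2 h2 (t' + (A - t)) (by omega) (by omega) (by rw [← Nat.add_assoc]; exact h3.symm)

private lemma Cnt_zero {b : ℕ → ℕ} {m e e' B : ℕ} {R V : List ℕ} (hee : e ≠ e')
    (hV : Ret b m R e' B V) {z : ℕ → ℕ} (hz : In b (m + 1) z) {i1 i2 : ℕ} (h1 : win z i1 (m + 1) = R ++ [e])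
    (h2 : win z i2 (m + 1) = R ++ [e']) {t' : ℕ} (htB : t' < B)
    (heq : win z i1 (m + 1) = win z (i2 + t') (m + 1)) : False := by
  rcases Nat.eq_zero_or_pos t' with h0 | h0
  · subst h0
    have h3 : win z i1 (m + 1) = win z i2 (m + 1) := heq
    rw [h1, h2] at h3
    have heq := h3
    exact hee (append_singleton_inj.mp heq).2
  · rw [h1, win_succ] at heq
    exact hV.no z hz i2 h2 t' h0 htB (append_singleton_inj.mp heq).1.symm

/-- The letter before the closing `R`. -/
private lemma Cnt_last {b : ℕ → ℕ} {m e A x s : ℕ} {R U : List ℕ} (hU : Ret b m R e A U) {z : ℕ → ℕ}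
    (hz : In b (m + 1) z) {i : ℕ} (hi : win z i (m + 1) = R ++ [e]) (hs : s < A)
    (hw : x :: R = (U.drop s).take (m + 1)) : x = z (i + (A - 1)) := by
  have hUw := hU.ret z hz i hi
  rw [← hUw, win_drop z i (by omega : s ≤ A + m), win_take z _ (by omega : m + 1 ≤ A + m - s), win_succ'] at hw
  have h1 := (List.cons.inj hw)
  have h2 : ¬ s + 1 < A := by
    intro hlt
    exact hU.no z hz i hi (s + 1) (by omega) hlt (by rw [← Nat.add_assoc]; exact h1.2.symm)
  rw [h1.1, show s = A - 1 by omega]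

private lemma Cnt_ne {b : ℕ → ℕ} {M : ℕ} (hM : ∀ n, b n ≤ M) {m c d A B : ℕ} {R U V : List ℕ} (h : Lev b m R c d)
    (hU : Ret b m R c A U) (hV : Ret b m R d B V) (hbis : Bis b m R) {z : ℕ → ℕ} (hz : In b (m + 1) z) {i1 i2 : ℕ}
    (h1 : win z i1 (m + 1) = R ++ [c]) (h2 : win z i2 (m + 1) = R ++ [d]) {t t' : ℕ} (htA : t < A) (htB : t' < B) :
    win z (i1 + t) (m + 1) ≠ win z (i2 + t') (m + 1) := by
  intro heq
  rcases Nat.eq_zero_or_pos t with h0 | h0
  · subst h0
    exact Cnt_zero h.cd hV hz h1 h2 htB heq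
  rcases Nat.eq_zero_or_pos t' with h0' | h0'
  · subst h0'
    exact Cnt_zero h.cd.symm hU hz h2 h1 htA heq.symm
  have h3 := Cnt_lt h hU hV hz h1 h2 htA h0' heq
  have h4 := Cnt_lt h hV hU hz h2 h1 htB h0 heq.symm
  have h5 : A - t = B - t' := by omega
  have hR : ∀ s, 0 < s → s < A - t → win z (i1 + t + s) m ≠ R := by
    intro s hs1 hs2
    have := hU.no z hz i1 h1 (t + s) (by omega) (by omega)
    rwa [← Nat.add_assoc] at this
  have h6 := det1 h hz hz (A - t) (by omega) heq hR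
  have h7 : z (i1 + (A - 1)) = z (i2 + (B - 1)) := by
    have h8 := (win_eq_iff z z (i1 + t) (i2 + t') (A - t + m)).mp h6 (A - t - 1) (by omega)
    rw [show i1 + t + (A - t - 1) = i1 + (A - 1) by omega, show i2 + t' + (A - t - 1) = i2 + (B - 1) by omega] at h8
    exact h8
  have hkey : ∀ x : ℕ, x :: R ∈ RecB b (m + 1) → x = z (i1 + (A - 1)) := by
    intro x hx
    rcases last_R hM h hU hV hx with ⟨s, hs, hw⟩ | ⟨s, hs, hw⟩
    · exact Cnt_last hU hz h1 hs hw
    · rw [h7]; exact Cnt_last hV hz h2 hs hw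
  obtain ⟨x, y, hxy, hx, hy⟩ := hbis
  exact hxy ((hkey x hx).trans (hkey y hy).symm)

lemma cnt {b : ℕ → ℕ} {M : ℕ} (hM : ∀ n, b n ≤ M) {m c d A B : ℕ} {R U V : List ℕ} (h : Lev b m R c d)
    (hU : Ret b m R c A U) (hV : Ret b m R d B V) (hbis : Bis b m R) : A + B = (RecB b m).ncard + 1 := by
  rw [← h.card]
  obtain ⟨z, hz, hocc⟩ := Cnt_occ hM m
  obtain ⟨i1, h1⟩ := hocc _ h.rc
  obtain ⟨i2, h2⟩ := hocc _ h.rd
  have hset : RecB b (m + 1) = (((Finset.range A).image (fun t => win z (i1 + t) (m + 1)) ∪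
      (Finset.range B).image (fun t => win z (i2 + t) (m + 1)) : Finset (List ℕ)) : Set (List ℕ)) := by
    ext w
    simp only [Finset.coe_union, Finset.coe_image, Finset.coe_range, Set.mem_union, Set.mem_image, Set.mem_Iio]
    constructor
    · intro hw
      rcases last_R hM h hU hV hw with ⟨s, hs, hw⟩ | ⟨s, hs, hw⟩
      · left
        refine ⟨s, hs, ?_⟩
        rw [hw, ← hU.ret z hz i1 h1, win_drop z i1 (by omega : s ≤ A + m), win_take z _ (by omega : m + 1 ≤ A + m - s)]
      · right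
        refine ⟨s, hs, ?_⟩
        rw [hw, ← hV.ret z hz i2 h2, win_drop z i2 (by omega : s ≤ B + m), win_take z _ (by omega : m + 1 ≤ B + m - s)]
    · rintro (⟨s, _, rfl⟩ | ⟨s, _, rfl⟩)
      · exact hz _
      · exact hz _
  rw [hset, Set.ncard_coe_finset, Finset.card_union_of_disjoint, Finset.card_image_of_injOn, Finset.card_image_of_injOn,
    Finset.card_range, Finset.card_range]
  · intro t ht t' ht' heq
    rw [Finset.coe_range, Set.mem_Iio] at ht ht'
    rcases Nat.lt_trichotomy t t' with hl | hl | hl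
    · exact absurd heq (Cnt_inj h hV hz h2 hl ht')
    · exact hl
    · exact absurd heq.symm (Cnt_inj h hV hz h2 hl ht)
  · intro t ht t' ht' heq
    rw [Finset.coe_range, Set.mem_Iio] at ht ht'
    rcases Nat.lt_trichotomy t t' with hl | hl | hl
    · exact absurd heq (Cnt_inj h hU hz h1 hl ht')
    · exact hl
    · exact absurd heq.symm (Cnt_inj h hU hz h1 hl ht)
  · rw [Finset.disjoint_left]
    intro w hw1 hw2
    rw [Finset.mem_image] at hw1 hw2
    obtain ⟨t, ht, rfl⟩ := hw1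
    obtain ⟨t', ht', heq⟩ := hw2
    exact Cnt_ne hM h hU hV hbis hz h1 h2 (Finset.mem_range.mp ht) (Finset.mem_range.mp ht') heq.symm

end Pool.Agent.H1.DC
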