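import Mathlib
import Pool.Agent.H1.DC.Clm
import Pool.Agent.H1.DC.Cnt
import Pool.Agent.H54.TM.Tw

set_option autoImplicit false

/-!
# Module CbT: a twisted palindrome near the beginning of both sequences, at every bispecial scale with small defect

At a bispecial scale `m` (`Lev`, `Bis`) let `U = w₁ R`, `V = w₂ R` be the two return words, `A + B = m + D`. Both sequences begin with a suffix of `U` or
of `V` which ends with `R` (`suf_ex`). `w₁ w₂ = R u`, `w₂ w₁ = R v`, `|u| = |v| = D`, and `R`, `U`, `V` are twisted palindromes for the twist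
`tws u v` (`tw_R`, `tw_1`, `tw_2`). Both in `U`: take `R` forwards (cost `s = d + d'`) or `U` backwards (cost `2A - s` against `A + m`). One in `U`, one in
`V`: take the nearest `R` (cost at most `(A + B) / 2`).
-/

namespace Pool.Agent.H1.DC

open Filter Pool.Agent.H2.MC Pool.Agent.H54.TM Matrix

lemma cbt_len {b : ℕ → ℕ} {n : ℕ} {w : List ℕ} (h : w ∈ RecB b n) : w.length = n := by
  obtain ⟨i, hi⟩ := Filter.Frequently.exists h
  rw [← hi, win_length]

lemma cbt_symm {b : ℕ → ℕ} {m c d : ℕ} {R : List ℕ} (h : Lev b m R c d) : Lev b m R d c :=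
  ⟨h.cd.symm, h.rd, h.rc, h.uniq, fun e he => (h.two e he).symm, h.card⟩

/-- a loop at `c` which is followed by a loop at `d` -/
lemma cbt_step {b : ℕ → ℕ} {m c d A : ℕ} {R U : List ℕ} (h : Lev b m R c d)
    (hU : Ret b m R c A U) {z : ℕ → ℕ} (hz : In b (m + 1) z) :
    ∀ (n i : ℕ), win z i (m + 1) = R ++ [c] → win z (i + n) (m + 1) = R ++ [d] →
      ∃ i', win z i' (m + 1) = R ++ [c] ∧ win z (i' + A) (m + 1) = R ++ [d] := by
  intro n
  induction n using Nat.strong_induction_on with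
  | _ n ih =>
    intro i h1 h2
    have hA := hU.pos
    have hn0 : n ≠ 0 := by
      rintro rfl
      rw [Nat.add_zero, h1] at h2
      have h3 : [c] = [d] := List.append_cancel_left h2
      have h4 : c = d := by simpa using h3
      exact h.cd h4
    have hR : win z (i + n) m = R := by
      have h3 := congrArg (List.take m) h2
      rw [win_take z _ (Nat.le_succ m)] at h3
      have hRl : R.length = m := by
        have := congrArg List.length h2
        simp only [win_length, List.length_append, List.length_singleton] at this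
        omega
      rw [List.take_append_of_le_length hRl.ge, List.take_of_length_le hRl.le] at h3
      exact h3
    have hAn : A ≤ n := by
      by_contra hcon
      exact hU.no z hz i h1 n (Nat.pos_of_ne_zero hn0) (by omega) hR
    have h5 := ret_next hU hz h1
    have h6 : win z (i + A) (m + 1) = R ++ [z (i + A + m)] := by rw [win_succ, h5]
    have h7 := hz (i + A)
    rw [h6] at h7
    rcases h.two _ h7 with h8 | h8
    · rw [h8] at h6
      refine ih (n - A) (by omega) (i + A) h6 ?_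
      have : i + A + (n - A) = i + n := by omega
      rw [this]
      exact h2
    · rw [h8] at h6
      exact ⟨i, h1, h6⟩

/-- the word `w₁ w₂` occurs in `b`, and it begins with `R c` -/
lemma cbt_trans {b : ℕ → ℕ} {M : ℕ} (hM : ∀ n, b n ≤ M) {m c d A B : ℕ} {R U V : List ℕ} (h : Lev b m R c d)
    (hU : Ret b m R c A U) (hV : Ret b m R d B V) :
    ∃ p, win b p (A + B) = U.take A ++ V.take B ∧ win b p (m + 1) = R ++ [c] := by
  obtain ⟨T, hT⟩ := in_late hM (m + 1)
  have hz := hT T le_rfl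
  obtain ⟨p1, hp1, h1⟩ := frequently_atTop.1 h.rc T
  obtain ⟨p2, hp2, h2⟩ := frequently_atTop.1 h.rd p1
  obtain ⟨i1, rfl⟩ := Nat.exists_eq_add_of_le hp1
  obtain ⟨n, rfl⟩ := Nat.exists_eq_add_of_le hp2
  have h1' : win (fun k => b (T + k)) i1 (m + 1) = R ++ [c] := by rw [win_sh]; exact h1
  have h2' : win (fun k => b (T + k)) (i1 + n) (m + 1) = R ++ [d] := by rw [win_sh, ← Nat.add_assoc]; exact h2
  obtain ⟨i, hi1, hi2⟩ := cbt_step h hU hz n i1 h1' h2'
  have hUi := hU.ret _ hz i hi1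
  have hVi := hV.ret _ hz (i + A) hi2
  refine ⟨T + i, ?_, ?_⟩
  · rw [← win_sh, win_add]
    congr 1
    · rw [← hUi, win_take _ _ (Nat.le_add_right A m)]
    · rw [← hVi, win_take _ _ (Nat.le_add_right B m)]
  · rw [← win_sh]
    exact hi1

/-- forward: `R` at `e` -/
lemma cbt_fw {z : ℕ → ℕ} {m g : ℕ} {R X : List ℕ} (hd : X.drop g = R) {e : ℕ} (he : e ≤ g)
    (hz : win z 0 (e + m) = X.drop (g - e)) : win z e m = R := by
  have h1 := congrArg (List.drop e) hz
  rw [win_drop z 0 (Nat.le_add_right e m), List.drop_drop] at h1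
  have e1 : e + m - e = m := by omega
  have e2 : g - e + e = g := by omega
  rw [e1, Nat.zero_add, e2, hd] at h1
  exact h1

/-- the nearest `R` -/
lemma cbt_near {z : ℕ → ℕ} {m g : ℕ} {R X : List ℕ} (ht : X.take m = R) (hd : X.drop g = R)
    {e0 : ℕ} (h0 : e0 ≤ g) (hz : win z 0 (e0 + m) = X.drop (g - e0)) (hg : g ≤ 2 * m) :
    ∃ i e, 2 * (i + e) ≤ g ∧ e ≤ m ∧ win z i (m - e) = R.drop e := by
  by_cases h : 2 * e0 ≤ g
  · refine ⟨e0, 0, by omega, Nat.zero_le _, ?_⟩
    rw [Nat.sub_zero, List.drop_zero]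
    exact cbt_fw hd h0 hz
  · refine ⟨0, g - e0, by omega, by omega, ?_⟩
    have h1 := congrArg (List.take (m - (g - e0))) hz
    rw [win_take z 0 (by omega : m - (g - e0) ≤ e0 + m)] at h1
    rw [h1, ← ht, List.drop_take]

/-- both sequences begin in the same return word -/
lemma cbt_same {z z' : ℕ → ℕ} {m g D : ℕ} {R X : List ℕ} (hl : X.length = g + m) (hRl : R.length = m)
    (hd : X.drop g = R) {e0 e1 : ℕ} (h0 : e0 ≤ g) (h1 : e1 ≤ g)
    (hz : win z 0 (e0 + m) = X.drop (g - e0)) (hz' : win z' 0 (e1 + m) = X.drop (g - e1)) (hg : g ≤ m + D)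
    (hDm : D ≤ m) {t c δ : ℝ} (hc : 0 ≤ c) (hc3 : 3 * c ≤ 1) (hδ : 0 ≤ δ)
    (hD : (7 + 3 * c) * D + 2 * (1 + c) * t + 6 * δ * m ≤ (1 - 3 * c) * m) :
    ∃ (Y : List ℕ) (i j e e' : ℕ), (Y = R ∨ Y = X) ∧ e ≤ Y.length ∧ e' ≤ Y.length ∧
      win z i (Y.length - e) = Y.drop e ∧ win z' j (Y.length - e') = Y.drop e' ∧
      t + i + j + e + e' + 3 * (D : ℝ) + c * (t + i + j + Y.length - e - e' + D) + δ * Y.length ≤ Y.length := by
  have hDm' : (D : ℝ) ≤ m := by exact_mod_cast hDm
  have hg' : (g : ℝ) ≤ m + D := by exact_mod_cast hg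
  have hD0 : (0 : ℝ) ≤ D := Nat.cast_nonneg _
  have hm0 : (0 : ℝ) ≤ m := Nat.cast_nonneg _
  have hg0 : (0 : ℝ) ≤ g := Nat.cast_nonneg _
  by_cases hF : (1 + c) * ((e0 : ℝ) + e1) + (1 + c) * t + (3 + c) * D + (c + 3 * δ) * m ≤ m
  · refine ⟨R, e0, e1, 0, 0, Or.inl rfl, Nat.zero_le _, Nat.zero_le _, ?_, ?_, ?_⟩
    · rw [Nat.sub_zero, List.drop_zero, hRl]
      exact cbt_fw hd h0 hz
    · rw [Nat.sub_zero, List.drop_zero, hRl]
      exact cbt_fw hd h1 hz'
    · rw [hRl]
      push_cast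
      have : 0 ≤ δ * m := mul_nonneg hδ hm0
      nlinarith
  · rw [not_le] at hF
    have e2 : X.length - (g - e0) = e0 + m := by omega
    have e3 : X.length - (g - e1) = e1 + m := by omega
    refine ⟨X, 0, 0, g - e0, g - e1, Or.inr rfl, by omega, by omega, ?_, ?_, ?_⟩
    · rw [e2]
      exact hz
    · rw [e3]
      exact hz'
    · have q0 : ((g - e0 : ℕ) : ℝ) = (g : ℝ) - e0 := by rw [Nat.cast_sub h0]
      have q1 : ((g - e1 : ℕ) : ℝ) = (g : ℝ) - e1 := by rw [Nat.cast_sub h1]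
      rw [hl, q0, q1]
      push_cast
      -- the sum of the two conditions
      have hc1 : 0 ≤ 1 - c := by linarith
      have k1 := mul_lt_mul_of_pos_left hF (by linarith : 0 < 1 - c)
      have k2 : (1 - c) * (1 + c) * g ≤ (1 - c) * (1 + c) * (m + D) :=
        mul_le_mul_of_nonneg_left hg' (by nlinarith)
      have k3 : δ * g ≤ δ * (m + D) := mul_le_mul_of_nonneg_left hg' hδ
      have k4 : δ * D ≤ δ * m := mul_le_mul_of_nonneg_left hDm' hδ
      have k5 : 0 ≤ δ * m := mul_nonneg hδ hm0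
      have k6 : 0 ≤ c * D := mul_nonneg hc hD0
      have k7 : 0 ≤ c ^ 2 * D := by positivity
      have k8 : 0 ≤ (c + c ^ 2) * m := by positivity
      -- write `E = m - (1+c) t - (3+c) D - (c + 3δ) m`
      by_contra hcon
      rw [not_le] at hcon
      have k9 : (1 - c) * ((g : ℝ) + g - e0 - e1) > g + m - ((1 + c) * t + (3 + c) * D + (c + 3 * δ) * m) - c * g := by
        nlinarith
      have k10 := mul_lt_mul_of_pos_left k9 (by linarith : 0 < 1 + c)
      nlinarith

theorem cbT {b : ℕ → ℕ} {M : ℕ} (hM : ∀ n, b n ≤ M) (hb0 : ∀ n, 0 < b n) {m c₀ d₀ : ℕ} {R : List ℕ}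
    (h : Lev b m R c₀ d₀) (hbis : Bis b m R) (hlow : m + 1 ≤ (RecB b m).ncard) {z z' : ℕ → ℕ} (hz : In b (m + 1) z)
    (hz' : In b (m + 1) z') {t c δ : ℝ} (ht : 0 ≤ t) (hc : 0 ≤ c) (hδ : 0 ≤ δ)
    (hD : (7 + 3 * c) * (((RecB b m).ncard : ℝ) + 1 - m) + 2 * (1 + c) * t + 6 * δ * m ≤ (1 - 3 * c) * m) :
    ∃ (X u v : List ℕ) (i j e e' : ℕ), m ≤ X.length ∧ cfZ X * (tws u v)ᵀ = tws u v * (cfZ X)ᵀ ∧ (tws u v).det ≠ 0 ∧
      (∃ p, win b p X.length = X) ∧ (∃ p, win b p u.length = u) ∧ (∃ p, win b p v.length = v) ∧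
      v.length = u.length ∧ e ≤ X.length ∧ e' ≤ X.length ∧
      win z i (X.length - e) = X.drop e ∧ win z' j (X.length - e') = X.drop e' ∧
      t + i + j + e + e' + 3 * (u.length : ℝ) + c * (t + i + j + X.length - e - e' + u.length) + δ * X.length ≤
        X.length := by
  obtain ⟨A, U, hU⟩ := ret_ex hM h h.rc
  obtain ⟨B, V, hV⟩ := ret_ex hM h h.rd
  have hcnt := cnt hM h hU hV hbis
  obtain ⟨D, hDdef⟩ : ∃ D, A + B = m + D := Nat.exists_eq_add_of_le (by omega)
  have hDr : ((RecB b m).ncard : ℝ) + 1 - m = D := by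
    have h1 : (((RecB b m).ncard + 1 : ℕ) : ℝ) = ((m + D : ℕ) : ℝ) := by rw [← hcnt, hDdef]
    push_cast at h1
    linarith
  rw [hDr] at hD
  have hD2 : 2 ≤ D := by omega
  have hD2' : (2 : ℝ) ≤ D := by exact_mod_cast hD2
  have hm0 : (0 : ℝ) ≤ m := Nat.cast_nonneg _
  have hδm : 0 ≤ δ * m := mul_nonneg hδ hm0
  have hct : 0 ≤ (1 + c) * t := by positivity
  have hcD : 0 ≤ c * D := by positivity
  have hcm : 0 ≤ c * m := by positivity
  have hDm7 : 7 * (D : ℝ) ≤ m := by nlinarith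
  have hDm : D ≤ m := by
    have : (D : ℝ) ≤ m := by linarith
    exact_mod_cast this
  have hc3 : 3 * c ≤ 1 := by
    by_contra hcon
    rw [not_le] at hcon
    have h1 : (1 - 3 * c) * m ≤ 0 := mul_nonpos_of_nonpos_of_nonneg (by linarith) hm0
    nlinarith
  have hUl := cbt_len hU.mem
  have hVl := cbt_len hV.mem
  have hRl : R.length = m := by
    rw [← hU.tk, List.length_take, hUl]
    omega
  have hUe : U.take A ++ R = U := by
    have h1 := List.take_append_drop A U
    rw [hU.dr] at h1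
    exact h1
  have hVe : V.take B ++ R = V := by
    have h1 := List.take_append_drop B V
    rw [hV.dr] at h1
    exact h1
  obtain ⟨p, hp1, hp2⟩ := cbt_trans hM h hU hV
  obtain ⟨p', hp1', hp2'⟩ := cbt_trans hM (cbt_symm h) hV hU
  have hBA : B + A = A + B := Nat.add_comm _ _
  rw [hBA] at hp1'
  have take1 : ∀ q, ∀ x : ℕ, win b q (m + 1) = R ++ [x] → (win b q (A + B)).take m = R := by
    intro q x hx
    rw [win_take b q (by omega : m ≤ A + B)]
    have h1 := congrArg (List.take m) hx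
    rw [win_take b q (Nat.le_succ m), List.take_append_of_le_length hRl.ge, List.take_of_length_le hRl.le] at h1
    exact h1
  have w12 : U.take A ++ V.take B = R ++ (win b p (A + B)).drop m := by
    rw [← hp1]
    have h1 := List.take_append_drop m (win b p (A + B))
    rw [take1 p _ hp2] at h1
    exact h1.symm
  have w21 : V.take B ++ U.take A = R ++ (win b p' (A + B)).drop m := by
    rw [← hp1']
    have h1 := List.take_append_drop m (win b p' (A + B))
    rw [take1 p' _ hp2'] at h1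
    exact h1.symm
  have hu : (win b p (A + B)).drop m = win b (p + m) (A + B - m) := win_drop b p (by omega)
  have hv : (win b p' (A + B)).drop m = win b (p' + m) (A + B - m) := win_drop b p' (by omega)
  have hABm : A + B - m = D := by omega
  rw [hu, hABm] at w12
  rw [hv, hABm] at w21
  have hcomm : U.take A ++ V.take B ≠ V.take B ++ U.take A := by
    rw [← hp1, ← hp1']
    intro hcon
    have h1 := congrArg (List.take (m + 1)) hcon
    rw [win_take b p (by omega), win_take b p' (by omega), hp2, hp2'] at h1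
    have h3 : [c₀] = [d₀] := List.append_cancel_left h1
    have h4 : c₀ = d₀ := by simpa using h3
    exact h.cd h4
  have posw : ∀ q n, ∀ x ∈ win b q n, 0 < x := fun q n => win_pos hb0 q n
  have hpU : ∀ x ∈ U.take A, 0 < x := by
    intro x hx
    exact posw p (A + B) x (by rw [hp1]; exact List.mem_append_left _ hx)
  have hpV : ∀ x ∈ V.take B, 0 < x := by
    intro x hx
    exact posw p (A + B) x (by rw [hp1]; exact List.mem_append_right _ hx)
  have hne : U.take A ≠ [] := by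
    intro hcon
    have h1 := congrArg List.length hcon
    rw [List.length_take, hUl, List.length_nil] at h1
    have := hU.pos
    omega
  set u := win b (p + m) D with hudef
  set v := win b (p' + m) D with hvdef
  have hul : u.length = D := by rw [hudef, win_length]
  have hvl : v.length = D := by rw [hvdef, win_length]
  have tR := tw_R w12 w21
  have tU := tw_1 w12 w21
  have tV := tw_2 w12 w21
  rw [hUe] at tU
  rw [hVe] at tV
  have hdet := tws_det_ne w12 w21 hpU hpV hne hcomm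
  have hRw : ∃ q, win b q R.length = R := by
    refine ⟨p, ?_⟩
    rw [hRl]
    have h1 := take1 p _ hp2
    rwa [win_take b p (by omega : m ≤ A + B)] at h1
  have hUw : ∃ q, win b q U.length = U := by
    rw [hUl]
    exact Filter.Frequently.exists hU.mem
  have hVw : ∃ q, win b q V.length = V := by
    rw [hVl]
    exact Filter.Frequently.exists hV.mem
  have huw : ∃ q, win b q u.length = u := ⟨p + m, by rw [hul]⟩
  have hvw : ∃ q, win b q v.length = v := ⟨p' + m, by rw [hvl]⟩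
  have hAg : A ≤ m + D := by omega
  have hBg : B ≤ m + D := by omega
  have ABr : (A : ℝ) + B = m + D := by exact_mod_cast hDdef
  -- one in `U`, one in `V` (in some order)
  have mixed : ∀ (g1 g2 : ℕ) (X1 X2 : List ℕ) (e1 e2 : ℕ), g1 + g2 = m + D → X1.take m = R → X1.drop g1 = R →
      X2.take m = R → X2.drop g2 = R → e1 ≤ g1 → e2 ≤ g2 → win z 0 (e1 + m) = X1.drop (g1 - e1) →
      win z' 0 (e2 + m) = X2.drop (g2 - e2) →
      ∃ (i j e e' : ℕ), e ≤ R.length ∧ e' ≤ R.length ∧
      win z i (R.length - e) = R.drop e ∧ win z' j (R.length - e') = R.drop e' ∧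
      t + i + j + e + e' + 3 * (D : ℝ) + c * (t + i + j + R.length - e - e' + D) + δ * R.length ≤ R.length := by
    intro g1 g2 X1 X2 e1 e2 hg x1 x2 x3 x4 x5 x6 x7 x8
    obtain ⟨i, e, y1, y2, y3⟩ := cbt_near x1 x2 x5 x7 (by omega)
    obtain ⟨j, e', y4, y5, y6⟩ := cbt_near x3 x4 x6 x8 (by omega)
    rw [hRl]
    refine ⟨i, j, e, e', y2, y5, y3, y6, ?_⟩
    have y7 : 2 * (i + e + (j + e')) ≤ m + D := by omega
    have y8 : 2 * ((i : ℝ) + e + (j + e')) ≤ m + D := by exact_mod_cast y7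
    have z1 : (0 : ℝ) ≤ e := Nat.cast_nonneg _
    have z2 : (0 : ℝ) ≤ e' := Nat.cast_nonneg _
    have z3 : 0 ≤ c * (e + e') := by positivity
    have z4 := mul_le_mul_of_nonneg_left y8 hc
    nlinarith
  have hcase := suf_ex hM h hU hV hz
  have hcase' := suf_ex hM h hU hV hz'
  obtain ⟨d1, hd1⟩ := hcase
  obtain ⟨d2, hd2⟩ := hcase'
  rcases hd1 with ⟨ha, hb⟩ | ⟨ha, hb⟩ <;> rcases hd2 with ⟨ha', hb'⟩ | ⟨ha', hb'⟩
  · obtain ⟨Y, i, j, e, e', hY, s1, s2, s3, s4, s5⟩ :=
      cbt_same hUl hRl hU.dr ha ha' hb hb' hAg hDm hc hc3 hδ hD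
    rw [← hul] at s5
    rcases hY with rfl | rfl
    · exact ⟨Y, u, v, i, j, e, e', hRl.ge, tR, hdet, hRw, huw, hvw, by rw [hul, hvl], s1, s2, s3, s4, s5⟩
    · exact ⟨Y, u, v, i, j, e, e', by omega, tU, hdet, hUw, huw, hvw, by rw [hul, hvl], s1, s2, s3, s4, s5⟩
  · obtain ⟨i, j, e, e', s1, s2, s3, s4, s5⟩ := mixed A B U V d1 d2 hDdef hU.tk hU.dr hV.tk hV.dr ha ha' hb hb'
    rw [← hul] at s5
    exact ⟨R, u, v, i, j, e, e', hRl.ge, tR, hdet, hRw, huw, hvw, by rw [hul, hvl], s1, s2, s3, s4, s5⟩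
  · obtain ⟨i, j, e, e', s1, s2, s3, s4, s5⟩ := mixed B A V U d1 d2 (by omega) hV.tk hV.dr hU.tk hU.dr ha ha' hb hb'
    rw [← hul] at s5
    exact ⟨R, u, v, i, j, e, e', hRl.ge, tR, hdet, hRw, huw, hvw, by rw [hul, hvl], s1, s2, s3, s4, s5⟩
  · obtain ⟨Y, i, j, e, e', hY, s1, s2, s3, s4, s5⟩ :=
      cbt_same hVl hRl hV.dr ha ha' hb hb' hBg hDm hc hc3 hδ hD
    rw [← hul] at s5
    rcases hY with rfl | rfl
    · exact ⟨Y, u, v, i, j, e, e', hRl.ge, tR, hdet, hRw, huw, hvw, by rw [hul, hvl], s1, s2, s3, s4, s5⟩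
    · exact ⟨Y, u, v, i, j, e, e', by omega, tV, hdet, hVw, huw, hvw, by rw [hul, hvl], s1, s2, s3, s4, s5⟩

end Pool.Agent.H1.DC
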