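import Mathlib
import Pool.Agent.H1.DC.CbT

set_option autoImplicit false

/-!
# Module CbS: the same for one sequence read once

Both positions are the same: only the case `both in U with the same distance` of module CbT occurs, and the condition on the defect is
`(7 + 2c - c²) D + 2 (1 + c) t + 6 δ m ≤ (1 - c)² m`, for every `0 ≤ c < 1`.
-/

namespace Pool.Agent.H1.DC

open Filter Pool.Agent.H2.MC Pool.Agent.H54.TM Matrix

/-- forward with `R` or backward with the whole return word -/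
private lemma cbs_one {z : ℕ → ℕ} {m g D : ℕ} {R X : List ℕ} (hl : X.length = g + m) (hRl : R.length = m)
    (hd : X.drop g = R) {e0 : ℕ} (h0 : e0 ≤ g)
    (hz : win z 0 (e0 + m) = X.drop (g - e0)) (hg : g ≤ m + D)
    (hDm : D ≤ m) {t c δ : ℝ} (hc : 0 ≤ c) (hc1 : c < 1) (hδ : 0 ≤ δ)
    (hD : (7 + 2 * c - c ^ 2) * D + 2 * (1 + c) * t + 6 * δ * m ≤ (1 - c) ^ 2 * m) :
    ∃ (Y : List ℕ) (i e : ℕ), (Y = R ∨ Y = X) ∧ e ≤ Y.length ∧
      win z i (Y.length - e) = Y.drop e ∧
      t + 2 * i + 2 * e + 3 * (D : ℝ) + c * (t + 2 * i + Y.length - 2 * e + D) + δ * Y.length ≤ Y.length := by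
  have hDm' : (D : ℝ) ≤ m := by exact_mod_cast hDm
  have hg' : (g : ℝ) ≤ m + D := by exact_mod_cast hg
  have hD0 : (0 : ℝ) ≤ D := Nat.cast_nonneg _
  have hm0 : (0 : ℝ) ≤ m := Nat.cast_nonneg _
  have hg0 : (0 : ℝ) ≤ g := Nat.cast_nonneg _
  by_cases hF : (1 + c) * (2 * (e0 : ℝ)) + (1 + c) * t + (3 + c) * D + (c + 3 * δ) * m ≤ m
  · refine ⟨R, e0, 0, Or.inl rfl, Nat.zero_le _, ?_, ?_⟩
    · rw [Nat.sub_zero, List.drop_zero, hRl]
      exact cbt_fw hd h0 hz
    · rw [hRl]
      push_cast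
      have : 0 ≤ δ * m := mul_nonneg hδ hm0
      nlinarith
  · rw [not_le] at hF
    have e2 : X.length - (g - e0) = e0 + m := by omega
    refine ⟨X, 0, g - e0, Or.inr rfl, by omega, ?_, ?_⟩
    · rw [e2]
      exact hz
    · have q0 : ((g - e0 : ℕ) : ℝ) = (g : ℝ) - e0 := by rw [Nat.cast_sub h0]
      rw [hl, q0]
      push_cast
      have k1 := mul_lt_mul_of_pos_left hF (by linarith : 0 < 1 - c)
      have k2 : (1 - c) * (1 + c) * g ≤ (1 - c) * (1 + c) * (m + D) :=
        mul_le_mul_of_nonneg_left hg' (by nlinarith)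
      have k3 : δ * g ≤ δ * (m + D) := mul_le_mul_of_nonneg_left hg' hδ
      have k4 : δ * D ≤ δ * m := mul_le_mul_of_nonneg_left hDm' hδ
      have k5 : 0 ≤ δ * m := mul_nonneg hδ hm0
      by_contra hcon
      rw [not_le] at hcon
      have k9 : (1 - c) * (2 * (g : ℝ) - 2 * e0) > g + m - ((1 + c) * t + (3 + c) * D + (c + 3 * δ) * m) - c * g := by
        nlinarith
      have k10 := mul_lt_mul_of_pos_left k9 (by linarith : 0 < 1 + c)
      nlinarith

theorem cbS {b : ℕ → ℕ} {M : ℕ} (hM : ∀ n, b n ≤ M) (hb0 : ∀ n, 0 < b n) {m c₀ d₀ : ℕ} {R : List ℕ}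
    (h : Lev b m R c₀ d₀) (hbis : Bis b m R) (hlow : m + 1 ≤ (RecB b m).ncard) {z : ℕ → ℕ} (hz : In b (m + 1) z)
    {t c δ : ℝ} (ht : 0 ≤ t) (hc : 0 ≤ c) (hc1 : c < 1) (hδ : 0 ≤ δ)
    (hD : (7 + 2 * c - c ^ 2) * (((RecB b m).ncard : ℝ) + 1 - m) + 2 * (1 + c) * t + 6 * δ * m ≤ (1 - c) ^ 2 * m) :
    ∃ (X u v : List ℕ) (i e : ℕ), m ≤ X.length ∧ cfZ X * (tws u v)ᵀ = tws u v * (cfZ X)ᵀ ∧ (tws u v).det ≠ 0 ∧
      (∃ p, win b p X.length = X) ∧ (∃ p, win b p u.length = u) ∧ (∃ p, win b p v.length = v) ∧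
      v.length = u.length ∧ e ≤ X.length ∧
      win z i (X.length - e) = X.drop e ∧
      t + 2 * i + 2 * e + 3 * (u.length : ℝ) + c * (t + 2 * i + X.length - 2 * e + u.length) + δ * X.length ≤
        X.length := by
  obtain ⟨A, U, hU⟩ := ret_ex hM h h.rc
  obtain ⟨B, V, hV⟩ := ret_ex hM h h.rd
  have hcnt := cnt hM h hU hV hbis
  obtain ⟨D, hDdef⟩ : ∃ D, A + B = m + D := Nat.exists_eq_add_of_le (by omega)
  have hDr : ((RecB b m).ncard : ℝ) + 1 - m = D := by
    have h1 : (((RecB b m).ncard + 1 : ℕ) : ℝ) = ((m + D : ℕ) : ℝ) := by rw [← hcnt, hDdef]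
    push_cast at h1
    linarith
  rw [hDr] at hD
  have hD2 : 2 ≤ D := by omega
  have hD2' : (2 : ℝ) ≤ D := by exact_mod_cast hD2
  have hm0 : (0 : ℝ) ≤ m := Nat.cast_nonneg _
  have hδm : 0 ≤ δ * m := mul_nonneg hδ hm0
  have hct : 0 ≤ (1 + c) * t := by positivity
  have hDm7 : 7 * (D : ℝ) ≤ m := by
    have h1 : 0 ≤ (2 * c - c ^ 2) * D := mul_nonneg (by nlinarith) (by linarith)
    have h2 : (1 - c) ^ 2 * m ≤ 1 * m := mul_le_mul_of_nonneg_right (by nlinarith) hm0
    nlinarith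
  have hDm : D ≤ m := by
    have : (D : ℝ) ≤ m := by linarith
    exact_mod_cast this
  have hUl := cbt_len hU.mem
  have hVl := cbt_len hV.mem
  have hRl : R.length = m := by
    rw [← hU.tk, List.length_take, hUl]
    omega
  have hUe : U.take A ++ R = U := by
    have h1 := List.take_append_drop A U
    rw [hU.dr] at h1
    exact h1
  have hVe : V.take B ++ R = V := by
    have h1 := List.take_append_drop B V
    rw [hV.dr] at h1
    exact h1
  obtain ⟨p, hp1, hp2⟩ := cbt_trans hM h hU hV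
  obtain ⟨p', hp1', hp2'⟩ := cbt_trans hM (cbt_symm h) hV hU
  have hBA : B + A = A + B := Nat.add_comm _ _
  rw [hBA] at hp1'
  have take1 : ∀ q, ∀ x : ℕ, win b q (m + 1) = R ++ [x] → (win b q (A + B)).take m = R := by
    intro q x hx
    rw [win_take b q (by omega : m ≤ A + B)]
    have h1 := congrArg (List.take m) hx
    rw [win_take b q (Nat.le_succ m), List.take_append_of_le_length hRl.ge, List.take_of_length_le hRl.le] at h1
    exact h1
  have w12 : U.take A ++ V.take B = R ++ (win b p (A + B)).drop m := by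
    rw [← hp1]
    have h1 := List.take_append_drop m (win b p (A + B))
    rw [take1 p _ hp2] at h1
    exact h1.symm
  have w21 : V.take B ++ U.take A = R ++ (win b p' (A + B)).drop m := by
    rw [← hp1']
    have h1 := List.take_append_drop m (win b p' (A + B))
    rw [take1 p' _ hp2'] at h1
    exact h1.symm
  have hu : (win b p (A + B)).drop m = win b (p + m) (A + B - m) := win_drop b p (by omega)
  have hv : (win b p' (A + B)).drop m = win b (p' + m) (A + B - m) := win_drop b p' (by omega)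
  have hABm : A + B - m = D := by omega
  rw [hu, hABm] at w12
  rw [hv, hABm] at w21
  have hcomm : U.take A ++ V.take B ≠ V.take B ++ U.take A := by
    rw [← hp1, ← hp1']
    intro hcon
    have h1 := congrArg (List.take (m + 1)) hcon
    rw [win_take b p (by omega), win_take b p' (by omega), hp2, hp2'] at h1
    have h3 : [c₀] = [d₀] := List.append_cancel_left h1
    have h4 : c₀ = d₀ := by simpa using h3
    exact h.cd h4
  have posw : ∀ q n, ∀ x ∈ win b q n, 0 < x := fun q n => win_pos hb0 q n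
  have hpU : ∀ x ∈ U.take A, 0 < x := by
    intro x hx
    exact posw p (A + B) x (by rw [hp1]; exact List.mem_append_left _ hx)
  have hpV : ∀ x ∈ V.take B, 0 < x := by
    intro x hx
    exact posw p (A + B) x (by rw [hp1]; exact List.mem_append_right _ hx)
  have hne : U.take A ≠ [] := by
    intro hcon
    have h1 := congrArg List.length hcon
    rw [List.length_take, hUl, List.length_nil] at h1
    have := hU.pos
    omega
  set u := win b (p + m) D with hudef
  set v := win b (p' + m) D with hvdef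
  have hul : u.length = D := by rw [hudef, win_length]
  have hvl : v.length = D := by rw [hvdef, win_length]
  have tR := tw_R w12 w21
  have tU := tw_1 w12 w21
  have tV := tw_2 w12 w21
  rw [hUe] at tU
  rw [hVe] at tV
  have hdet := tws_det_ne w12 w21 hpU hpV hne hcomm
  have hRw : ∃ q, win b q R.length = R := by
    refine ⟨p, ?_⟩
    rw [hRl]
    have h1 := take1 p _ hp2
    rwa [win_take b p (by omega : m ≤ A + B)] at h1
  have hUw : ∃ q, win b q U.length = U := by
    rw [hUl]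
    exact Filter.Frequently.exists hU.mem
  have hVw : ∃ q, win b q V.length = V := by
    rw [hVl]
    exact Filter.Frequently.exists hV.mem
  have huw : ∃ q, win b q u.length = u := ⟨p + m, by rw [hul]⟩
  have hvw : ∃ q, win b q v.length = v := ⟨p' + m, by rw [hvl]⟩
  have hAg : A ≤ m + D := by omega
  have hBg : B ≤ m + D := by omega
  rcases suf_ex hM h hU hV hz with ⟨d1, ⟨ha, hb⟩ | ⟨ha, hb⟩⟩
  · obtain ⟨Y, i, e, hY, s1, s2, s3⟩ := cbs_one hUl hRl hU.dr ha hb hAg hDm hc hc1 hδ hD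
    rw [← hul] at s3
    rcases hY with rfl | rfl
    · exact ⟨Y, u, v, i, e, hRl.ge, tR, hdet, hRw, huw, hvw, by rw [hul, hvl], s1, s2, s3⟩
    · exact ⟨Y, u, v, i, e, by omega, tU, hdet, hUw, huw, hvw, by rw [hul, hvl], s1, s2, s3⟩
  · obtain ⟨Y, i, e, hY, s1, s2, s3⟩ := cbs_one hVl hRl hV.dr ha hb hBg hDm hc hc1 hδ hD
    rw [← hul] at s3
    rcases hY with rfl | rfl
    · exact ⟨Y, u, v, i, e, hRl.ge, tR, hdet, hRw, huw, hvw, by rw [hul, hvl], s1, s2, s3⟩
    · exact ⟨Y, u, v, i, e, by omega, tV, hdet, hVw, huw, hvw, by rw [hul, hvl], s1, s2, s3⟩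

end Pool.Agent.H1.DC
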