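import Mathlib
import Pool.Agent.H1.DC.Det

set_option autoImplicit false

/-!
# Module Low (100 lines): a short return time just below the scale `m - A`

SETTING: `Lev b m R c d`, `Loops b m A B R U V`, `A < B`, a lower scale `j` with `j + A ≤ m`, `Lev b j R' c' d'`, and the data of `climbD` at `j`: the word `C ++ R'` of length
`n = C.length + j`, the transfer `htr`, `Loops b n A2 B2 (C ++ R') U2 V2`. CLAIM `A2 ≤ B - A`.
PROOF. (1) `R' = R.drop (m - j)`: the suffix of length `j` of `R ++ [c]` and `R ++ [d]` (without the last letter): `R.drop (m-j) ++ [c]` and `R.drop (m-j) ++ [d]` are in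
`RecB b (j+1)` (`Lang.drop_mem` for `R ++ [c] ∈ RecB b ((m-j) + (j+1))`, `List.drop_append_of_le_length`), `c ≠ d`, so by `Lev.uniq` at `j` `R.drop (m-j) = R'`.
(2) In `V` (length `B + m`, `V.take m = R`, `V.drop B = R`) the word `R'` is read at the position `m - j` (suffix of the first `R`) and at the position
`m - j + (B - A)`: `V.drop B = R`, `R` has the period `A` (`R = U.take m = U.drop A`: `R[t] = U[t+A]`, and `U[t+A] = R[t+A]` if `t + A < m`), so
`(R.drop (m-j-A)).take j = R.drop (m-j) = R'` (`m - j - A ≥ 0`: for `t < j`: `R[m-j-A+t] = R[m-j+t]`); and `B + (m-j-A) = m - j + (B-A)`.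
(3) `V ∈ RecB b (B+m)` occurs infinitely often in `b`. Take `T` with `z0 = fun k => b (T + k)`, `In b (j+1) z0` and `In b (n+1) z0` (`in_late` for both), and `i ≥ C.length`
with `win z0 i (B+m) = V`. Then `win z0 (i+(m-j)) j = R'` and `win z0 (i+(m-j)+(B-A)) j = R'` (`win_drop`, `win_take`). With `p = i + (m-j) - C.length`:
`win z0 (p + C.length) j = R'`, so `win z0 p (C.length + j) = C ++ R'` (`htr`), and `win z0 (p+(B-A)) (C.length+j) = C ++ R'` in the same way. As `B - A > 0`, `gap` gives
`A2 ≤ B - A`.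
-/

namespace Pool.Agent.H1.DC

open Filter Pool.Agent.H2.MC

lemma low {b : ℕ → ℕ} {M : ℕ} (hM : ∀ n, b n ≤ M) {m c d A B : ℕ} {R U V : List ℕ} (h : Lev b m R c d)
    (hlo : Loops b m A B R U V) (hAB : A < B) {j c' d' : ℕ} {R' C : List ℕ} (hj : j + A ≤ m)
    (h' : Lev b j R' c' d')
    (htr : ∀ z, In b (j + 1) z → ∀ i, win z (i + C.length) j = R' → win z i (C.length + j) = C ++ R')
    {A2 B2 : ℕ} {U2 V2 : List ℕ} (hlo2 : Loops b (C.length + j) A2 B2 (C ++ R') U2 V2) : A2 ≤ B - A := by
  have hF : Lang (RecB b) := lang_RecB hM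
  have hRl : R.length = m := by
    have h1 := RecB_length h.rc
    rw [List.length_append, List.length_singleton] at h1
    omega
  have hjm : j ≤ m := by omega
  -- (1)
  have hsuf : ∀ e, R ++ [e] ∈ RecB b (m + 1) → R.drop (m - j) ++ [e] ∈ RecB b (j + 1) := by
    intro e he
    have h1 : R ++ [e] ∈ RecB b ((m - j) + (j + 1)) := by
      have h2 : (m - j) + (j + 1) = m + 1 := by omega
      rw [h2]
      exact he
    have h3 := hF.drop_mem h1
    rwa [List.drop_append_of_le_length (by omega)] at h3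
  have hR' : R.drop (m - j) = R' := by
    by_contra hne
    exact h.cd (h'.uniq _ c d hne (hsuf c h.rc) (hsuf d h.rd))
  -- (2) the word `U`
  obtain ⟨iu, hiu⟩ := hlo.hU.exists
  have hu1 : win b iu m = R := by
    rw [← hlo.U1, ← hiu, win_take b iu (by omega)]
  have hu2 : win b (iu + A) m = R := by
    rw [← hlo.U2, ← hiu, win_drop b iu (by omega)]
    have h1 : A + m - A = m := by omega
    rw [h1]
  have hper := (win_eq_iff b b iu (iu + A) m).mp (hu1.trans hu2.symm)
  -- (3) a late occurrence of `V`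
  obtain ⟨T1, hT1⟩ := in_late hM (j + 1)
  obtain ⟨T2, hT2⟩ := in_late hM (C.length + j + 1)
  have hz1 := hT1 (max T1 T2) (le_max_left _ _)
  have hz2 := hT2 (max T1 T2) (le_max_right _ _)
  obtain ⟨i0, hi0, hV0⟩ := (frequently_atTop.mp hlo.hV) (max T1 T2 + C.length)
  obtain ⟨T, hT⟩ : ∃ T, T = max T1 T2 := ⟨_, rfl⟩
  rw [← hT] at hz1 hz2 hi0
  obtain ⟨i, rfl⟩ : ∃ i, i0 = T + i := ⟨i0 - T, by omega⟩
  have hiC : C.length ≤ i := by omega
  obtain ⟨z, hz⟩ : ∃ z : ℕ → ℕ, z = fun k => b (T + k) := ⟨_, rfl⟩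
  rw [← hz] at hz1 hz2
  have hV : win z i (B + m) = V := by
    rw [hz, win_sh]
    exact hV0
  have hv1 : win z i m = R := by
    rw [← hlo.V1, ← hV, win_take z i (by omega)]
  have hv2 : win z (i + B) m = R := by
    rw [← hlo.V2, ← hV, win_drop z i (by omega)]
    have h1 : B + m - B = m := by omega
    rw [h1]
  have hw1 : win z (i + (m - j)) j = R' := by
    have h1 : (win z i m).drop (m - j) = win z (i + (m - j)) (m - (m - j)) :=
      win_drop z i (by omega)
    have h2 : m - (m - j) = j := by omega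
    rw [h2, hv1, hR'] at h1
    exact h1.symm
  have e1 := (win_eq_iff z b (i + B) iu m).mp (hv2.trans hu1.symm)
  have e2 := (win_eq_iff z b i iu m).mp (hv1.trans hu1.symm)
  have hw2 : win z (i + (m - j) + (B - A)) j = R' := by
    rw [← hw1, win_eq_iff]
    intro t ht
    have h1 : i + (m - j) + (B - A) + t = i + B + (m - j - A + t) := by omega
    have h2 : i + (m - j) + t = i + (m - j + t) := by omega
    have h3 : iu + A + (m - j - A + t) = iu + (m - j + t) := by omega
    rw [h1, h2, e1 _ (by omega), e2 _ (by omega), hper _ (by omega), h3]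
  obtain ⟨p, hp⟩ : ∃ p, p + C.length = i + (m - j) := ⟨i + (m - j) - C.length, by omega⟩
  have hp1 : win z p (C.length + j) = C ++ R' := by
    refine htr z hz1 p ?_
    rw [hp]
    exact hw1
  have hp2 : win z (p + (B - A)) (C.length + j) = C ++ R' := by
    refine htr z hz1 (p + (B - A)) ?_
    have h1 : p + (B - A) + C.length = i + (m - j) + (B - A) := by omega
    rw [h1]
    exact hw2
  have hg := hlo2.gap z hz2 p (p + (B - A)) (by omega) hp1 hp2
  omega

end Pool.Agent.H1.DC
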