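import Mathlib
import Pool.Agent.H1.DC.Cnt

set_option autoImplicit false

/-!
# Module Lps (60 lines): the two return words at a bispecial scale

`ret_ex` for `c` and `d` gives `A, U` and `B, V`. If `A ≤ B` take `(A, B, U, V)`, otherwise `(B, A, V, U)` (`Lev b m R d c` holds as well, by symmetry).
`cnt`, `suf` (`suf_ex`), `gap` (`gap_ex`; `A ≤ B`). `lt`: suppose `A ≤ m` and `A = B`. `U` and `V` have the length `A + m`, `U.take m = R = V.take m` and `U.drop A = R = V.drop A`; as
`A ≤ m`, every index is `< m` or `≥ A`, so `U = V` (`List.ext_getElem`; or `U = U.take m ++ U.drop m`, `U.drop m = (U.drop A).drop (m - A)`). But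
`U.take (m+1) = R ++ [c]`, `V.take (m+1) = R ++ [d]` (`t1`), contradiction.
-/

namespace Pool.Agent.H1.DC

open Filter Pool.Agent.H2.MC

private lemma lps_len {b : ℕ → ℕ} {n : ℕ} {w : List ℕ} (h : w ∈ RecB b n) : w.length = n := by
  obtain ⟨i, hi⟩ := Filter.Frequently.exists h
  rw [← hi, win, List.length_map, List.length_range]

private lemma lps_symm {b : ℕ → ℕ} {m c d : ℕ} {R : List ℕ} (h : Lev b m R c d) : Lev b m R d c :=
  ⟨h.cd.symm, h.rd, h.rc, h.uniq, fun e he => (h.two e he).symm, h.card⟩

private lemma lps_main {b : ℕ → ℕ} {M : ℕ} (hM : ∀ n, b n ≤ M) {m c d A B : ℕ} {R U V : List ℕ}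
    (h : Lev b m R c d) (hbis : Bis b m R) (hU : Ret b m R c A U) (hV : Ret b m R d B V) (hAB : A ≤ B) :
    Loops b m A B R U V := by
  refine ⟨hU.pos, hAB, ?_, hU.mem, hV.mem, hU.tk, hU.dr, hV.tk, hV.dr, cnt hM h hU hV hbis,
    fun z hz => suf_ex hM h hU hV hz, fun z hz i i' hi h1 h2 => ?_⟩
  · intro hAm
    rcases hAB.lt_or_eq with hlt | heq
    · exact hlt
    · exfalso
      subst heq
      have hUl := lps_len hU.mem
      have hVl := lps_len hV.mem
      have hUV : U = V := by
        apply List.ext_getElem (by rw [hUl, hVl])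
        intro i h1 h2
        by_cases hi : i < m
        · have e1 : (U.take m)[i]'(by rw [List.length_take]; omega) = U[i] := by
            rw [List.getElem_take]
          have e2 : (V.take m)[i]'(by rw [List.length_take]; omega) = V[i] := by
            rw [List.getElem_take]
          rw [← e1, ← e2]
          congr 1
          rw [hU.tk, hV.tk]
        · have e1 : (U.drop A)[i - A]'(by rw [List.length_drop]; omega) = U[i] := by
            rw [List.getElem_drop]
            congr 1
            omega
          have e2 : (V.drop A)[i - A]'(by rw [List.length_drop]; omega) = V[i] := by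
            rw [List.getElem_drop]
            congr 1
            omega
          rw [← e1, ← e2]
          congr 1
          rw [hU.dr, hV.dr]
      have h3 := hU.t1
      rw [hUV, hV.t1] at h3
      have h4 : [d] = [c] := List.append_cancel_left h3
      have h5 : d = c := by simpa using h4
      exact h.cd h5.symm
  · rcases gap_ex h hU hV hz hi h1 h2 with h3 | h3
    · exact h3
    · exact hAB.trans h3

lemma loops {b : ℕ → ℕ} {M : ℕ} (hM : ∀ n, b n ≤ M) {m c d : ℕ} {R : List ℕ} (h : Lev b m R c d) (hbis : Bis b m R) :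
    ∃ (A B : ℕ) (U V : List ℕ), Loops b m A B R U V := by
  obtain ⟨A, U, hU⟩ := ret_ex hM h h.rc
  obtain ⟨B, V, hV⟩ := ret_ex hM h h.rd
  rcases le_total A B with hAB | hAB
  · exact ⟨A, B, U, V, lps_main hM h hbis hU hV hAB⟩
  · exact ⟨B, A, V, U, lps_main hM (lps_symm h) hbis hV hU hAB⟩

end Pool.Agent.H1.DC
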