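import Mathlib
import Pool.Agent.H1.DC.LanD

set_option autoImplicit false

/-!
# Module Opt (110 lines): the two types in terms of periodic sequences

`per_list`: a list `X` of length `A + m`, `A > 0`, with `X.take m = X.drop A` is `win e 0 (A+m)` for the `A`-periodic sequence `e n = X.getD (n % A) 0`:
`X[t+A] = X[t]` for `t < m` (compare the elements of the two lists), so `X[t] = X[t % A]` for `t < A + m` by strong induction on `t`.
`opt`: `eA, eB` from `per_list` for `U`, `V` (`U.take m = R = U.drop A`; lengths from `hU, hV` and `RecB_length`). Let `In b (m+1) z`, `d` from `suf`.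
FIRST CASE `d ≤ A`, `win z 0 (d+m) = U.drop (A-d) = (win eA 0 (A+m)).drop (A-d) = win eA (A-d) (d+m)` (`win_drop`, `A + m - (A-d) = d + m`).
SECOND CASE `d ≤ B`: in the same way `win z 0 (d+m) = win eB (B-d) (d+m)`. Take the first `d + m - B` letters (natural subtraction; `≤ d + m`): `win z 0 (d+m-B) =
win eB (B-d) (d+m-B)`, and for `t < d+m-B` the index `B-d+t < m`, where `eB (B-d+t) = V[B-d+t] = R[B-d+t] = U[B-d+t] = eA (B-d+t)`:
(`win eA 0 m = U.take m = R = V.take m = win eB 0 m`; `win_eq_iff`.) Last: `win z d m = (win z 0 (d+m)).drop d = (V.drop (B-d)).drop d = V.drop B = R = win eA 0 m`.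
-/

namespace Pool.Agent.H1.DC

open Filter Pool.Agent.H2.MC

lemma per_list {X : List ℕ} {A m : ℕ} (hA : 0 < A) (hl : X.length = A + m) (h : X.take m = X.drop A) :
    ∃ e : ℕ → ℕ, (∀ n, e (n + A) = e n) ∧ X = win e 0 (A + m) := by
  sorry

lemma opt {b : ℕ → ℕ} {m A B : ℕ} {R U V : List ℕ} (h : Loops b m A B R U V) :
    ∃ eA eB : ℕ → ℕ, (∀ n, eA (n + A) = eA n) ∧ (∀ n, eB (n + B) = eB n) ∧
      ∀ z, In b (m + 1) z → ∃ d, Typ eA eB m A B z d := by
  sorry

end Pool.Agent.H1.DC
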