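import Mathlib
import Pool.Agent.H1.DC.LanD

set_option autoImplicit false

/-!
# Module SL (150 lines): one scale, six dual runs

All inequalities between natural numbers are cast to `ℝ`. Helper: `DR.shrink`: a dual run of length `L` is one of length `L' ≤ L` (`win_take`).
`E2`: `2t + 3A + B + 2μ ≤ 2m`. `E3`: (a) `4t + 3A + 4B + 4μ ≤ 4m` or (b) `4t + 6A + 3B + 4μ ≤ 4m`. In particular `t + (3/2) A + μ ≤ m` (C1).
CASE 1: `z` and `z'` both of the first type, with `d, d'`. Dual run `(0, 0, A, m)`: `win z 0 m = win eA (A-d) m`, `win z' 0 m = win eA (A-d') m` (prefixes). Cost (C1).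
CASE 2: `z` of the first, `z'` of the second type (and the symmetric case; `DR` with the two sequences exchanged is again a dual run, `DR.symm`).
 If `t + (3/2) A + μ ≤ d' + m - B`: run `(0, 0, A, d'+m-B)` (`d' + m - B ≤ d + m` as `d' ≤ B`; prefix of `win z 0 (d+m)`; third item of the second type).
 Otherwise `d' < t + (3/2) A + μ - m + B` and the run `(0, d', A, m)` (`win z' d' m = win eA 0 m`) costs `t + d' + (3/2) A + μ < 2t + 3A + 2μ - m + B ≤ m` (E2).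
CASE 3: both of the second type; let `d' ≤ d` (or the symmetric case). `s := min` …
 O3: if `t + (3/2) B + μ ≤ d' + m`: run `(0, 0, B, min (d'+m) (2m))`; also `t + (3/2) B + μ ≤ 2m` by E3: (a) `B ≤ m - t - μ`, (b) `B ≤ (4/3)(m - t - μ) - 2A`.
 O4: if `t + (3/2) A + μ ≤ d' + m - B`: run `(0, 0, A, d'+m-B)`.
 Otherwise `d' < t + (3/2) B + μ - m` and `d' < t + (3/2) A + μ - m + B`, so `t + d' + (3/2) A + μ ≤ m` as in case 2.
 O5: if `t + d' + (3/2) A + μ ≤ d + m - B`: run `(0, d', A, min (d+m-B) m)` = `(0, d', A, d+m-B)` as `d ≤ B`.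
 Otherwise `d < t + d' + (3/2) A + μ - m + B`.
 O6: run `(d, d', A, m)`: `t + d + d' + (3/2) A + μ < 2t + 2d' + 3A + 2μ - m + B`, and this is `≤ m`: (a) with `2d' < 2t + 3B + 2μ - 2m`: `4t + 3A + 4B + 4μ - 3m ≤ m`;
 (b) with `2d' < 2t + 3A + 2μ - 2m + 2B`: `4t + 6A + 3B + 4μ - 3m ≤ m`.
In every case `A ≤ L` (or `B ≤ L`) because `(3/2) p ≤ L`, and `L ≤ 2m`. Natural subtractions `d' + m - B`: if the real number `d' + m - B ≥ t + (3/2) A + μ > 0` then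
`B < d' + m` and `((d' + m - B : ℕ) : ℝ) = d' + m - B`.
-/

namespace Pool.Agent.H1.DC

open Filter Pool.Agent.H2.MC

lemma DR.symm' {b a : ℕ → ℕ} {i j p L : ℕ} (h : DR b a i j p L) : DR a b j i p L := by
  obtain ⟨e, s, t, he, h1, h2⟩ := h
  exact ⟨e, t, s, he, h2, h1⟩

private lemma SL_win {b b' : ℕ → ℕ} {i i' n n' : ℕ} (h : win b i n = win b' i' n) (hn : n' ≤ n) :
    win b i n' = win b' i' n' := by
  rw [win_eq_iff] at h ⊢
  exact fun t ht => h t (lt_of_lt_of_le ht hn)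

lemma DR.shrink {b a : ℕ → ℕ} {i j p L L' : ℕ} (hL : L' ≤ L) (h : DR b a i j p L) : DR b a i j p L' := by
  obtain ⟨e, s, t, he, h1, h2⟩ := h
  exact ⟨e, s, t, he, SL_win h1 hL, SL_win h2 hL⟩

/-- The conclusion. -/
private def SLgoal (z z' : ℕ → ℕ) (m : ℕ) (t μ : ℝ) : Prop :=
  ∃ i j p L : ℕ, 0 < p ∧ p ≤ L ∧ L ≤ 2 * m ∧ DR z z' i j p L ∧ t + i + j + 3 / 2 * p + μ ≤ L

private lemma SLgoal.symm {z z' : ℕ → ℕ} {m : ℕ} {t μ : ℝ} (h : SLgoal z' z m t μ) :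
    SLgoal z z' m t μ := by
  obtain ⟨i, j, p, L, h1, h2, h3, h4, h5⟩ := h
  exact ⟨j, i, p, L, h1, h2, h3, h4.symm', by linarith⟩

private lemma SL_fin {z z' : ℕ → ℕ} {m : ℕ} {t μ : ℝ} (ht : 0 ≤ t) (hμ : 0 ≤ μ) (i j p L : ℕ)
    (hp : 0 < p) (hL : L ≤ 2 * m) (hD : DR z z' i j p L)
    (hc : t + i + j + 3 / 2 * p + μ ≤ L) : SLgoal z z' m t μ := by
  refine ⟨i, j, p, L, hp, ?_, hL, hD, hc⟩
  have h1 : (p : ℝ) ≤ L := by
    have hi : (0 : ℝ) ≤ i := Nat.cast_nonneg i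
    have hj : (0 : ℝ) ≤ j := Nat.cast_nonneg j
    have hp' : (0 : ℝ) ≤ p := Nat.cast_nonneg p
    linarith
  exact_mod_cast h1

/-- Subtraction of natural numbers. -/
private lemma SL_sub {d m B : ℕ} {x : ℝ} (hx : 0 ≤ x) (h : x ≤ (d : ℝ) + m - B) :
    ((d + m - B : ℕ) : ℝ) = (d : ℝ) + m - B := by
  have h1 : (B : ℝ) ≤ ((d + m : ℕ) : ℝ) := by push_cast; linarith
  have h2 : B ≤ d + m := by exact_mod_cast h1
  rw [Nat.cast_sub h2]
  push_cast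
  ring

/-- Case 1: both of the first type. -/
private lemma SL_case1 {eA : ℕ → ℕ} {m A B : ℕ} (hA : 0 < A) (hA1 : ∀ n, eA (n + A) = eA n)
    {t μ : ℝ} (ht : 0 ≤ t) (hμ : 0 ≤ μ) (E2 : 2 * t + 3 * A + B + 2 * μ ≤ 2 * m)
    {z z' : ℕ → ℕ} {d d' : ℕ}
    (hz : win z 0 (d + m) = win eA (A - d) (d + m))
    (hz' : win z' 0 (d' + m) = win eA (A - d') (d' + m)) : SLgoal z z' m t μ := by
  have hB : (0 : ℝ) ≤ B := Nat.cast_nonneg B
  refine SL_fin ht hμ 0 0 A m hA (by omega)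
    ⟨eA, A - d, A - d', hA1, SL_win hz (by omega), SL_win hz' (by omega)⟩ ?_
  push_cast
  linarith

/-- Case 2: `z` of the first, `z'` of the second type. -/
private lemma SL_case2 {eA : ℕ → ℕ} {m A B : ℕ} (hA : 0 < A)
    (hA1 : ∀ n, eA (n + A) = eA n)
    {t μ : ℝ} (ht : 0 ≤ t) (hμ : 0 ≤ μ) (E2 : 2 * t + 3 * A + B + 2 * μ ≤ 2 * m)
    {z z' : ℕ → ℕ} {d d' : ℕ}
    (hz : win z 0 (d + m) = win eA (A - d) (d + m)) (hd' : d' ≤ B)
    (h1 : win z' 0 (d' + m - B) = win eA (B - d') (d' + m - B))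
    (h2 : win z' d' m = win eA 0 m) : SLgoal z z' m t μ := by
  have hA0 : (0 : ℝ) ≤ A := Nat.cast_nonneg A
  by_cases hc : t + 3 / 2 * A + μ ≤ (d' : ℝ) + m - B
  · have h3 := SL_sub (by positivity) hc
    refine SL_fin ht hμ 0 0 A (d' + m - B) hA (by omega)
      ⟨eA, A - d, B - d', hA1, SL_win hz (by omega), h1⟩ ?_
    rw [h3]
    push_cast
    linarith
  · refine SL_fin ht hμ 0 d' A m hA (by omega) ⟨eA, A - d, 0, hA1, SL_win hz (by omega), h2⟩ ?_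
    push_cast
    linarith

/-- Case 3: both of the second type, `d' ≤ d`. -/
private lemma SL_case3 {eA eB : ℕ → ℕ} {m A B : ℕ} (hA : 0 < A) (hB : 0 < B)
    (hA1 : ∀ n, eA (n + A) = eA n) (hB1 : ∀ n, eB (n + B) = eB n)
    {t μ : ℝ} (ht : 0 ≤ t) (hμ : 0 ≤ μ)
    (E3 : 4 * t + 3 * A + 4 * B + 4 * μ ≤ 4 * m ∨ 4 * t + 6 * A + 3 * B + 4 * μ ≤ 4 * m)
    {z z' : ℕ → ℕ} {d d' : ℕ} (hdd : d' ≤ d) (hd : d ≤ B)
    (h0 : win z 0 (d + m) = win eB (B - d) (d + m))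
    (h1 : win z 0 (d + m - B) = win eA (B - d) (d + m - B))
    (h2 : win z d m = win eA 0 m)
    (k0 : win z' 0 (d' + m) = win eB (B - d') (d' + m))
    (k1 : win z' 0 (d' + m - B) = win eA (B - d') (d' + m - B))
    (k2 : win z' d' m = win eA 0 m) : SLgoal z z' m t μ := by
  have hA0 : (0 : ℝ) ≤ A := Nat.cast_nonneg A
  have hB0 : (0 : ℝ) ≤ B := Nat.cast_nonneg B
  have hm0 : (0 : ℝ) ≤ m := Nat.cast_nonneg m
  have hd0 : (0 : ℝ) ≤ d' := Nat.cast_nonneg d'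
  by_cases c3 : t + 3 / 2 * B + μ ≤ (d' : ℝ) + m
  · refine SL_fin ht hμ 0 0 B (min (d' + m) (2 * m)) hB (min_le_right _ _)
      ⟨eB, B - d, B - d', hB1, SL_win h0 ((min_le_left _ _).trans (by omega)),
        SL_win k0 (min_le_left _ _)⟩ ?_
    rw [Nat.cast_min]
    push_cast
    refine le_min (by linarith) ?_
    rcases E3 with E | E
    · linarith
    · linarith
  by_cases c4 : t + 3 / 2 * A + μ ≤ (d' : ℝ) + m - B
  · have h3 := SL_sub (by positivity) c4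
    refine SL_fin ht hμ 0 0 A (d' + m - B) hA (by omega)
      ⟨eA, B - d, B - d', hA1, SL_win h1 (by omega), k1⟩ ?_
    rw [h3]
    push_cast
    linarith
  by_cases c5 : t + d' + 3 / 2 * A + μ ≤ (d : ℝ) + m - B
  · have h3 := SL_sub (by positivity) c5
    refine SL_fin ht hμ 0 d' A (d + m - B) hA (by omega)
      ⟨eA, B - d, 0, hA1, h1, SL_win k2 (by omega)⟩ ?_
    rw [h3]
    push_cast
    linarith
  · refine SL_fin ht hμ d d' A m hA (by omega) ⟨eA, 0, 0, hA1, h2, k2⟩ ?_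
    rcases E3 with E | E
    · linarith
    · linarith

lemma first_level {eA eB : ℕ → ℕ} {m A B : ℕ} (hA : 0 < A) (hAB : A ≤ B) (hA1 : ∀ n, eA (n + A) = eA n)
    (hB1 : ∀ n, eB (n + B) = eB n) {t μ : ℝ} (ht : 0 ≤ t) (hμ : 0 ≤ μ)
    (E2 : 2 * t + 3 * A + B + 2 * μ ≤ 2 * m)
    (E3 : 4 * t + 3 * A + 4 * B + 4 * μ ≤ 4 * m ∨ 4 * t + 6 * A + 3 * B + 4 * μ ≤ 4 * m)
    {z z' : ℕ → ℕ} {d d' : ℕ} (hz : Typ eA eB m A B z d) (hz' : Typ eA eB m A B z' d') :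
    ∃ i j p L : ℕ, 0 < p ∧ p ≤ L ∧ L ≤ 2 * m ∧ DR z z' i j p L ∧
      t + i + j + 3 / 2 * p + μ ≤ L := by
  show SLgoal z z' m t μ
  rcases hz with ⟨hd, h0⟩ | ⟨hd, h0, h1, h2⟩
  · rcases hz' with ⟨hd', k0⟩ | ⟨hd', k0, k1, k2⟩
    · exact SL_case1 hA hA1 ht hμ E2 h0 k0
    · exact SL_case2 hA hA1 ht hμ E2 h0 hd' k1 k2
  · rcases hz' with ⟨hd', k0⟩ | ⟨hd', k0, k1, k2⟩
    · exact (SL_case2 hA hA1 ht hμ E2 k0 hd h1 h2).symm
    · rcases le_total d' d with hdd | hdd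
      · exact SL_case3 hA (hA.trans_le hAB) hA1 hB1 ht hμ E3 hdd hd h0 h1 h2 k0 k1 k2
      · exact (SL_case3 hA (hA.trans_le hAB) hA1 hB1 ht hμ E3 hdd hd' k0 k1 k2 h0 h1 h2).symm

end Pool.Agent.H1.DC
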