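import Mathlib

set_option autoImplicit false

/-!
# Module Scl (50 lines, Mathlib only): a slope one scale below a given bound

`f : ℕ → ℕ` grows by at least one at each step. If there is no `j ≤ n1` with `f (j+1) ≤ f j + 1` then `f (n1+1) ≥ f 0 + 2 (n1+1) ≥ 2 n1 + 3` and
`f m ≥ f (n1+1) + (m - n1 - 1) ≥ m + n1 + 2`, contradiction to `h2`. Let `j` be the largest `j ≤ n1` with `f (j+1) ≤ f j + 1` (`Nat.findGreatest`, or induction downwards).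
Then `f (n1+1) ≥ f (j+1) + 2 (n1 - j) ≥ f j + 1 + 2 (n1 - j)` and `f m ≥ f (n1+1) + (m - n1 - 1) ≥ f j + (m - j) + (n1 - j)`.
-/

namespace Pool.Agent.H1.DC

lemma scale {f : ℕ → ℕ} (hf : ∀ n, f n + 1 ≤ f (n + 1)) (h0 : 1 ≤ f 0) {m n1 : ℕ} (h1 : n1 < m)
    (h2 : f m < m + n1 + 2) : ∃ j ≤ n1, f (j + 1) ≤ f j + 1 ∧ f j + (m - j) + (n1 - j) ≤ f m := by
  sorry

end Pool.Agent.H1.DC
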