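import Mathlib
import Pool.Agent.H1.DC.LanD

set_option autoImplicit false

/-!
# Module TraD (130 lines): transient words

Write `T n = TrD b a n`. THE INJECTION `f : T n → T (n+1)`: for `w ∈ T n` choose an occurrence in `b` (`win b i n = w`) and put
`f w = win b i (n+1)`, or if there is none an occurrence in `a`, `f w = win a j (n+1)`. In both cases `w` is the prefix of length `n` of
`f w` (`win_succ`, `append_singleton_inj`), `f w` occurs, and `f w ∉ RecD (n+1)` because `RecD` is closed under prefixes (`lang_RecD`, `.pre`).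
`f` is injective (compare prefixes). So `trD_mono` (`T n` is finite: `occD_finite`; `Set.ncard_le_ncard_of_injOn`).

If `ncard T (n+1) ≤ ncard T n` then `f` is onto `T (n+1)` (`Set.surj_on_of_inj_on_of_ncard_le` or `Set.eq_of_subset_of_ncard_le` for the image).
(K1) if `w = win z i n ∈ T n` (`z = b` or `a`) then `win z i (n+1) ∈ T (n+1)` (it occurs; its prefix is not in `RecD`) so it is `f w'`, and
     comparing prefixes `w' = w`: `win z i (n+1) = f (win z i n)`. So equal words of `T n` are followed by the same letter.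
(K2) if `win z i n ∈ RecD n` then `win z i (n+1) ∈ RecD (n+1)`: otherwise it is in `T (n+1)`, `= f w'` with `w' ∈ T n`, and the prefix is
     `w' = win z i n ∈ RecD n`, contradiction.
`transD_one` (for `z = b`): let `i0` be the least `i` with `win b i n ∈ RecD n` (exists by `ev_RecD`). By (K2) `win b i0 (n+1) ∈ RecD (n+1)`, its
suffix `win b (i0+1) n ∈ RecD n` (`.suf`), and so on: by induction `win b i (n+1) ∈ RecD (n+1)` for `i ≥ i0`. For `i < i0`
`win b i n ∈ T n`, pairwise different: if `win b i n = win b i' n`, `i < i' < i0`, then by (K1) and induction `win b (i+t) n = win b (i'+t) n`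
for `t ≤ i0 - i'` (as long as `i' + t ≤ i0`, the words before are in `T n`); at `t = i0 - i'` the right side is in `RecD`, the left side
(`i + t < i0`) is not. So `i0 ≤ ncard (T n)`. The same for `a` (write one private lemma for a sequence `z` with
`∀ i m, win z i m ∈ OccD b a m` and eventual recurrence).
-/

namespace Pool.Agent.H1.DC

open Filter Pool.Agent.H2.MC

private lemma TraD_pre {z z' : ℕ → ℕ} {i i' n : ℕ} (h : win z i (n + 1) = win z' i' (n + 1)) :
    win z i n = win z' i' n := by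
  rw [win_succ, win_succ] at h
  exact (append_singleton_inj.mp h).1

private lemma TraD_suf {z z' : ℕ → ℕ} {i i' n : ℕ} (h : win z i (n + 1) = win z' i' (n + 1)) :
    win z (i + 1) n = win z' (i' + 1) n := by
  rw [win_succ', win_succ'] at h
  exact (List.cons.inj h).2

private lemma TraD_occ {b a z : ℕ → ℕ} (hz : z = b ∨ z = a) (i n : ℕ) : win z i n ∈ OccD b a n := by
  rcases hz with rfl | rfl
  · exact Or.inl ⟨i, rfl⟩
  · exact Or.inr ⟨i, rfl⟩

private lemma TraD_tr {b a z : ℕ → ℕ} {M : ℕ} (h : Bd b a M) (hz : z = b ∨ z = a) {n i : ℕ}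
    (hw : win z i n ∉ RecD b a n) : win z i (n + 1) ∈ TrD b a (n + 1) := by
  refine ⟨TraD_occ hz i (n + 1), fun hr => hw ?_⟩
  rw [win_succ] at hr
  exact (lang_RecD h).pre _ _ _ hr

private lemma TraD_fin {b a : ℕ → ℕ} {M : ℕ} (h : Bd b a M) (n : ℕ) : (TrD b a n).Finite :=
  (occD_finite h n).subset Set.sdiff_subset

private lemma TraD_ex {b a : ℕ → ℕ} {M : ℕ} (h : Bd b a M) (n : ℕ) : ∃ f : List ℕ → List ℕ,
    (∀ w ∈ TrD b a n, f w ∈ TrD b a (n + 1)) ∧
      ∀ w ∈ TrD b a n, ∃ (z : ℕ → ℕ) (i : ℕ), win z i n = w ∧ f w = win z i (n + 1) := by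
  have hex : ∀ w : List ℕ, ∃ v : List ℕ, w ∈ TrD b a n →
      ∃ (z : ℕ → ℕ) (i : ℕ), (z = b ∨ z = a) ∧ win z i n = w ∧ v = win z i (n + 1) := by
    intro w
    by_cases hw : w ∈ TrD b a n
    · rcases hw.1 with ⟨i, hi⟩ | ⟨i, hi⟩
      · exact ⟨win b i (n + 1), fun _ => ⟨b, i, Or.inl rfl, hi, rfl⟩⟩
      · exact ⟨win a i (n + 1), fun _ => ⟨a, i, Or.inr rfl, hi, rfl⟩⟩
    · exact ⟨[], fun h' => absurd h' hw⟩
  choose f hf using hex
  refine ⟨f, fun w hw => ?_, fun w hw => ?_⟩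
  · obtain ⟨z, i, hz, hi, hfi⟩ := hf w hw
    rw [hfi]
    exact TraD_tr h hz (by rw [hi]; exact hw.2)
  · obtain ⟨z, i, hz, hi, hfi⟩ := hf w hw
    exact ⟨z, i, hi, hfi⟩

private lemma TraD_injOn {b a : ℕ → ℕ} {n : ℕ} {f : List ℕ → List ℕ}
    (hf : ∀ w ∈ TrD b a n, ∃ (z : ℕ → ℕ) (i : ℕ), win z i n = w ∧ f w = win z i (n + 1)) :
    Set.InjOn f (TrD b a n) := by
  intro w hw w' hw' he
  obtain ⟨z, i, hi, hfi⟩ := hf w hw
  obtain ⟨z', i', hi', hfi'⟩ := hf w' hw'
  rw [hfi, hfi'] at he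
  rw [← hi, ← hi']
  exact TraD_pre he

lemma trD_mono {b a : ℕ → ℕ} {M : ℕ} (h : Bd b a M) (n : ℕ) : (TrD b a n).ncard ≤ (TrD b a (n + 1)).ncard := by
  obtain ⟨f, hf1, hf2⟩ := TraD_ex h n
  exact Set.ncard_le_ncard_of_injOn f hf1 (TraD_injOn hf2) (TraD_fin h (n + 1))

private lemma TraD_k {b a : ℕ → ℕ} {M : ℕ} (h : Bd b a M) {n : ℕ}
    (hc : (TrD b a (n + 1)).ncard ≤ (TrD b a n).ncard) : ∃ f : List ℕ → List ℕ,
      ∀ z : ℕ → ℕ, (z = b ∨ z = a) → ∀ i,
        (win z i n ∉ RecD b a n → win z i (n + 1) = f (win z i n)) ∧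
        (win z i n ∈ RecD b a n → win z i (n + 1) ∈ RecD b a (n + 1)) := by
  obtain ⟨f, hf1, hf2⟩ := TraD_ex h n
  have hinj := TraD_injOn hf2
  have hsurj : ∀ v ∈ TrD b a (n + 1), ∃ w ∈ TrD b a n, f w = v := by
    have hsub : f '' TrD b a n ⊆ TrD b a (n + 1) := by
      rintro _ ⟨u, hu, rfl⟩
      exact hf1 u hu
    have hs : f '' TrD b a n = TrD b a (n + 1) :=
      Set.eq_of_subset_of_ncard_le hsub (by rw [Set.InjOn.ncard_image hinj]; exact hc)
        (TraD_fin h (n + 1))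
    intro v hv
    rw [← hs] at hv
    obtain ⟨w, hw, he⟩ := hv
    exact ⟨w, hw, he⟩
  have key : ∀ (z : ℕ → ℕ) (i : ℕ), win z i (n + 1) ∈ TrD b a (n + 1) →
      win z i n ∈ TrD b a n ∧ win z i (n + 1) = f (win z i n) := by
    intro z i hv
    obtain ⟨w, hw, he⟩ := hsurj _ hv
    obtain ⟨z', i', hi', hfi'⟩ := hf2 w hw
    rw [he] at hfi'
    have h1 : win z i n = w := (TraD_pre hfi').trans hi'
    rw [h1]
    exact ⟨hw, he.symm⟩
  refine ⟨f, fun z hz i => ⟨fun hi => (key z i (TraD_tr h hz hi)).2, fun hi => ?_⟩⟩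
  by_contra hcon
  exact (key z i ⟨TraD_occ hz i (n + 1), hcon⟩).1.2 hi

private lemma TraD_main {b a : ℕ → ℕ} {M : ℕ} (h : Bd b a M) {n : ℕ}
    (hc : (TrD b a (n + 1)).ncard ≤ (TrD b a n).ncard) (z : ℕ → ℕ) (hz : z = b ∨ z = a)
    (hex : ∃ i, win z i n ∈ RecD b a n) :
    ∃ i0 : ℕ, i0 ≤ (TrD b a n).ncard ∧ ∀ i, i0 ≤ i → win z i (n + 1) ∈ RecD b a (n + 1) := by
  classical
  obtain ⟨f, hf⟩ := TraD_k h hc
  have k1 : ∀ i, win z i n ∉ RecD b a n → win z i (n + 1) = f (win z i n) :=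
    fun i => (hf z hz i).1
  have k2 : ∀ i, win z i n ∈ RecD b a n → win z i (n + 1) ∈ RecD b a (n + 1) :=
    fun i => (hf z hz i).2
  have hge : ∀ t, win z (Nat.find hex + t) n ∈ RecD b a n := by
    intro t
    induction t with
    | zero => exact Nat.find_spec hex
    | succ t ih =>
      have h1 := k2 _ ih
      rw [win_succ'] at h1
      exact (lang_RecD h).suf _ _ _ h1
  have hlt : ∀ i, i < Nat.find hex → win z i n ∉ RecD b a n := fun i hi => Nat.find_min hex hi
  have hne : ∀ i i', i < i' → i' < Nat.find hex → win z i n ≠ win z i' n := by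
    intro i i' h1 h2 he
    have hind : ∀ t, i' + t ≤ Nat.find hex → win z (i + t) n = win z (i' + t) n := by
      intro t
      induction t with
      | zero => intro _; exact he
      | succ t ih =>
        intro h3
        have h4 := ih (by omega)
        have h5 : win z (i' + t) n ∉ RecD b a n := hlt _ (by omega)
        have h6 : win z (i + t) n ∉ RecD b a n := by rw [h4]; exact h5
        have h7 := k1 _ h5
        have h8 := k1 _ h6
        rw [h4, ← h7] at h8
        exact TraD_suf h8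
    have h9 := hind (Nat.find hex - i') (by omega)
    have h10 : i' + (Nat.find hex - i') = Nat.find hex + 0 := by omega
    rw [h10] at h9
    have h11 : win z (i + (Nat.find hex - i')) n ∉ RecD b a n := hlt _ (by omega)
    rw [h9] at h11
    exact h11 (hge 0)
  refine ⟨Nat.find hex, ?_, ?_⟩
  · have hinj : Set.InjOn (fun i => win z i n) (Set.Iio (Nat.find hex)) := by
      intro i hi i' hi' he
      have h1 : i < Nat.find hex := hi
      have h2 : i' < Nat.find hex := hi'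
      rcases lt_trichotomy i i' with h3 | h3 | h3
      · exact absurd he (hne i i' h3 h2)
      · exact h3
      · exact absurd he.symm (hne i' i h3 h1)
    have hA : ((fun i => win z i n) '' (Set.Iio (Nat.find hex))).ncard = Nat.find hex := by
      rw [Set.InjOn.ncard_image hinj, Set.ncard_eq_toFinset_card']
      simp
    rw [← hA]
    refine Set.ncard_le_ncard ?_ (TraD_fin h n)
    rintro w ⟨i, hi, hw⟩
    have h1 : win z i n = w := hw
    rw [← h1]
    exact ⟨TraD_occ hz i n, hlt i hi⟩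
  · intro i hi
    obtain ⟨t, rfl⟩ := Nat.exists_eq_add_of_le hi
    exact k2 _ (hge t)

lemma transD {b a : ℕ → ℕ} {M : ℕ} (h : Bd b a M) (n : ℕ) (hn : (TrD b a (n + 1)).ncard ≤ (TrD b a n).ncard) :
    ∃ i0 j0, i0 ≤ (TrD b a n).ncard ∧ j0 ≤ (TrD b a n).ncard ∧
      (∀ i, i0 ≤ i → win b i (n + 1) ∈ RecD b a (n + 1)) ∧ ∀ j, j0 ≤ j → win a j (n + 1) ∈ RecD b a (n + 1) := by
  obtain ⟨N, hN⟩ := ev_RecD h n
  obtain ⟨i0, hi0, hi1⟩ := TraD_main h hn b (Or.inl rfl) ⟨N, (hN N le_rfl).1⟩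
  obtain ⟨j0, hj0, hj1⟩ := TraD_main h hn a (Or.inr rfl) ⟨N, (hN N le_rfl).2⟩
  exact ⟨i0, j0, hi0, hj0, hi1, hj1⟩

end Pool.Agent.H1.DC
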