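import Mathlib
import Pool.Agent.H1.DC.TraD
import Pool.Agent.H2.MC.CombF

set_option autoImplicit false

/-!
# Module SloD (60 lines): the frequent scales of slope one

Exactly as `freq_slope_w` in H2/MC/CombF.lean (with `w = 2`), for `RecD`, `TrD`: apply `good_scale_real` (same file) to
`W n = ncard (RecD b a n) + 2 ncard (TrD b a n)`; monotone by `Lang.card_mono` (`lang_RecD`) and `trD_mono`. At `m` with `W (m+1) < W m + 2`: `RecD`
grows by at least one (`recD_slope`) and `TrD` does not decrease, so `RecD` grows by exactly one and `TrD` does not grow.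
`recD_low`: `n + 1 ≤ ncard (RecD b a n)` by induction (`recD_slope`, `ncard (RecD b a 0) ≥ 1` as it is finite and contains `[]`,
`lang_RecD .ne`, `.fin`). The same for `RecB b`.
-/

namespace Pool.Agent.H1.DC

open Filter Pool.Agent.H2.MC

lemma freqD {b a : ℕ → ℕ} {M : ℕ} (h : Bd b a M) (hb : ¬ EvPer b) {k : ℝ} (hk : k < 2)
    (hc : ∃ᶠ n : ℕ in atTop, ((RecD b a n).ncard : ℝ) + 2 * (TrD b a n).ncard ≤ k * n) :
    ∃ᶠ m : ℕ in atTop, (RecD b a (m + 1)).ncard ≤ (RecD b a m).ncard + 1 ∧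
      (TrD b a (m + 1)).ncard ≤ (TrD b a m).ncard ∧
      ((RecD b a m).ncard : ℝ) + 2 * (TrD b a m).ncard ≤ k * m + 2 := by
  have hmono : ∀ n, ((RecD b a n).ncard : ℝ) + 2 * (TrD b a n).ncard ≤
      ((RecD b a (n + 1)).ncard : ℝ) + 2 * (TrD b a (n + 1)).ncard := by
    intro n
    have h1 : ((RecD b a n).ncard : ℝ) ≤ ((RecD b a (n + 1)).ncard : ℝ) := by
      exact_mod_cast (lang_RecD h).card_mono n
    have h2 : ((TrD b a n).ncard : ℝ) ≤ ((TrD b a (n + 1)).ncard : ℝ) := by
      exact_mod_cast trD_mono h n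
    linarith
  apply (good_scale_real (W := fun n => ((RecD b a n).ncard : ℝ) + 2 * (TrD b a n).ncard) hmono
    (fun n => by positivity) hk hc).mono
  rintro m ⟨h1, h2⟩
  have h3 : ((RecD b a m).ncard : ℝ) + 1 ≤ ((RecD b a (m + 1)).ncard : ℝ) := by
    exact_mod_cast recD_slope h hb m
  have h4 : ((TrD b a m).ncard : ℝ) ≤ ((TrD b a (m + 1)).ncard : ℝ) := by
    exact_mod_cast trD_mono h m
  refine ⟨?_, ?_, h2⟩
  · by_contra hcon
    have h5 : ((RecD b a m).ncard : ℝ) + 2 ≤ ((RecD b a (m + 1)).ncard : ℝ) := by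
      have : (RecD b a m).ncard + 2 ≤ (RecD b a (m + 1)).ncard := by omega
      exact_mod_cast this
    linarith
  · by_contra hcon
    have h5 : ((TrD b a m).ncard : ℝ) + 1 ≤ ((TrD b a (m + 1)).ncard : ℝ) := by
      have : (TrD b a m).ncard + 1 ≤ (TrD b a (m + 1)).ncard := by omega
      exact_mod_cast this
    linarith

lemma recD_low {b a : ℕ → ℕ} {M : ℕ} (h : Bd b a M) (hb : ¬ EvPer b) (n : ℕ) : n + 1 ≤ (RecD b a n).ncard := by
  induction n with
  | zero =>
    have h1 := (Set.ncard_pos ((lang_RecD h).fin 0)).2 (lang_RecD h).ne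
    omega
  | succ n ih =>
    have h1 := recD_slope h hb n
    omega

lemma recB_low {b : ℕ → ℕ} {M : ℕ} (h : ∀ n, b n ≤ M) (hb : ¬ EvPer b) (n : ℕ) : n + 1 ≤ (RecB b n).ncard := by
  induction n with
  | zero =>
    have h1 := (Set.ncard_pos ((lang_RecB h).fin 0)).2 (lang_RecB h).ne
    omega
  | succ n ih =>
    have h1 := recB_slope h hb n
    omega

end Pool.Agent.H1.DC
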