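import Mathlib
import Pool.Agent.H1.DC.Clm
import Pool.Agent.H1.DC.Lps
import Pool.Agent.H1.DC.Opt
import Pool.Agent.H1.DC.SL
import Pool.Agent.H1.DC.Low
import Pool.Agent.H1.DC.Scl
import Pool.Agent.H1.DC.SloD

set_option autoImplicit false

/-!
# Module Cmb (150 lines): a dual run at every bispecial scale with small defect

NOTATION (real numbers): `f n = ncard (RecB b n)`, `A + B = f m + 1` (`Loops.cnt`), `D = A + B - m = f m + 1 - m ≥ 2` (`recB_low`), `Δ = t + D + μ`, `18 Δ ≤ m`. `A ≤ B`.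
`loops` gives `A, B, U, V`; `opt` gives `eA, eB` and types for `z, z'`.
FIRST CASE `A + 2Δ ≤ B`. E2: `2t + 3A + B + 2μ ≤ 2m = 2A + 2B - 2D` iff `A + 2Δ ≤ B`. E3: if `4Δ ≤ A` then (a): `4t + 3A + 4B + 4μ ≤ 4A + 4B - 4D`. If `A < 4Δ` then (b):
`4t + 6A + 3B + 4μ ≤ 4A + 4B - 4D` iff `4Δ + 2A ≤ B`, and `B = m + D - A > 18Δ - 4Δ = 14Δ > 4Δ + 2A`. Apply `first_level` at the scale `m`.
SECOND CASE `B < A + 2Δ`. `2A ≤ A + B = m + D`, so `A ≤ m` and (`Loops.lt`) `A < B`; `n1 = m - A` (natural), `n1 ≥ (m - D)/2 ≥ 8.5 Δ`, `n1 < m`. `f m = m + D - 1 < m + n1 + 2` as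
`D ≤ Δ ≤ n1`. `scale` (`recB_slope`, `f 0 ≥ 1`: `recB_low`) gives `j ≤ n1` with `f (j+1) ≤ f j + 1` and `f j + (m-j) + (n1-j) ≤ f m`. `lev_of_slope` gives `Lev b j R' c' d'`; `climbD` gives `C`,
`n = C.length + j`, `f n = f j + C.length`. `n ≤ m`: otherwise (`j ≤ m < n`) the last clause of `climbD` at `k = m` says that `R` is not bispecial (`R ++ [c], R ++ [d] ∈ RecB b (m+1)`),
contradiction to `hbis`. `loops` at `n` gives `A2, B2`, `A2 + B2 = f n + 1`, `low` gives `A2 ≤ B - A` (`j + A ≤ n1 + A = m`). In b (n+1) for `z, z'`: `In.sub` from `In b (m+1)`. `opt` at `n`.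
Put `D2 = A2 + B2 - n = f n + 1 - n = f j + 1 - j`. The inequality of `scale` says `D2 + (n1 - j) ≤ D` (`f m + 1 - m = D`). So `D2 ≤ D` and `n ≥ j ≥ n1 - D + D2 = m - A - D + D2`.
E3 (b) at `n`: `4t + 6A2 + 3B2 + 4μ ≤ 4n` with `B2 = n + D2 - A2`: iff `4t + 3A2 + 3D2 + 4μ ≤ n`; enough: `4t + 3(B-A) + 2D2 + 4μ + D ≤ m - A`. With `m - A = (m - D + (B-A))/2`
(`2A = m + D - (B-A)`), `D2 ≤ D`, `B - A < 2Δ`: `4t + 4μ + 3D + (5/2)(B-A) + D/2 ≤ 4Δ + 5Δ = 9Δ ≤ m/2` (as `3D + D/2 ≤ 4D`). All this is linear: `linarith`/`nlinarith` after casting.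
E2 at `n`: `2t + 3A2 + B2 + 2μ ≤ 2n` iff `2t + 2A2 + D2 + 2μ ≤ n`: it follows from the same inequality. `first_level` at `n` gives `L ≤ 2n ≤ 2m`.
-/

namespace Pool.Agent.H1.DC

open Filter Pool.Agent.H2.MC

theorem comb {b : ℕ → ℕ} {M : ℕ} (hM : ∀ n, b n ≤ M) (hb : ¬ EvPer b) {m c d : ℕ} {R : List ℕ} (h : Lev b m R c d)
    (hbis : Bis b m R) {z z' : ℕ → ℕ} (hz : In b (m + 1) z) (hz' : In b (m + 1) z') {t μ : ℝ} (ht : 0 ≤ t)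
    (hμ : 0 ≤ μ) (hD : 18 * (t + (((RecB b m).ncard : ℝ) + 1 - m) + μ) ≤ m) :
    ∃ i j p L : ℕ, 0 < p ∧ p ≤ L ∧ L ≤ 2 * m ∧ DR z z' i j p L ∧ t + i + j + 3 / 2 * p + μ ≤ L := by
  sorry

end Pool.Agent.H1.DC
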