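import Mathlib
import Pool.Agent.H1.DC.LanD

set_option autoImplicit false

/-!
# Module EqD (110 lines): both sequences have the same recurrent words

As `uni_special`, `uni`, `recEq` in H2/MC/Uni.lean (there `a` is read backwards; here the two halves of the proof are the same).
`uniD`: let `ncard (RecD b a (n+1)) ≤ ncard (RecD b a n) + 1`. By `evPer_of_card` and `Lang.right_special` there are `R`, `e1 ≠ e2` with
`R ++ [e1], R ++ [e2] ∈ RecB b (n+1)` and `R'`, `e1' ≠ e2'` with `R' ++ [e1'], R' ++ [e2'] ∈ RecB a (n+1)`. By `Lang.uniq_right` (for `RecD b a`)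
`R' = R`, by `Lang.two_right` every `e` with `R ++ [e] ∈ RecD b a (n+1)` is `e1` or `e2` and is `e1'` or `e2'`: so `R ++ [e]` is in `RecB b (n+1)`
and in `RecB a (n+1)`. Claim `RecB b (n+1) ⊆ RecB a (n+1)`: the proof of `c2` in `uni`: take `N` with `win b i (n+1) ∈ RecB b (n+1)` for `i ≥ N`
(`ev_RecB`), an occurrence `i' ≥ N` of `R` in `b` and an occurrence `i ≥ i'` of `v ∈ RecB b (n+1)`; by induction on `s`
`win b (i'+s) (n+1) ∈ RecB a (n+1)`: `win b (i'+s) (n+1) = p ++ [x]`, `p = win b (i'+s) n ∈ RecB a n` (suffix of the previous word; `R` for `s = 0`);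
if `p = R` it is in `RecB a (n+1)` by the above; if `p ≠ R`, `p` has a right extension `p ++ [e] ∈ RecB a (n+1)` (`exr`) and `e = x` by
`Lang.uniq_right` for `RecD`. By symmetry (exchange `b`, `a`; `RecD b a = RecD a b`) also `⊇`. So `RecB b (n+1) = RecB a (n+1) = RecD b a (n+1)`.
`eqD`: given `m`, take such an `n ≥ m`; `w ∈ RecD b a m` extends to `w ++ v ∈ RecD b a (n+1)` (`Lang.extend_right`), which is in `RecB b (n+1)` and
`RecB a (n+1)`, so its prefix `w` is in `RecB b m` and `RecB a m` (`Lang.take_mem`).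
-/

namespace Pool.Agent.H1.DC

open Filter Pool.Agent.H2.MC

private lemma eqD_sub {b a : ℕ → ℕ} {M : ℕ} (h : Bd b a M) (hb : ¬ EvPer b) (ha : ¬ EvPer a) (n : ℕ)
    (hc : (RecD b a (n + 1)).ncard ≤ (RecD b a n).ncard + 1) :
    RecB b (n + 1) ⊆ RecB a (n + 1) ∧ RecB a (n + 1) ⊆ RecB b (n + 1) := by
  have hL : Lang (RecD b a) := lang_RecD h
  have hLB := lang_RecB h.1
  have hLA := lang_RecB h.2
  have hB : (RecB b n).ncard < (RecB b (n + 1)).ncard := by
    by_contra hcon
    exact hb (evPer_of_card h.1 n (not_lt.1 hcon))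
  have hA : (RecB a n).ncard < (RecB a (n + 1)).ncard := by
    by_contra hcon
    exact ha (evPer_of_card h.2 n (not_lt.1 hcon))
  obtain ⟨R, e1, e2, he, h1, h2⟩ := hLB.right_special n hB
  obtain ⟨R', e1', e2', he', h1', h2'⟩ := hLA.right_special n hA
  have huq := hL.uniq_right n hc he (Or.inl h1) (Or.inl h2)
  have hRR : R' = R := by
    by_contra hne
    exact he' (huq R' e1' e2' hne (Or.inr h1') (Or.inr h2'))
  subst hRR
  have hR : ∀ e, R' ++ [e] ∈ RecD b a (n + 1) → R' ++ [e] ∈ RecB b (n + 1) ∧ R' ++ [e] ∈ RecB a (n + 1) := by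
    refine fun e hm => ⟨?_, ?_⟩
    · rcases hL.two_right n hc (Or.inl h1) (Or.inl h2) hm with h3 | h3 | h3
      · exact absurd h3 he
      · rw [← h3]; exact h1
      · rw [← h3]; exact h2
    · rcases hL.two_right n hc (Or.inr h1') (Or.inr h2') hm with h3 | h3 | h3
      · exact absurd h3 he'
      · rw [← h3]; exact h1'
      · rw [← h3]; exact h2'
  have hRA : R' ∈ RecB a n := hLA.pre n R' e1' h1'
  have hRB : R' ∈ RecB b n := hLB.pre n R' e1 h1
  -- the climbing argument, for a pair of sequences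
  have climb : ∀ x y : ℕ → ℕ, Lang (RecB y) → (∃ N, ∀ i, N ≤ i → win x i (n + 1) ∈ RecB x (n + 1)) →
      R' ∈ RecB x n →
      (∀ w, w ∈ RecB x (n + 1) → w ∈ RecD b a (n + 1)) → (∀ w, w ∈ RecB y (n + 1) → w ∈ RecD b a (n + 1)) →
      (∀ e, R' ++ [e] ∈ RecD b a (n + 1) → R' ++ [e] ∈ RecB y (n + 1)) →
      RecB x (n + 1) ⊆ RecB y (n + 1) := by
    intro x y hLy hex hRx hx hy hRy v hv
    obtain ⟨N, hN⟩ := hex
    obtain ⟨i', hi', hiR⟩ := (frequently_atTop.1 hRx) N
    obtain ⟨i, hi, hiv⟩ := (frequently_atTop.1 hv) i'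
    have key : ∀ s : ℕ, win x (i' + s) (n + 1) ∈ RecB y (n + 1) := by
      intro s
      induction s with
      | zero =>
        have h3 : win x (i' + 0) (n + 1) ∈ RecB x (n + 1) := hN _ (by omega)
        have e00 : i' + 0 = i' := rfl
        rw [e00, win_succ, hiR] at h3 ⊢
        exact hRy _ (hx _ h3)
      | succ s ih =>
        have h3 : win x (i' + (s + 1)) (n + 1) ∈ RecB x (n + 1) := hN _ (by omega)
        rw [win_succ'] at ih
        have h6 := hLy.suf n _ _ ih
        have e0 : i' + s + 1 = i' + (s + 1) := by omega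
        rw [e0] at h6
        rw [win_succ] at h3 ⊢
        by_cases hp : win x (i' + (s + 1)) n = R'
        · rw [hp] at h3 ⊢
          exact hRy _ (hx _ h3)
        · obtain ⟨e, hee⟩ := hLy.exr n _ h6
          rw [← huq _ e _ hp (hy _ hee) (hx _ h3)]
          exact hee
    have h7 := key (i - i')
    have e1 : i' + (i - i') = i := by omega
    rwa [e1, hiv] at h7
  exact ⟨climb b a hLA (ev_RecB h.1 (n + 1)) hRB (fun w hw => Or.inl hw) (fun w hw => Or.inr hw)
      (fun e hm => (hR e hm).2),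
    climb a b hLB (ev_RecB h.2 (n + 1)) hRA (fun w hw => Or.inr hw) (fun w hw => Or.inl hw)
      (fun e hm => (hR e hm).1)⟩

lemma eqD {b a : ℕ → ℕ} {M : ℕ} (h : Bd b a M) (hb : ¬ EvPer b) (ha : ¬ EvPer a)
    (hc : ∃ᶠ n in atTop, (RecD b a (n + 1)).ncard ≤ (RecD b a n).ncard + 1) (m : ℕ) :
    RecB b m = RecD b a m ∧ RecB a m = RecD b a m := by
  obtain ⟨n, hn, hcn⟩ := (frequently_atTop.1 hc) m
  obtain ⟨c1, c2⟩ := eqD_sub h hb ha n hcn
  have hL : Lang (RecD b a) := lang_RecD h
  have u1 : ∀ w, w ∈ RecD b a (n + 1) → w ∈ RecB b (n + 1) := by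
    intro w hw
    rcases hw with hw | hw
    · exact hw
    · exact c2 hw
  have u2 : ∀ w, w ∈ RecD b a (n + 1) → w ∈ RecB a (n + 1) := by
    intro w hw
    rcases hw with hw | hw
    · exact c1 hw
    · exact hw
  obtain ⟨k, hk⟩ : ∃ k, n + 1 = m + k := ⟨n + 1 - m, by omega⟩
  rw [hk] at u1 u2
  have htk : ∀ w v : List ℕ, w ∈ RecD b a m → (w ++ v).take m = w := by
    intro w v hw
    have hlen := hL.len m w hw
    rw [List.take_append_of_le_length (by rw [hlen]), List.take_of_length_le (by rw [hlen])]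
  constructor
  · apply Set.Subset.antisymm
    · exact fun w hw => Or.inl hw
    · intro w hw
      obtain ⟨v, -, hv⟩ := hL.extend_right hw k
      have h8 := (lang_RecB h.1).take_mem (u1 _ hv)
      rwa [htk w v hw] at h8
  · apply Set.Subset.antisymm
    · exact fun w hw => Or.inr hw
    · intro w hw
      obtain ⟨v, -, hv⟩ := hL.extend_right hw k
      have h8 := (lang_RecB h.2).take_mem (u2 _ hv)
      rwa [htk w v hw] at h8

end Pool.Agent.H1.DC
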