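import Mathlib
import Pool.Agent.H1.DC.Cmb
import Pool.Agent.H1.DC.EqD

set_option autoImplicit false

/-!
# Module CmD (120 lines): dual runs at infinitely many scales

PROOF. `k < 19/18 < 2`. `freqD` gives infinitely many `m0` with slope one of `RecD`, `TrD (m0+1) ≤ TrD m0` and `RecD m0 + 2 TrD m0 ≤ k m0 + 2`. `eqD` (its hypothesis by `freqD`): `RecB b n = RecD b a n
= RecB a n` for all `n`; so `In b n (shifted a)` is about the same words. `k > 1`: for some `n ≥ 1` `n + 1 ≤ ncard RecD ≤ k n` (`recD_low`).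
Put `δ0 = (19/18 - k - 4c)/2 > 0`, `δ = δ0/2`. Given `N` choose `N1` with `N1 ≥ N`, `δ0 N1 ≥ N`, `δ0 N1 ≥ 3`, and `m0 ≥ N1` as above. `lev_of_slope` at `m0` (with `RecB b = RecD`), `climbD`: `m = C.length + m0`, `Lev b m (C ++ R)`,
bispecial, `ncard (RecB b m) = ncard (RecB b m0) + (m - m0)`. `transD` at `m0`: `i0, j0 ≤ ncard (TrD m0)`, all windows of length `m0+1` of `b` from `i0` on and of `a` from `j0` on are in `RecD (m0+1) =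
RecB b (m0+1)`: `In b (m0+1) z` for `z = fun k => b (i0 + k)`, `z' = fun k => a (j0 + k)` (`win_sh`), so `In b (m+1)` by `climbD`.
Put `t = i0 + j0 ≤ 2 TrD m0`, `μ = (4c + δ0) m`. Then `t + (ncard (RecB b m) + 1 - m) + μ ≤ (ncard (RecD m0) + 2 TrD m0) + 1 - m0 + μ ≤ (k-1) m0 + 3 + (4c+δ0) m ≤ (k - 1 + 4c + δ0) m + 3 = (1/18 - δ0) m + 3 ≤ m/18`
(`k ≥ 1`, `m0 ≤ m`, `δ0 m ≥ 3`). `comb` gives `i, j, p, L` for `z, z'`, `L ≤ 2m`, `t + i + j + (3/2) p + μ ≤ L`. For `b, a`: the positions `i0 + i`, `j0 + j` (`DR` by `win_sh`). With `X = (i0+i) + (j0+j) + (3/2) p ≤ L - μ`: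
`(1+c) X + δ L ≤ (1+c)(L - μ) + δ L ≤ (1-c) L` iff `(2c + δ) L ≤ (1+c) μ`: indeed `(2c + δ) L ≤ (2c + δ0/2) 2m = (4c + δ0) m = μ`. `L ≥ μ ≥ δ0 m ≥ N`.
`c ≥ 0`, `c < 1` not needed here.
-/

namespace Pool.Agent.H1.DC

open Filter Pool.Agent.H2.MC

theorem comb_main {b a : ℕ → ℕ} {M : ℕ} (h : Bd b a M) (hb : ¬ EvPer b) (ha : ¬ EvPer a) {k c : ℝ} (hc : 0 ≤ c)
    (hk : k + 4 * c < 19 / 18)
    (hf : ∃ᶠ n : ℕ in atTop, ((RecD b a n).ncard : ℝ) + 2 * (TrD b a n).ncard ≤ k * n) :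
    ∃ δ : ℝ, 0 < δ ∧ ∀ N : ℕ, ∃ i j p L : ℕ, N ≤ L ∧ 0 < p ∧ p ≤ L ∧ DR b a i j p L ∧
      (1 + c) * ((i : ℝ) + j + 3 / 2 * p) + δ * L ≤ (1 - c) * L := by
  sorry

end Pool.Agent.H1.DC
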