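import Mathlib
import Pool.Agent.H1.DC.CbT
import Pool.Agent.H1.DC.EqD
import Pool.Agent.H1.DC.SloD

set_option autoImplicit false

/-!
# Module CmT: twisted palindromes near the beginning of both sequences at infinitely many scales

`P n = ncard (OccD b a n) ≤ κ n` for infinitely many `n`, `κ (7 + 3c) < 8`. Scales `m₀` with `P (m₀ + 1) ≤ P m₀ + 1`, `P m₀ ≤ κ m₀ + 2`
(`good_scale_real`): the recurrent words grow by one, the transient ones do not grow (`recD_slope`, `trD_mono`). `transD`: `i0, j0 ≤` number of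
transient words. `climbD`: a bispecial scale `m ≥ m₀` with the same defect `D`. `cbT` with `t = i0 + j0`.
-/

namespace Pool.Agent.H1.DC

open Filter Pool.Agent.H2.MC Pool.Agent.H54.TM Matrix

/-- the frequent scales of slope one, all words with the weight one -/
lemma cmt_freq {b a : ℕ → ℕ} {M : ℕ} (h : Bd b a M) (hb : ¬ EvPer b) {κ : ℝ} (hκ : κ < 2)
    (hc : ∃ᶠ n : ℕ in atTop, ((OccD b a n).ncard : ℝ) ≤ κ * n) :
    ∃ᶠ m : ℕ in atTop, (RecD b a (m + 1)).ncard ≤ (RecD b a m).ncard + 1 ∧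
      (TrD b a (m + 1)).ncard ≤ (TrD b a m).ncard ∧
      ((RecD b a m).ncard : ℝ) + (TrD b a m).ncard ≤ κ * m + 2 := by
  have hW : ∀ n, ((OccD b a n).ncard : ℝ) = ((RecD b a n).ncard : ℝ) + (TrD b a n).ncard := by
    intro n
    rw [occD_card h n]
    push_cast
    ring
  have hc' : ∃ᶠ n : ℕ in atTop, ((RecD b a n).ncard : ℝ) + (TrD b a n).ncard ≤ κ * n :=
    hc.mono fun n hn => by rw [← hW n]; exact hn
  have hmono : ∀ n, ((RecD b a n).ncard : ℝ) + (TrD b a n).ncard ≤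
      ((RecD b a (n + 1)).ncard : ℝ) + (TrD b a (n + 1)).ncard := by
    intro n
    have h1 : ((RecD b a n).ncard : ℝ) + 1 ≤ ((RecD b a (n + 1)).ncard : ℝ) := by
      exact_mod_cast recD_slope h hb n
    have h2 : ((TrD b a n).ncard : ℝ) ≤ ((TrD b a (n + 1)).ncard : ℝ) := by
      exact_mod_cast trD_mono h n
    linarith
  apply (good_scale_real (W := fun n => ((RecD b a n).ncard : ℝ) + (TrD b a n).ncard) hmono
    (fun n => by positivity) hκ hc').mono
  rintro m ⟨h1, h2⟩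
  have h3 : ((RecD b a m).ncard : ℝ) + 1 ≤ ((RecD b a (m + 1)).ncard : ℝ) := by
    exact_mod_cast recD_slope h hb m
  have h4 : ((TrD b a m).ncard : ℝ) ≤ ((TrD b a (m + 1)).ncard : ℝ) := by
    exact_mod_cast trD_mono h m
  refine ⟨?_, ?_, h2⟩
  · by_contra hcon
    have h5 : ((RecD b a m).ncard : ℝ) + 2 ≤ ((RecD b a (m + 1)).ncard : ℝ) := by
      have : (RecD b a m).ncard + 2 ≤ (RecD b a (m + 1)).ncard := by omega
      exact_mod_cast this
    linarith
  · by_contra hcon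
    have h5 : ((TrD b a m).ncard : ℝ) + 1 ≤ ((TrD b a (m + 1)).ncard : ℝ) := by
      have : (TrD b a m).ncard + 1 ≤ (TrD b a (m + 1)).ncard := by omega
      exact_mod_cast this
    linarith

theorem kappa_gt {b a : ℕ → ℕ} {M : ℕ} (h : Bd b a M) (hb : ¬ EvPer b) {κ : ℝ}
    (hc : ∃ᶠ n : ℕ in atTop, ((OccD b a n).ncard : ℝ) ≤ κ * n) : 1 < κ := by
  obtain ⟨n, hn, hn2⟩ := frequently_atTop.1 hc 1
  have h1 := recD_low h hb n
  have h2 := occD_card h n
  have h3 : ((n : ℝ) + 1) ≤ (OccD b a n).ncard := by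
    have : n + 1 ≤ (OccD b a n).ncard := by omega
    exact_mod_cast this
  have h4 : (1 : ℝ) ≤ n := by exact_mod_cast hn
  by_contra hcon
  have h5 : κ * n ≤ 1 * n := mul_le_mul_of_nonneg_right (not_lt.1 hcon) (by linarith)
  linarith

theorem comb_tw {b a : ℕ → ℕ} {M : ℕ} (h : Bd b a M) (hb0 : ∀ n, 0 < b n) (hb : ¬ EvPer b) (ha : ¬ EvPer a)
    {κ c : ℝ} (hc : 0 ≤ c) (hκ : κ * (7 + 3 * c) < 8)
    (hf : ∃ᶠ n : ℕ in atTop, ((OccD b a n).ncard : ℝ) ≤ κ * n) :
    ∃ δ : ℝ, 0 < δ ∧ ∀ N : ℕ, ∃ (X u v : List ℕ) (i j e e' : ℕ), N ≤ X.length ∧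
      cfZ X * (tws u v)ᵀ = tws u v * (cfZ X)ᵀ ∧ (tws u v).det ≠ 0 ∧
      (∃ p, win b p X.length = X) ∧ (∃ p, win b p u.length = u) ∧ (∃ p, win b p v.length = v) ∧
      v.length = u.length ∧ e ≤ X.length ∧ e' ≤ X.length ∧
      win b i (X.length - e) = X.drop e ∧ win a j (X.length - e') = X.drop e' ∧
      (i : ℝ) + j + e + e' + 3 * u.length + c * (i + j + X.length - e - e' + u.length) + δ * X.length ≤
        X.length := by
  have hκ1 := kappa_gt h hb hf
  have hκ2 : κ < 2 := by nlinarith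
  have hfr := cmt_freq h hb hκ2 hf
  have heq := eqD h hb ha (hfr.mono fun n hn => hn.1)
  have hRB : ∀ n, RecB b n = RecD b a n := fun n => (heq n).1
  -- the margin
  set η : ℝ := 8 - κ * (7 + 3 * c) with hη
  have hη0 : 0 < η := by rw [hη]; linarith
  refine ⟨η / 12, by positivity, ?_⟩
  intro N
  obtain ⟨N1, hN1⟩ := exists_nat_gt (6 * (7 + 3 * c) / η)
  obtain ⟨m0, hm0, hs1, hs2, hs3⟩ := frequently_atTop.1 hfr (max N N1)
  have hN0 : N ≤ m0 := (le_max_left _ _).trans hm0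
  have hN1' : N1 ≤ m0 := (le_max_right _ _).trans hm0
  obtain ⟨R, c₀, d₀, hLev⟩ := lev_of_slope h.1 hb (m := m0) (by rw [hRB, hRB]; exact hs1)
  obtain ⟨C, hLev', hBis, hcard, hin, -, -⟩ := climbD h.1 hLev
  obtain ⟨i0, j0, hi0, hj0, hbi, haj⟩ := transD h m0 hs2
  have hz : In b (m0 + 1) (fun k => b (i0 + k)) := by
    intro i
    rw [win_sh, hRB]
    exact hbi _ (Nat.le_add_right _ _)
  have hz' : In b (m0 + 1) (fun k => a (j0 + k)) := by
    intro i
    rw [win_sh, hRB]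
    exact haj _ (Nat.le_add_right _ _)
  have hzm := hin _ hz
  have hzm' := hin _ hz'
  set m := C.length + m0 with hm
  have hlow := recB_low h.1 hb m
  have hcr : ((RecB b m).ncard : ℝ) = (RecD b a m0).ncard + C.length := by
    rw [hcard, hRB]
    push_cast
    ring
  have hmr : (m : ℝ) = C.length + m0 := by rw [hm]; push_cast; ring
  have hCl : (0 : ℝ) ≤ C.length := Nat.cast_nonneg _
  have hm00 : (0 : ℝ) ≤ m0 := Nat.cast_nonneg _
  have hi0' : (i0 : ℝ) ≤ (TrD b a m0).ncard := by exact_mod_cast hi0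
  have hj0' : (j0 : ℝ) ≤ (TrD b a m0).ncard := by exact_mod_cast hj0
  have hNm : 6 * (7 + 3 * c) < η * m := by
    rw [div_lt_iff₀ hη0] at hN1
    have h1 : (N1 : ℝ) ≤ m0 := by exact_mod_cast hN1'
    nlinarith
  have hDc : (7 + 3 * c) * (((RecB b m).ncard : ℝ) + 1 - m) + 2 * (1 + c) * ((i0 : ℝ) + j0) +
      6 * (η / 12) * m ≤ (1 - 3 * c) * m := by
    rw [hcr]
    have h1 : ((RecD b a m0).ncard : ℝ) + C.length + 1 - m = (RecD b a m0).ncard + 1 - m0 := by rw [hmr]; ring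
    rw [h1]
    set F : ℝ := ((RecD b a m0).ncard : ℝ)
    set T : ℝ := ((TrD b a m0).ncard : ℝ) with hT
    have hT0 : 0 ≤ T := Nat.cast_nonneg _
    have h2 : 2 * (1 + c) * ((i0 : ℝ) + j0) ≤ (7 + 3 * c) * T + c * T := by
      have h3 : (i0 : ℝ) + j0 ≤ 2 * T := by linarith
      have h4 := mul_le_mul_of_nonneg_left h3 (by linarith : 0 ≤ 2 * (1 + c))
      nlinarith
    have hc3 : c ≤ 1 := by nlinarith
    have h2' : 2 * (1 + c) * ((i0 : ℝ) + j0) ≤ (7 + 3 * c) * T := by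
      have h3 : (i0 : ℝ) + j0 ≤ 2 * T := by linarith
      have h4 := mul_le_mul_of_nonneg_left h3 (by linarith : 0 ≤ 2 * (1 + c))
      nlinarith
    have h5 : F + T + 1 - m0 ≤ (κ - 1) * m0 + 3 := by linarith
    have h6 := mul_le_mul_of_nonneg_left h5 (by linarith : 0 ≤ 7 + 3 * c)
    have h7 : (7 + 3 * c) * (κ - 1) * m0 ≤ (7 + 3 * c) * (κ - 1) * m := by
      apply mul_le_mul_of_nonneg_left _ (mul_nonneg (by linarith) (by linarith))
      rw [hmr]
      linarith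
    have h8 : (7 + 3 * c) * (κ - 1) = (1 - 3 * c) - η := by rw [hη]; ring
    rw [h8] at h7
    nlinarith
  obtain ⟨X, u, v, i, j, e, e', q1, q2, q3, q4, q5, q6, q7, q8, q9, q10, q11, q12⟩ :=
    cbT h.1 hb0 hLev' hBis hlow hzm hzm' (t := (i0 : ℝ) + j0) (c := c) (δ := η / 12) (by positivity) hc
      (by positivity) hDc
  refine ⟨X, u, v, i0 + i, j0 + j, e, e', ?_, q2, q3, q4, q5, q6, q7, q8, q9, ?_, ?_, ?_⟩
  · omega
  · rw [← win_sh]
    exact q10
  · rw [← win_sh]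
    exact q11
  · push_cast
    linarith

end Pool.Agent.H1.DC
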