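import Mathlib
import Pool.Agent.H1.DC.CbT2
import Pool.Agent.H1.DC.CmT

set_option autoImplicit false

/-!
# Module CmT2: twisted palindromes near the beginning of both sequences at infinitely many scales, `κ (7 + 2c - c²) < 8`, `c < 1`

As module CmT, with `cbT2` for `cbT`.
-/

namespace Pool.Agent.H1.DC

open Filter Pool.Agent.H2.MC Pool.Agent.H54.TM Matrix

theorem comb_tw2 {b a : ℕ → ℕ} {M : ℕ} (h : Bd b a M) (hb0 : ∀ n, 0 < b n) (hb : ¬ EvPer b) (ha : ¬ EvPer a)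
    {κ c : ℝ} (hc : 0 ≤ c) (hc1 : c < 1) (hκ : κ * (7 + 2 * c - c ^ 2) < 8)
    (hf : ∃ᶠ n : ℕ in atTop, ((OccD b a n).ncard : ℝ) ≤ κ * n) :
    ∃ δ : ℝ, 0 < δ ∧ ∀ N : ℕ, ∃ (X u v : List ℕ) (i j e e' : ℕ), N ≤ X.length ∧
      cfZ X * (tws u v)ᵀ = tws u v * (cfZ X)ᵀ ∧ (tws u v).det ≠ 0 ∧
      (∃ p, win b p X.length = X) ∧ (∃ p, win b p u.length = u) ∧ (∃ p, win b p v.length = v) ∧
      v.length = u.length ∧ e ≤ X.length ∧ e' ≤ X.length ∧
      win b i (X.length - e) = X.drop e ∧ win a j (X.length - e') = X.drop e' ∧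
      (i : ℝ) + j + e + e' + 3 * u.length + c * (i + j + X.length - e - e' + u.length) + δ * X.length ≤
        X.length := by
  have hκ1 := kappa_gt h hb hf
  have hcc : 7 ≤ 7 + 2 * c - c ^ 2 := by nlinarith
  have hκ2 : κ < 2 := by nlinarith
  have hfr := cmt_freq h hb hκ2 hf
  have heq := eqD h hb ha (hfr.mono fun n hn => hn.1)
  have hRB : ∀ n, RecB b n = RecD b a n := fun n => (heq n).1
  -- the margin
  set η : ℝ := 8 - κ * (7 + 2 * c - c ^ 2) with hη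
  have hη0 : 0 < η := by rw [hη]; linarith
  refine ⟨η / 12, by positivity, ?_⟩
  intro N
  obtain ⟨N1, hN1⟩ := exists_nat_gt (6 * (7 + 2 * c - c ^ 2) / η)
  obtain ⟨m0, hm0, hs1, hs2, hs3⟩ := frequently_atTop.1 hfr (max N N1)
  have hN0 : N ≤ m0 := (le_max_left _ _).trans hm0
  have hN1' : N1 ≤ m0 := (le_max_right _ _).trans hm0
  obtain ⟨R, c₀, d₀, hLev⟩ := lev_of_slope h.1 hb (m := m0) (by rw [hRB, hRB]; exact hs1)
  obtain ⟨C, hLev', hBis, hcard, hin, -, -⟩ := climbD h.1 hLev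
  obtain ⟨i0, j0, hi0, hj0, hbi, haj⟩ := transD h m0 hs2
  have hz : In b (m0 + 1) (fun k => b (i0 + k)) := by
    intro i
    rw [win_sh, hRB]
    exact hbi _ (Nat.le_add_right _ _)
  have hz' : In b (m0 + 1) (fun k => a (j0 + k)) := by
    intro i
    rw [win_sh, hRB]
    exact haj _ (Nat.le_add_right _ _)
  have hzm := hin _ hz
  have hzm' := hin _ hz'
  set m := C.length + m0 with hm
  have hlow := recB_low h.1 hb m
  have hcr : ((RecB b m).ncard : ℝ) = (RecD b a m0).ncard + C.length := by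
    rw [hcard, hRB]
    push_cast
    ring
  have hmr : (m : ℝ) = C.length + m0 := by rw [hm]; push_cast; ring
  have hCl : (0 : ℝ) ≤ C.length := Nat.cast_nonneg _
  have hm00 : (0 : ℝ) ≤ m0 := Nat.cast_nonneg _
  have hi0' : (i0 : ℝ) ≤ (TrD b a m0).ncard := by exact_mod_cast hi0
  have hj0' : (j0 : ℝ) ≤ (TrD b a m0).ncard := by exact_mod_cast hj0
  have hNm : 6 * (7 + 2 * c - c ^ 2) < η * m := by
    rw [div_lt_iff₀ hη0] at hN1
    have h1 : (N1 : ℝ) ≤ m0 := by exact_mod_cast hN1'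
    nlinarith
  have hDc : (7 + 2 * c - c ^ 2) * (((RecB b m).ncard : ℝ) + 1 - m) + 2 * (1 + c) * ((i0 : ℝ) + j0) +
      6 * (η / 12) * m ≤ (1 - c) ^ 2 * m := by
    rw [hcr]
    have h1 : ((RecD b a m0).ncard : ℝ) + C.length + 1 - m = (RecD b a m0).ncard + 1 - m0 := by rw [hmr]; ring
    rw [h1]
    set F : ℝ := ((RecD b a m0).ncard : ℝ)
    set T : ℝ := ((TrD b a m0).ncard : ℝ) with hT
    have hT0 : 0 ≤ T := Nat.cast_nonneg _
    have h2' : 2 * (1 + c) * ((i0 : ℝ) + j0) ≤ (7 + 2 * c - c ^ 2) * T := by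
      have h3 : (i0 : ℝ) + j0 ≤ 2 * T := by linarith
      have h4 := mul_le_mul_of_nonneg_left h3 (by linarith : 0 ≤ 2 * (1 + c))
      have h5 : 4 * (1 + c) ≤ 7 + 2 * c - c ^ 2 := by nlinarith
      have h6 := mul_le_mul_of_nonneg_right h5 hT0
      linarith
    have h5 : F + T + 1 - m0 ≤ (κ - 1) * m0 + 3 := by linarith
    have h6 := mul_le_mul_of_nonneg_left h5 (by linarith : 0 ≤ 7 + 2 * c - c ^ 2)
    have h7 : (7 + 2 * c - c ^ 2) * (κ - 1) * m0 ≤ (7 + 2 * c - c ^ 2) * (κ - 1) * m := by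
      apply mul_le_mul_of_nonneg_left _ (mul_nonneg (by linarith) (by linarith))
      rw [hmr]
      linarith
    have h8 : (7 + 2 * c - c ^ 2) * (κ - 1) = (1 - c) ^ 2 - η := by rw [hη]; ring
    rw [h8] at h7
    nlinarith
  obtain ⟨X, u, v, i, j, e, e', q1, q2, q3, q4, q5, q6, q7, q8, q9, q10, q11, q12⟩ :=
    cbT2 h.1 hb0 hLev' hBis hlow hzm hzm' (t := (i0 : ℝ) + j0) (c := c) (δ := η / 12) (by positivity) hc hc1
      (by positivity) hDc
  refine ⟨X, u, v, i0 + i, j0 + j, e, e', ?_, q2, q3, q4, q5, q6, q7, q8, q9, ?_, ?_, ?_⟩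
  · omega
  · rw [← win_sh]
    exact q10
  · rw [← win_sh]
    exact q11
  · push_cast
    linarith

end Pool.Agent.H1.DC
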