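import Pool.Agent.H54.TM.CritG

/-!
# Module CritS: one number, all fractions of quadratic polynomials

`crit0` (H54/TM/CritG.lean) for `α = β`, `i = j` gives an integer matrix `P` with `P 1 1 ≠ 0` and `(P 0 0, P 0 1, P 1 1)` close to
`P 1 1 * (α², α, 1)`. For three integer polynomials `L₀, L₁, L₂` of degree at most two, `L₀ (α) ≠ 0`, the integer `q = |L₀ (P)|` approximates
`x₁ = L₁ (α) / L₀ (α)` and `x₂ = L₂ (α) / L₀ (α)` with the same quality.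
-/

set_option autoImplicit false

namespace Pool.Agent.H1.DC

open Pool.Agent.H2.MC Pool.Agent.H2.Sturm Pool.Agent.H54.TM Matrix

/-- the value of the quadratic polynomial with the coefficients `a, b, d` -/
noncomputable def qv (a b d : ℤ) (x : ℝ) : ℝ := a * x ^ 2 + b * x + d

/-- its value at the matrix `P` -/
def qm (a b d : ℤ) (P : Matrix (Fin 2) (Fin 2) ℤ) : ℤ := a * P 0 0 + b * P 0 1 + d * P 1 1

lemma qm_bd (a b d : ℤ) {P : Matrix (Fin 2) (Fin 2) ℤ} {x E : ℝ}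
    (hcol : ∀ k, |(P 0 k : ℝ) - x * P 1 k| ≤ E) (hrow : ∀ k, |(P k 0 : ℝ) - x * P k 1| ≤ E) :
    |(qm a b d P : ℝ) - P 1 1 * qv a b d x| ≤ (|(a : ℝ)| * (1 + |x|) + |(b : ℝ)|) * E := by
  have e1 : (qm a b d P : ℝ) - P 1 1 * qv a b d x =
      a * (((P 0 0 : ℝ) - x * P 1 0) + x * ((P 1 0 : ℝ) - x * P 1 1)) + b * ((P 0 1 : ℝ) - x * P 1 1) := by
    unfold qm qv
    push_cast
    ring
  rw [e1]
  have h1 := hcol 0
  have h2 := hcol 1
  have h3 := hrow 1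
  have k1 : |((P 0 0 : ℝ) - x * P 1 0) + x * ((P 1 0 : ℝ) - x * P 1 1)| ≤ (1 + |x|) * E := by
    refine (abs_add_le _ _).trans ?_
    rw [abs_mul]
    have := mul_le_mul_of_nonneg_left h3 (abs_nonneg x)
    linarith
  refine (abs_add_le _ _).trans ?_
  rw [abs_mul, abs_mul]
  have k2 := mul_le_mul_of_nonneg_left k1 (abs_nonneg (a : ℝ))
  have k3 := mul_le_mul_of_nonneg_left h2 (abs_nonneg (b : ℝ))
  linarith

theorem critS {α : ℝ} (hα : ∀ n, 0 < pq α n) {A : ℕ} (hA : ∀ n, pq α n ≤ A) {a b d : Fin 3 → ℤ}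
    (h0 : qv (a 0) (b 0) (d 0) α ≠ 0) :
    ∃ C : ℝ, 1 ≤ C ∧ ∀ (i : ℕ) (za V : List ℕ) (Z Z' : Matrix (Fin 2) (Fin 2) ℤ) (z : ℝ),
      (∀ k l, |(Z k l : ℝ)| ≤ z) → (∀ k l, |(Z' k l : ℝ)| ≤ z) → Z.det ≠ 0 →
      win (pq α) i V.length = V → (∀ e ∈ za, 0 < e) →
      cfZ (za ++ V) * Z = Z' * (cfZ (za ++ V))ᵀ →
      siz za ≤ siz V → C * z * siz za < siz V →
      ∃ q : ℕ, 0 < q ∧
        (q : ℝ) ≤ C * z * siz (win (pq α) 0 i) ^ 2 * siz V / siz za ∧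
        nd (q * (qv (a 1) (b 1) (d 1) α / qv (a 0) (b 0) (d 0) α)) ≤ C * z * siz za / siz V ∧
        nd (q * (qv (a 2) (b 2) (d 2) α / qv (a 0) (b 0) (d 0) α)) ≤ C * z * siz za / siz V := by
  obtain ⟨C0, hC0, hcr⟩ := crit0 hα hα hA
  set y0 : ℝ := qv (a 0) (b 0) (d 0) α with hy0
  set x1 : ℝ := qv (a 1) (b 1) (d 1) α / y0 with hx1
  set x2 : ℝ := qv (a 2) (b 2) (d 2) α / y0 with hx2
  have r1 : y0 * x1 = qv (a 1) (b 1) (d 1) α := mul_div_cancel₀ _ h0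
  have r2 : y0 * x2 = qv (a 2) (b 2) (d 2) α := mul_div_cancel₀ _ h0
  have hy0p : 0 < |y0| := abs_pos.2 h0
  obtain ⟨G, hG1, hK0, hK1, hK2, hX1, hX2, hYG, hYi⟩ : ∃ G : ℝ, 1 ≤ G ∧
      |(a 0 : ℝ)| * (1 + |α|) + |(b 0 : ℝ)| ≤ G ∧ |(a 1 : ℝ)| * (1 + |α|) + |(b 1 : ℝ)| ≤ G ∧
      |(a 2 : ℝ)| * (1 + |α|) + |(b 2 : ℝ)| ≤ G ∧ |x1| ≤ G ∧ |x2| ≤ G ∧ |y0| ≤ G ∧ |y0|⁻¹ ≤ G := by
    have a1 : 0 ≤ |(a 0 : ℝ)| * (1 + |α|) + |(b 0 : ℝ)| := by positivity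
    have a2 : 0 ≤ |(a 1 : ℝ)| * (1 + |α|) + |(b 1 : ℝ)| := by positivity
    have a3 : 0 ≤ |(a 2 : ℝ)| * (1 + |α|) + |(b 2 : ℝ)| := by positivity
    have a4 := abs_nonneg x1
    have a5 := abs_nonneg x2
    have a6 := abs_nonneg y0
    have a7 : 0 ≤ |y0|⁻¹ := by positivity
    refine ⟨1 + (|(a 0 : ℝ)| * (1 + |α|) + |(b 0 : ℝ)|) + (|(a 1 : ℝ)| * (1 + |α|) + |(b 1 : ℝ)|) +
      (|(a 2 : ℝ)| * (1 + |α|) + |(b 2 : ℝ)|) + |x1| + |x2| + |y0| + |y0|⁻¹, ?_, ?_, ?_, ?_, ?_, ?_, ?_, ?_⟩ <;> linarith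
  have hG0 : 0 < G := by linarith
  have hG2 : 1 ≤ G ^ 2 := one_le_pow₀ hG1
  have hyG : 1 ≤ G * |y0| := by
    have h1 := mul_le_mul_of_nonneg_right hYi hy0p.le
    rw [inv_mul_cancel₀ hy0p.ne'] at h1
    exact h1
  refine ⟨2 * G ^ 2 * C0, by nlinarith, ?_⟩
  intro i za V Z Z' z hZ hZ' hdet hV hza hrel hs1 hs2
  obtain ⟨hz1, P, hPd, hP11, hcol, hrow⟩ := hcr i i za V za V Z Z' z hZ hZ' hdet hV hV hza hza hrel hs1 hs1
  have hVp : ∀ e ∈ V, 0 < e := by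
    rw [← hV]
    exact win_pos hα _ _
  have hT : (1 : ℝ) ≤ (siz (win (pq α) 0 i) : ℝ) := by exact_mod_cast siz_pos (win_pos hα 0 i)
  have hsV : (1 : ℝ) ≤ siz V := by exact_mod_cast siz_pos hVp
  have hsz : (1 : ℝ) ≤ siz za := by exact_mod_cast siz_pos hza
  have hs1' : (siz za : ℝ) ≤ siz V := by exact_mod_cast hs1
  set T : ℝ := (siz (win (pq α) 0 i) : ℝ) with hTd
  set v : ℝ := (siz V : ℝ) with hv
  set s : ℝ := (siz za : ℝ) with hs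
  have hE1 : C0 * z * s * T / (T * v) = C0 * z * s / v := by
    field_simp
  rw [hE1] at hcol hrow
  set E : ℝ := C0 * z * s / v with hE
  have hE0 : 0 ≤ E := by positivity
  have hQ1 : C0 * z * T * T * v / s = C0 * z * T ^ 2 * v / s := by ring
  rw [hQ1] at hP11
  set Q : ℝ := C0 * z * T ^ 2 * v / s with hQ
  have hEQ : E ≤ Q := by
    rw [hE, hQ, div_le_div_iff₀ (by linarith) (by linarith)]
    have h1 : s * s ≤ v * v := mul_self_le_mul_self (by linarith) hs1'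
    have h2 : 1 ≤ T ^ 2 := one_le_pow₀ hT
    have h3 : v * v ≤ T ^ 2 * (v * v) := le_mul_of_one_le_left (by positivity) h2
    have h4 : 0 ≤ C0 * z := by positivity
    calc C0 * z * s * s = C0 * z * (s * s) := by ring
      _ ≤ C0 * z * (T ^ 2 * (v * v)) := mul_le_mul_of_nonneg_left (h1.trans h3) h4
      _ = C0 * z * T ^ 2 * v * v := by ring
  have hEs : 2 * G ^ 2 * E < 1 := by
    rw [hE, ← mul_div_assoc, div_lt_one (by linarith)]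
    calc 2 * G ^ 2 * (C0 * z * s) = 2 * G ^ 2 * C0 * z * s := by ring
      _ < v := hs2
  have hE1' : E < 1 := by
    have h1 : E ≤ G ^ 2 * E := le_mul_of_one_le_left hE0 hG2
    have h2 : 2 * G ^ 2 * E = 2 * (G ^ 2 * E) := by ring
    rw [h2] at hEs
    linarith
  have hP0 : P 1 1 ≠ 0 := by
    intro h0'
    have h1 := hcol 1
    have h2 := hrow 1
    rw [h0'] at h1 h2
    simp only [Int.cast_zero, mul_zero, sub_zero] at h1 h2
    have h3 : |(P.det : ℝ)| = |(P 0 1 : ℝ)| * |(P 1 0 : ℝ)| := by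
      rw [Matrix.det_fin_two, h0']
      push_cast
      rw [mul_zero, zero_sub, abs_neg, abs_mul]
    have h4 : |(P 0 1 : ℝ)| * |(P 1 0 : ℝ)| ≤ E * E := mul_le_mul h1 h2 (abs_nonneg _) hE0
    have h5 : (1 : ℝ) ≤ |(P.det : ℝ)| := by exact_mod_cast Int.one_le_abs hPd
    have h6 : E * E < 1 := mul_lt_one_of_nonneg_of_lt_one_left hE0 hE1' hE1'.le
    linarith
  have hP1 : (1 : ℝ) ≤ |(P 1 1 : ℝ)| := by exact_mod_cast Int.one_le_abs hP0
  have m0 := qm_bd (a 0) (b 0) (d 0) hcol hrow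
  have m1 := qm_bd (a 1) (b 1) (d 1) hcol hrow
  have m2 := qm_bd (a 2) (b 2) (d 2) hcol hrow
  have n0 := m0.trans (mul_le_mul_of_nonneg_right hK0 hE0)
  have n1 := m1.trans (mul_le_mul_of_nonneg_right hK1 hE0)
  have n2 := m2.trans (mul_le_mul_of_nonneg_right hK2 hE0)
  set M0 : ℤ := qm (a 0) (b 0) (d 0) P with hM0
  rw [← hy0] at n0
  have lowM : |(P 1 1 : ℝ)| * |y0| ≤ |(M0 : ℝ)| + G * E := by
    have h1 : (P 1 1 : ℝ) * y0 = M0 - ((M0 : ℝ) - P 1 1 * y0) := by ring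
    rw [← abs_mul, h1]
    exact (abs_sub _ _).trans (by linarith)
  have upM : |(M0 : ℝ)| ≤ |(P 1 1 : ℝ)| * |y0| + G * E := by
    have h1 : (M0 : ℝ) = P 1 1 * y0 + ((M0 : ℝ) - P 1 1 * y0) := by ring
    rw [← abs_mul]
    nth_rewrite 1 [h1]
    exact (abs_add_le _ _).trans (by linarith)
  have hMne : M0 ≠ 0 := by
    intro h1
    rw [h1] at lowM
    simp only [Int.cast_zero, abs_zero, zero_add] at lowM
    have h2 : |y0| ≤ |(P 1 1 : ℝ)| * |y0| := le_mul_of_one_le_left hy0p.le hP1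
    have h3 : G * |y0| ≤ G * (G * E) := mul_le_mul_of_nonneg_left (h2.trans lowM) hG0.le
    have h4 : 2 * G ^ 2 * E = 2 * (G * (G * E)) := by ring
    have h5 : 0 ≤ G * (G * E) := by positivity
    rw [h4] at hEs
    linarith
  have gen : ∀ (M : ℤ) (y x : ℝ), y0 * x = y → |x| ≤ G → |(M : ℝ) - P 1 1 * y| ≤ G * E →
      nd ((M0.natAbs : ℝ) * x) ≤ 2 * G ^ 2 * C0 * z * s / v := by
    intro M y x hxy hxG hM
    refine (nd_natAbs M0 x M).trans ?_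
    have h1 : (M : ℝ) - x * M0 = ((M : ℝ) - P 1 1 * y) - x * ((M0 : ℝ) - P 1 1 * y0) := by
      rw [← hxy]
      ring
    rw [h1]
    have h2 : |x * ((M0 : ℝ) - P 1 1 * y0)| ≤ G * (G * E) := by
      rw [abs_mul]
      exact mul_le_mul hxG n0 (abs_nonneg _) hG0.le
    refine (abs_sub _ _).trans ?_
    have h3 : 2 * G ^ 2 * C0 * z * s / v = 2 * G ^ 2 * E := by
      rw [hE]
      ring
    rw [h3]
    have h5 : G * E ≤ G * (G * E) := le_mul_of_one_le_left (by positivity) hG1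
    have h6 : 2 * G ^ 2 * E = G * (G * E) + G * (G * E) := by ring
    rw [h6]
    linarith
  refine ⟨M0.natAbs, Int.natAbs_pos.2 hMne, ?_, gen _ _ _ r1 hX1 n1, gen _ _ _ r2 hX2 n2⟩
  rw [natAbs_real]
  refine upM.trans ?_
  have h1 : |(P 1 1 : ℝ)| * |y0| ≤ Q * G := mul_le_mul hP11 hYG (abs_nonneg _) (hE0.trans hEQ)
  have h2 : G * E ≤ G * Q := mul_le_mul_of_nonneg_left hEQ hG0.le
  have h3 : 2 * G ^ 2 * C0 * z * T ^ 2 * v / s = 2 * G ^ 2 * Q := by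
    rw [hQ]
    ring
  rw [h3]
  have h4 : 0 ≤ Q := hE0.trans hEQ
  have h5 : G * Q ≤ G * (G * Q) := le_mul_of_one_le_left (by positivity) hG1
  have h6 : 2 * G ^ 2 * Q = G * (G * Q) + G * (G * Q) := by ring
  have h7 : Q * G = G * Q := mul_comm _ _
  rw [h6]
  linarith

end Pool.Agent.H1.DC
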