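import Mathlib
import Pool.Agent.H1.DC.Defs
import Pool.Agent.H2.Sturm.Rotation

set_option autoImplicit false

/-!
# Module Pig (70 lines): an approximate linear relation gives a good common denominator

`nd x = |x - round x|` (H2/Sturm/Rotation), `nd_le x z : nd x ≤ |x - z|`.

PROOF. Let `N = |C|·J ≥ 1` (natural: `C.natAbs * J`). To `q ∈ {0, …, N}` attach `p_q = ⌊q α⌋`, the residue of `A q + B p_q` modulo
`|C|` (an element of `range C.natAbs`, e.g. `((A * q + B * p_q) % |C|).toNat`, or use `ZMod`) and `⌊J · fract (q α)⌋₊ < J`. There are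
`N + 1` values of `q` and `N` pairs, so there are `q1 < q2 ≤ N` with the same pair (`Finset.exists_ne_map_eq_of_card_lt_of_maps_to`). Put
`q = q2 - q1 ∈ [1, N]`, `p = p_(q2) - p_(q1)`. Then `|q α - p| = |fract (q2 α) - fract (q1 α)| < 1/J` and `C ∣ A q + B p`: write
`A q + B p = -C r`. Hence `C (q β - r) = C q β + A q + B p = q (A + B α + C β) - B (q α - p)`, so `|C| |q β - r| ≤ q E + |B|/J`. Therefore
`nd (q α) ≤ 1/J`, `nd (q β) ≤ (q E + |B|/J)/|C|`, and with `q ≤ |C| J`: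
`q nd nd ≤ |C| J · (1/J) · (|C| J E + |B|/J)/|C| = |C| J E + |B|/J`.
-/

namespace Pool.Agent.H1.DC

open Pool.Agent.H2.Sturm

lemma pig {α β : ℝ} {A B C : ℤ} (hC : C ≠ 0) {J : ℕ} (hJ : 0 < J) {E : ℝ} (hE0 : 0 ≤ E)
    (hE : |(A : ℝ) + B * α + C * β| ≤ E) :
    ∃ q : ℕ, 0 < q ∧ (q : ℝ) ≤ |(C : ℝ)| * J ∧
      (q : ℝ) * nd (q * α) * nd (q * β) ≤ |(C : ℝ)| * J * E + |(B : ℝ)| / J := by
  sorry

end Pool.Agent.H1.DC
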