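import Mathlib
import Pool.Agent.H1.DC.Defs
import Pool.Agent.H2.MC.DioA

set_option autoImplicit false

/-!
# Module Tht (140 lines): the values of a periodic continued fraction

`theta_ex`. Let `W = cfMat (win e 0 p)` (natural entries; `Sturm.cfMat_ineq`, `Sturm.cfMat_01_pos`: `W00, W01 ≥ 1`; `W10 ≥ 1` by
`cfMat_cons_10` and `cfMat_ineq` as `p ≥ 1`, `win e 0 p = e 0 :: win e 1 (p-1)` (`win_succ'`)). The real number
`x = ((W00 - W11) + √((W00 - W11)² + 4 W10 W01)) / (2 W10)` is positive and `x (W10 x + W11) = W00 x + W01`. Put `y p = x`,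
`y k = e k + 1 / y (k+1)` for `k < p` (backward recursion; e.g. define `g : ℕ → ℝ`, `g 0 = x`, `g (j+1) = e (p-1-j) + 1 / g j`,
`y k = g (p - k)`). All `y k > 0`, and `y k > 1` for `k < p`. As in `word_theta` (`word_aux` below, for the word `win e 0 p`):
`W10 x + W11 = ∏_{t<p} y (1+t)`, `W00 x + W01 = y 0 · ∏_{t<p} y (1+t)`, so `y 0 = (W00 x + W01)/(W10 x + W11) = x`. Put `θ n = y (n % p)`. If
`(n+1) % p = n % p + 1`: the relation is the recursion; otherwise `n % p = p - 1`, `(n+1) % p = 0`, `θ (n+1) = y 0 = y p`. `e n = e (n % p)`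
by periodicity. `θ (n+p) = θ n` is clear.
(Another way: `θ n` = the positive root of the fixed point equation of `cfMat (win e n p)`; `e n + 1/θ(n+1)` is a positive
fixed point of `cfMat (win e n p)`, and there is only one.)

`word_theta`: induction on `k` for all `n` with `win e n (k+1) = e n :: win e (n+1) k` (`win_succ'`), `cfMat_cons_ij` and
`Finset.prod_range_succ'`. With `Q = ∏_{t<k} θ (n+2+t)`: the new `10, 11` row is the old `00, 01` row: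
`θ (n+1) Q = ∏_{t<k+1} θ (n+1+t)`; the new `00, 01` row is `e n θ(n+1) Q + Q = θ n θ (n+1) Q`.

`prod_shift`: induction on `s`: `(∏_{t<p} θ (s+1+t)) θ s = ∏_{t<p+1} θ (s+t) = (∏_{t<p} θ (s+t)) θ (s+p)` and `θ (s+p) = θ s > 0`.
`prod_gt`: `1 < ∏`: all factors are `> 1`, `p ≥ 1`.
-/

namespace Pool.Agent.H1.DC

open Pool.Agent.H2.MC Pool.Agent.H2.Sturm

lemma theta_ex {e : ℕ → ℕ} {p : ℕ} (hp : 0 < p) (he : ∀ n, e (n + p) = e n) (hpos : ∀ n, 0 < e n) :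
    ∃ θ : ℕ → ℝ, (∀ n, 1 < θ n) ∧ (∀ n, θ n * θ (n + 1) = e n * θ (n + 1) + 1) ∧ ∀ n, θ (n + p) = θ n := by
  sorry

lemma word_theta {e : ℕ → ℕ} {θ : ℕ → ℝ} (h2 : ∀ n, θ n * θ (n + 1) = e n * θ (n + 1) + 1) (n k : ℕ) :
    (cfMat (win e n k) 1 0 : ℝ) * θ (n + k) + (cfMat (win e n k) 1 1 : ℝ) = ∏ t ∈ Finset.range k, θ (n + 1 + t) ∧
    (cfMat (win e n k) 0 0 : ℝ) * θ (n + k) + (cfMat (win e n k) 0 1 : ℝ) =
      θ n * ∏ t ∈ Finset.range k, θ (n + 1 + t) := by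
  sorry

lemma prod_shift {θ : ℕ → ℝ} {p : ℕ} (h1 : ∀ n, 1 < θ n) (h3 : ∀ n, θ (n + p) = θ n) (s : ℕ) :
    ∏ t ∈ Finset.range p, θ (s + t) = ∏ t ∈ Finset.range p, θ t := by
  sorry

lemma prod_gt {θ : ℕ → ℝ} {p : ℕ} (hp : 0 < p) (h1 : ∀ n, 1 < θ n) : 1 < ∏ t ∈ Finset.range p, θ t := by
  sorry

end Pool.Agent.H1.DC
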