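import Mathlib
import Pool.Agent.H1.DC.Tht

set_option autoImplicit false

/-!
# Module Sid (170 lines): one side of the dual run criterion

NOTATION. `ζ0 = cq α (i+1)`, `c0 = cfMat (win (pq α) 0 i) 0 0 = siz (win (pq α) 0 i)`, `d0 = cfMat (win (pq α) 0 i) 0 1 ≤ c0`,
`A0 = ⌊α⌋ c0 + cfMat (win (pq α) 0 i) 1 0`, `B0 = ⌊α⌋ d0 + cfMat (win (pq α) 0 i) 1 1` (integers). As in the proof of `mirror` in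
H2/MC/DioA.lean (`hrelA`, `hdetA` there): `(c0 ζ0 + d0) α = A0 ζ0 + B0` and `(A0 d0 - B0 c0)² = 1`; this is `state` below.
`ε = A0 d0 - B0 c0 = ±1`. `W = cfMat (win (pq α) i p) = cfMat (win e s p)` (the first `p` letters of the two equal words; `win_take`),
entries `≤ W00` (`cfMat_ineq`). `λ = ∏_{t<p} θ (s+1+t) = ∏_{t<p} θ t` (`prod_shift`). By `word_theta` and `θ (s+p) = θ s`, with `θ = θ s`: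
`W10 θ + W11 = λ`, `W00 θ + W01 = λ θ`.
DEFINE `r = ε ((c0 W00 + d0 W10) d0 - (c0 W01 + d0 W11) c0)`, `v = ε (-(c0 W00 + d0 W10) B0 + (c0 W01 + d0 W11) A0)`,
`α' = (A0 θ + B0)/(c0 θ + d0)`.
(1) `r α' + v = λ`: multiply by `σ = c0 θ + d0 > 0`: `ε {(c0 W00 + d0 W10)(d0 (A0 θ + B0) - B0 (c0 θ + d0)) + (c0 W01 + d0 W11)(A0 (c0 θ
+ d0) - c0 (A0 θ + B0))} = ε² {(c0 W00 + d0 W10) θ + (c0 W01 + d0 W11)} = c0 (W00 θ + W01) + d0 (W10 θ + W11) = λ σ`.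
(2) `|r| ≤ 2 c0² W00`: `r = ±(X - Y)`, `0 ≤ X = (c0 W00 + d0 W10) d0 ≤ 2 c0² W00`, `0 ≤ Y = (c0 W01 + d0 W11) c0 ≤ 2 c0² W00`.
(3) `r ≠ 0`: otherwise `λ = v` is an integer `> 1` (`prod_gt`). But `(W00 - λ) θ = -W01`, `W10 θ = λ - W11` give
`(W00 - λ)(W11 - λ) = W01 W10` (multiply by `θ ≠ 0`), so `λ (λ - W00 - W11) = -(W00 W11 - W01 W10) = ±1` (`det_cfMat`) in integers,
so `λ ∣ 1`, contradiction.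
(4) `|α - α'| ≤ 1/(c0 siz (win (pq α) i L))²`. Let `Z = cfMat (win (pq α) i L) = cfMat (win e s L)`, `ζ = cq α (i+1+L) ≥ 1`,
`ζ' = θ (s+L) ≥ 1`. By `word_rel` (H2/Sturm/CF.lean, with `m = i+1`): `(Z10 ζ + Z11) ζ0 = Z00 ζ + Z01`, so with `c1 = c0 Z00 + d0 Z10`,
`d1 = c0 Z01 + d0 Z11`, `A1 = A0 Z00 + B0 Z10`, `B1 = A0 Z01 + B0 Z11`: `(c1 ζ + d1) α = A1 ζ + B1` (as in `block` in Core.lean); and by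
`word_theta` (`θ s (Z10 ζ' + Z11) = Z00 ζ' + Z01`) `(c1 ζ' + d1) α' = A1 ζ' + B1`. `(A1 d1 - B1 c1)² = 1`. So `α - α' = ± (ζ - ζ')/((c1 ζ + d1)
(c1 ζ' + d1))`, `|ζ - ζ'| ≤ ζ ζ'` (both `≥ 1`), and `(c1 ζ + d1)(c1 ζ' + d1) ≥ c1² ζ ζ'`, so `|α - α'| ≤ 1/c1²`, `c1 ≥ c0 Z00`.
(5) `|r α + v - λ| = |r| |α - α'| ≤ 2 c0² W00/(c0 Z00)² = 2 W00/Z00²`.
-/

namespace Pool.Agent.H1.DC

open Pool.Agent.H2.MC Pool.Agent.H2.Sturm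

lemma state {α : ℝ} (hα : ∀ n, 0 < pq α n) (i : ℕ) :
    ∃ A0 B0 : ℤ, (A0 * (cfMat (win (pq α) 0 i) 0 1 : ℤ) - B0 * (cfMat (win (pq α) 0 i) 0 0 : ℤ)) ^ 2 = 1 ∧
      ((cfMat (win (pq α) 0 i) 0 0 : ℝ) * cq α (i + 1) + (cfMat (win (pq α) 0 i) 0 1 : ℝ)) * α =
        A0 * cq α (i + 1) + B0 := by
  sorry

lemma side {α : ℝ} (hα : ∀ n, 0 < pq α n) {e : ℕ → ℕ} {θ : ℕ → ℝ} {p : ℕ} (hp : 0 < p) (h1 : ∀ n, 1 < θ n)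
    (h2 : ∀ n, θ n * θ (n + 1) = e n * θ (n + 1) + 1) (h3 : ∀ n, θ (n + p) = θ n) {i s L : ℕ} (hpL : p ≤ L)
    (h : win (pq α) i L = win e s L) :
    ∃ r v : ℤ, r ≠ 0 ∧ |(r : ℝ)| ≤ 2 * (siz (win (pq α) 0 i) : ℝ) ^ 2 * siz (win (pq α) i p) ∧
      |(r : ℝ) * α + v - ∏ t ∈ Finset.range p, θ t| ≤
        2 * (siz (win (pq α) i p) : ℝ) / (siz (win (pq α) i L) : ℝ) ^ 2 := by
  sorry

end Pool.Agent.H1.DC
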