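import Mathlib
import Pool.Agent.H1.DC.Pig
import Pool.Agent.H1.DC.Sid

set_option autoImplicit false

/-!
# Module Crt (80 lines): the dual run criterion

PROOF. `DR (pq α) (pq β) i j p L` gives `e, s, t` with `win (pq α) i L = win e s L`, `win (pq β) j L = win e t L`. `e n > 0` for all `n`:
`e (s + r) = pq α (i + r) > 0` for `r < p ≤ L` (`win_getElem` / `win_eq_iff`), and every `n` has `n + s p = s + (r + p l)` for some
`r < p`, `l` (`Nat.mod_add_div`), and `e (n + s p) = e n`, `e (s + r + p l) = e (s + r)` (induction on the periodicity).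
`theta_ex` gives `θ`. `side` for `α` gives `r1, v1`, `side` for `β` gives `r2, v2` with the SAME product `λ = ∏_{t<p} θ t`.
`pig` with `A = v1 - v2`, `B = r1`, `C = -r2`, `E = 2 w1/ρ1² + 2 w2/ρ2²` (`w1 = siz (win (pq α) i p)`, …):
`A + B α + C β = (r1 α + v1 - λ) - (r2 β + v2 - λ)`. Bound `|C| ≤ 2 K2² w2`, `|B| ≤ 2 K1² w1` in the conclusion.
-/

namespace Pool.Agent.H1.DC

open Pool.Agent.H2.MC Pool.Agent.H2.Sturm

lemma crit {α β : ℝ} (hα : ∀ n, 0 < pq α n) (hβ : ∀ n, 0 < pq β n) {i j p L : ℕ} (hp : 0 < p) (hpL : p ≤ L)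
    (h : DR (pq α) (pq β) i j p L) {J : ℕ} (hJ : 0 < J) {K1 K2 w1 w2 ρ1 ρ2 : ℝ}
    (e1 : K1 = siz (win (pq α) 0 i)) (e2 : K2 = siz (win (pq β) 0 j)) (e3 : w1 = siz (win (pq α) i p))
    (e4 : w2 = siz (win (pq β) j p)) (e5 : ρ1 = siz (win (pq α) i L)) (e6 : ρ2 = siz (win (pq β) j L)) :
    ∃ q : ℕ, 0 < q ∧ (q : ℝ) ≤ 2 * K2 ^ 2 * w2 * J ∧
      (q : ℝ) * nd (q * α) * nd (q * β) ≤
        2 * K2 ^ 2 * w2 * J * (2 * w1 / ρ1 ^ 2 + 2 * w2 / ρ2 ^ 2) + 2 * K1 ^ 2 * w1 / J := by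
  sorry

end Pool.Agent.H1.DC
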