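import Mathlib
import Pool.Agent.H1.DC.Crt
import Pool.Agent.H2.MC.Quad

set_option autoImplicit false

/-!
# Module Fin (170 lines): dual runs at infinitely many scales give the power gain

NOTATION. `s1(i,n) = log (siz (win (pq α) i n))`, `s2` for `β`. `hr`: both are within `ε n + C` of `lam n`. `X = i + j + (3/2) p`.
PROOF. Let `ε0 > 0`, `N0` be given (from `PowerLittlewood`). Irrationality: `q α` is not an integer for `q > 0` (`NotQuad α` with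
`(0, q, -z)`), so `nd (q α) > 0`, the same for `β`. Hence there is `η ∈ (0, ε0]` with
`η ≤ q^(1+c) nd (q α) nd (q β)` for all `0 < q < N0` (finite minimum; induction on `N0`). It suffices to find ONE `q > 0` with
`q^(1+c) nd nd < η`: then `q ≥ N0`.
Let `δ > 0` be from `h`. Put `ε = lam δ / 40`, `C` from `hr ε` (may assume `C ≥ 0`; replace by `max C 0`). Let `i, j, p, L` be from `h N`, `N` large
(below). Since `(1+c) X + δ L ≤ (1-c) L`: `i, j ≤ L`, `(3/2) p ≤ L`, `i + j + (3/2) p ≤ L`. Put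
`x = lam (i - j - p/2 + L) ≥ 0` (as `j + p/2 ≤ L`), `J = ⌈exp x⌉₊`, so `exp x ≤ J ≤ 2 exp x` (`exp x ≥ 1`). Apply `crit`. With `K1 = exp (s1(0,i))`, …
(`Real.exp_log`, sizes `≥ 1`) and all error terms `≤ ε (…) + C`:
`2 K2² w2 J ≤ 4 exp (lam (2 j + p) + x + ε (2 j + p) + 3 C) = 4 exp (lam (i + j + p/2 + L) + ε(2j+p) + 3C)`;
`2 K2² w2 J (2 w1/ρ1² + 2 w2/ρ2²) ≤ 16 exp (lam (X - L) + ε (2 j + 2 p + 2 L) + 6 C)`:
 exponent `lam (2j + p) + x + lam p - 2 lam L = lam (i + j + (3/2) p - L)`;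
`2 K1² w1 / J ≤ 2 exp (lam (2 i + p) - x + …) = 2 exp (lam (X - L) + ε (2 i + p) + 3 C)`.
So `q nd nd ≤ 18 exp (lam (X - L) + 6 ε L + 6 C)` and `q^c ≤ (4 exp (lam (i+j+p/2+L) + 4 ε L + 3 C))^c ≤ 4 exp (c lam (i+j+p/2+L) + 4 ε L + 3 C)`
(`0 ≤ c ≤ 1`; `c < 1` follows from `h` and `L > 0`, or is assumed). The product is at most
`72 exp (lam ((1+c) (i+j) + (3/2 + c/2) p - (1-c) L) + 10 ε L + 9 C) ≤ 72 exp (-lam δ L + (lam δ/4) L + 9 C) ≤ 72 exp (9 C - (lam δ/2) N)`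
(`(3/2 + c/2) p ≤ (1+c)(3/2) p`, `L ≥ N`). Choose `N` with this `< η`. `q^(1+c) = q^c q` (`Real.rpow_add`).
`PowerLittlewood` is written with `|q α - round (q α)| = nd (q α)` (definitional).
-/

namespace Pool.Agent.H1.DC

open Pool.Agent.H2.MC Pool.Agent.H2.Sturm

lemma nd_pos_notQuad {x : ℝ} (hx : NotQuad x) {q : ℕ} (hq : 0 < q) : 0 < nd ((q : ℝ) * x) := by
  sorry

lemma final_dual {α β : ℝ} (hα : NotQuad α) (hβ : NotQuad β) {lam : ℝ} (hlam : 0 < lam)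
    (hr : ∀ ε : ℝ, 0 < ε → ∃ C : ℝ, ∀ i n : ℕ, |Real.log (siz (win (pq α) i n)) - lam * n| ≤ ε * n + C ∧
      |Real.log (siz (win (pq β) i n)) - lam * n| ≤ ε * n + C)
    {c δ : ℝ} (hc0 : 0 ≤ c) (hc1 : c < 1) (hδ : 0 < δ)
    (h : ∀ N : ℕ, ∃ i j p L : ℕ, N ≤ L ∧ 0 < p ∧ p ≤ L ∧ DR (pq α) (pq β) i j p L ∧
      (1 + c) * ((i : ℝ) + j + 3 / 2 * p) + δ * L ≤ (1 - c) * L) :
    PowerLittlewood c α β := by
  sorry

end Pool.Agent.H1.DC
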