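import Pool.Agent.H54.TM.FinG
import Pool.Agent.H1.DC.CritS

/-!
# Module FinS: real analysis for one number (criterion `critS`)
-/

set_option autoImplicit false

namespace Pool.Agent.H1.DC

open Pool.Agent.H2.MC Pool.Agent.H2.Sturm Pool.Agent.H54.TM Matrix

/-- a good scale for one sequence -/
def GdS (b : ℕ → ℕ) (c δ : ℝ) (N : ℕ) : Prop :=
  ∃ (X u v : List ℕ) (i e : ℕ), N ≤ X.length ∧
    cfZ X * (tws u v)ᵀ = tws u v * (cfZ X)ᵀ ∧ (tws u v).det ≠ 0 ∧
    (∃ p, win b p X.length = X) ∧ (∃ p, win b p u.length = u) ∧ (∃ p, win b p v.length = v) ∧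
    v.length = u.length ∧ e ≤ X.length ∧
    win b i (X.length - e) = X.drop e ∧
    2 * (i : ℝ) + 2 * e + 3 * u.length + c * (2 * i + X.length - 2 * e + u.length) + δ * X.length ≤ X.length

lemma exists_etaS {x y : ℝ} (hx : ∀ q : ℕ, 0 < q → 0 < nd ((q : ℝ) * x)) (hy : ∀ q : ℕ, 0 < q → 0 < nd ((q : ℝ) * y))
    (c : ℝ) {ε0 : ℝ} (hε : 0 < ε0) (N : ℕ) :
    ∃ η : ℝ, 0 < η ∧ η ≤ ε0 ∧ ∀ q : ℕ, 0 < q → q < N →
      η ≤ (q : ℝ) ^ (1 + c) * nd ((q : ℝ) * x) * nd ((q : ℝ) * y) := by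
  induction N with
  | zero => exact ⟨ε0, hε, le_refl _, fun q _ hq => absurd hq (Nat.not_lt_zero _)⟩
  | succ N ih =>
    obtain ⟨η, h1, h2, h3⟩ := ih
    by_cases hN : 0 < N
    · have hp : 0 < (N : ℝ) ^ (1 + c) * nd ((N : ℝ) * x) * nd ((N : ℝ) * y) := by
        have h4 := hx N hN
        have h5 := hy N hN
        have h6 : (0 : ℝ) < N := by exact_mod_cast hN
        positivity
      refine ⟨min η ((N : ℝ) ^ (1 + c) * nd ((N : ℝ) * x) * nd ((N : ℝ) * y)), lt_min h1 hp,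
        (min_le_left _ _).trans h2, fun q hq hqN => ?_⟩
      rcases Nat.lt_succ_iff_lt_or_eq.1 hqN with h4 | h4
      · exact (min_le_left _ _).trans (h3 q hq h4)
      · subst h4
        exact min_le_right _ _
    · refine ⟨η, h1, h2, fun q hq hqN => ?_⟩
      omega

theorem finS {α : ℝ} (hα : NotQuad α) {a b d : Fin 3 → ℤ} (h0 : qv (a 0) (b 0) (d 0) α ≠ 0) {lam : ℝ} (hlam : 0 < lam)
    (hr : ∀ ε : ℝ, 0 < ε → ∃ C : ℝ, ∀ i n : ℕ, |Real.log (siz (win (pq α) i n)) - lam * n| ≤ ε * n + C)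
    {A : ℕ} (hA : ∀ n, pq α n ≤ A) {c δ : ℝ} (hc0 : 0 ≤ c) (hc1 : c < 1) (hδ : 0 < δ)
    (hgd : ∀ N : ℕ, GdS (pq α) c δ N)
    (hn1 : ∀ q : ℕ, 0 < q → 0 < nd ((q : ℝ) * (qv (a 1) (b 1) (d 1) α / qv (a 0) (b 0) (d 0) α)))
    (hn2 : ∀ q : ℕ, 0 < q → 0 < nd ((q : ℝ) * (qv (a 2) (b 2) (d 2) α / qv (a 0) (b 0) (d 0) α))) :
    PowerLittlewood c (qv (a 1) (b 1) (d 1) α / qv (a 0) (b 0) (d 0) α)
      (qv (a 2) (b 2) (d 2) α / qv (a 0) (b 0) (d 0) α) := by
  intro ε0 hε0 N0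
  have hαp := pq_pos hα
  obtain ⟨η, hη, hηε, hηq⟩ := exists_etaS hn1 hn2 c hε0 N0
  obtain ⟨C0, hC0, hcrit⟩ := critS hαp hA h0
  set x1 : ℝ := qv (a 1) (b 1) (d 1) α / qv (a 0) (b 0) (d 0) α with hx1
  set x2 : ℝ := qv (a 2) (b 2) (d 2) α / qv (a 0) (b 0) (d 0) α with hx2
  set ε : ℝ := lam * δ / 32 with hεdef
  have hε : 0 < ε := by positivity
  obtain ⟨C', hC'⟩ := hr ε hε
  set C : ℝ := max C' 0 with hCdef
  have hC : ∀ i n : ℕ, |Real.log (siz (win (pq α) i n)) - lam * n| ≤ ε * n + C := by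
    intro i n
    have h1 := hC' i n
    have := le_max_left C' 0
    exact h1.trans (by linarith)
  have hCn : 0 ≤ C := le_max_right _ _
  have hlC0 : 0 ≤ Real.log C0 := Real.log_nonneg hC0
  have hl2 : 0 ≤ Real.log 2 := Real.log_nonneg (by norm_num)
  set K : ℝ := 11 * C + 3 * Real.log C0 + 3 * Real.log 2 + 1 with hK
  have hK0 : 0 < K := by positivity
  obtain ⟨N, hN⟩ := exists_nat_gt ((2 * K + 1 + |Real.log η|) / (lam * δ / 4))
  obtain ⟨X, u, v, i, e, hNL, hpal, hdet, ⟨p, hp⟩, ⟨pu, hpu⟩, ⟨pv, hpv⟩, hlv, he, hwi, hineq⟩ := hgd (N + 1)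
  set L := X.length with hL
  set D := u.length with hD
  have hLN : (2 * K + 1 + |Real.log η|) / (lam * δ / 4) < L := by
    refine hN.trans_le ?_
    exact_mod_cast (by omega : N ≤ L)
  rw [div_lt_iff₀ (by positivity)] at hLN
  have hLpos : (0 : ℝ) < L := by exact_mod_cast (by omega : 0 < L)
  have heL : (e : ℝ) ≤ L := by exact_mod_cast he
  have hi0 : (0 : ℝ) ≤ i := Nat.cast_nonneg _
  have he0 : (0 : ℝ) ≤ e := Nat.cast_nonneg _
  have hD0 : (0 : ℝ) ≤ D := Nat.cast_nonneg _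
  have hee : 2 * (e : ℝ) ≤ L := by
    by_contra hcon
    have h1 : (L : ℝ) < 2 * e := not_le.1 hcon
    have h2 : c * (2 * (e : ℝ) - L) ≤ 2 * (e : ℝ) - L := mul_le_of_le_one_left (by linarith) hc1.le
    have h3 : 0 ≤ c * (2 * (i : ℝ) + D) := by positivity
    have h4 : 0 < δ * L := by positivity
    linarith only [h1, h2, h3, h4, hineq, hi0, hD0]
  have hcterm : 0 ≤ c * (2 * (i : ℝ) + L - 2 * e + D) := by
    apply mul_nonneg hc0
    linarith
  have hsum : 2 * (i : ℝ) + 2 * e + 3 * D + δ * L ≤ L := by linarith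
  have hδL : 0 < δ * L := by positivity
  -- the words
  have hXp : ∀ x ∈ X, 0 < x := by
    rw [← hp]
    exact win_pos hαp _ _
  have hup : ∀ x ∈ u, 0 < x := by
    rw [← hpu]
    exact win_pos hαp _ _
  have hvp : ∀ x ∈ v, 0 < x := by
    rw [← hpv]
    exact win_pos hαp _ _
  have tk : ∀ k, k ≤ L → X.take k = win (pq α) p k := by
    intro k hk
    conv_lhs => rw [← hp]
    exact win_take _ _ hk
  have dp : ∀ k, k ≤ L → X.drop k = win (pq α) (p + k) (L - k) := by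
    intro k hk
    conv_lhs => rw [← hp]
    exact win_drop _ _ hk
  have bα := fun i n => siz_bounds hαp hC i n
  have b1 := bα p e
  have b2 := bα (p + e) (L - e)
  rw [← tk e he] at b1
  rw [← dp e he] at b2
  have b3 := bα pu D
  have b4 := bα pv v.length
  rw [hpu] at b3
  rw [hpv, hlv] at b4
  have b5 := bα 0 i
  have cL1 : ((L - e : ℕ) : ℝ) = L - e := by rw [Nat.cast_sub he]
  rw [cL1] at b2
  set z : ℝ := siz u + siz v with hz
  have hsu : (1 : ℝ) ≤ siz u := by exact_mod_cast siz_pos hup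
  have hsv : (1 : ℝ) ≤ siz v := by exact_mod_cast siz_pos hvp
  have hzb : z ≤ Real.exp (Real.log 2 + (lam * D + (ε * D + C))) := by
    rw [Real.exp_add, Real.exp_log (by norm_num)]
    linarith [b3.1, b4.1]
  have hz0 : 0 < z := by linarith
  -- quantities
  have hεL : 8 * ε * L + 2 * K + 1 < lam * (δ * L) := by
    have h1 : 0 ≤ |Real.log η| := abs_nonneg _
    have h2 : ε * L = lam * δ * L / 32 := by rw [hεdef]; ring
    have h3 : 0 ≤ lam * δ * L := by positivity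
    linarith only [h1, h2, h3, hLN]
  have hεe : ε * (e : ℝ) ≤ ε * L := mul_le_mul_of_nonneg_left heL hε.le
  have hDL : (D : ℝ) ≤ L := by linarith
  have hεD : ε * (D : ℝ) ≤ ε * L := mul_le_mul_of_nonneg_left hDL hε.le
  have hεD3 : ε * (3 * (D : ℝ) + 2 * i + 2 * e) ≤ ε * L := mul_le_mul_of_nonneg_left (by linarith) hε.le
  have hεi : 0 ≤ ε * (i : ℝ) := by positivity
  have hεe0 : 0 ≤ ε * (e : ℝ) := by positivity
  have hεD0 : 0 ≤ ε * (D : ℝ) := by positivity
  have hεL0 : 0 ≤ ε * (L : ℝ) := by positivity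
  have hlsum : lam * (δ * L) ≤ lam * ((L : ℝ) - 2 * e - 2 * i - 3 * D) :=
    mul_le_mul_of_nonneg_left (by linarith) hlam.le
  have hli : 0 ≤ lam * (i : ℝ) := by positivity
  have hlD : 0 ≤ lam * (D : ℝ) := by positivity
  -- hypotheses of the criterion
  have g1 : siz (X.take e) ≤ siz (X.drop e) := by
    have h1 : (siz (X.take e) : ℝ) ≤ siz (X.drop e) := by
      refine b1.1.trans (le_trans (Real.exp_le_exp.2 ?_) b2.2)
      linarith only [hεL, hεe, hεe0, hlsum, hli, hlD, hK, hCn, hlC0, hl2]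
    exact_mod_cast h1
  have ee0 : (0 : ℝ) ≤ siz (X.take e) := Nat.cast_nonneg _
  have g3 : C0 * z * siz (X.take e) < siz (X.drop e) := by
    have h1 : C0 * z * siz (X.take e) ≤
        Real.exp (Real.log C0) * Real.exp (Real.log 2 + (lam * D + (ε * D + C))) *
          Real.exp (lam * e + (ε * e + C)) := by
      rw [Real.exp_log (by linarith)]
      exact mul_le_mul (mul_le_mul_of_nonneg_left hzb (by linarith)) b1.1 ee0 (by positivity)
    refine lt_of_le_of_lt h1 (lt_of_lt_of_le ?_ b2.2)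
    rw [← Real.exp_add, ← Real.exp_add]
    refine Real.exp_lt_exp.2 ?_
    linarith only [hεL, hεe, hεe0, hεD, hεD0, hlsum, hli, hlD, hK, hCn, hlC0, hl2]
  obtain ⟨q, hq0, hq1, hq2, hq3⟩ := hcrit i (X.take e) (X.drop e) (tws u v)ᵀ (tws u v) z
    (fun k l => tws_bd hup hvp l k) (fun k l => tws_bd hup hvp k l) (by rw [Matrix.det_transpose]; exact hdet)
    (by rw [List.length_drop]; exact hwi)
    (fun x hx => hXp x (List.mem_of_mem_take hx))
    (by rw [List.take_append_drop]; exact hpal) g1 g3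
  have hq0' : (0 : ℝ) < q := by exact_mod_cast hq0
  have b1p : (0 : ℝ) < siz (X.take e) := lt_of_lt_of_le (Real.exp_pos _) b1.2
  have b2p : (0 : ℝ) < siz (X.drop e) := lt_of_lt_of_le (Real.exp_pos _) b2.2
  -- the bound of q
  have hqb : (q : ℝ) ≤ Real.exp (lam * (2 * i + L - 2 * e + D) + ε * (D + 2 * i + L) + (5 * C + Real.log C0 + Real.log 2)) := by
    refine hq1.trans ?_
    rw [div_le_iff₀ b1p]
    have h1 : C0 * z * (siz (win (pq α) 0 i) : ℝ) ^ 2 * siz (X.drop e) ≤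
        Real.exp (Real.log C0) * Real.exp (Real.log 2 + (lam * D + (ε * D + C))) *
          Real.exp (lam * i + (ε * i + C)) ^ 2 *
          Real.exp (lam * (L - e) + (ε * (L - e) + C)) := by
      rw [Real.exp_log (by linarith)]
      refine mul_le_mul (mul_le_mul (mul_le_mul_of_nonneg_left hzb (by linarith))
        (pow_le_pow_left₀ (Nat.cast_nonneg _) b5.1 2)
        (by positivity) (by positivity)) b2.1
        (Nat.cast_nonneg _) (by positivity)
    refine h1.trans ?_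
    have h2 : Real.exp (lam * (2 * i + L - 2 * e + D) + ε * (D + 2 * i + L) + (5 * C + Real.log C0 + Real.log 2)) *
        Real.exp (lam * e - (ε * e + C)) ≤
        Real.exp (lam * (2 * i + L - 2 * e + D) + ε * (D + 2 * i + L) + (5 * C + Real.log C0 + Real.log 2)) * siz (X.take e) :=
      mul_le_mul_of_nonneg_left b1.2 (Real.exp_pos _).le
    refine le_trans ?_ h2
    rw [← Real.exp_nat_mul, ← Real.exp_add, ← Real.exp_add, ← Real.exp_add, ← Real.exp_add]
    refine Real.exp_le_exp.2 ?_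
    push_cast
    linarith only [hεL, hεe, hεe0, hεD, hεD0, hεD3, hεi, hlsum, hli, hlD, hK, hCn, hlC0, hl2]
  have hqK : (q : ℝ) ≤ Real.exp (lam * (2 * i + L - 2 * e + D) + 4 * ε * L + K) := by
    refine hqb.trans (Real.exp_le_exp.2 ?_)
    linarith only [hεL0, hεD3, hεe0, hεD0, hK, hCn, hlC0, hl2]
  -- the bound of one distance
  have hdb : ∀ y : ℝ, y ≤ C0 * z * siz (X.take e) / siz (X.drop e) →
      y ≤ Real.exp (lam * (D + 2 * e - L) + (ε * D + ε * L) + (3 * C + Real.log C0 + Real.log 2)) := by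
    intro y hy
    refine hy.trans ?_
    rw [div_le_iff₀ b2p]
    have h1 : C0 * z * siz (X.take e) ≤
        Real.exp (Real.log C0) * Real.exp (Real.log 2 + (lam * D + (ε * D + C))) *
          Real.exp (lam * e + (ε * e + C)) := by
      rw [Real.exp_log (by linarith)]
      exact mul_le_mul (mul_le_mul_of_nonneg_left hzb (by linarith)) b1.1 ee0 (by positivity)
    refine h1.trans ?_
    have h2 : Real.exp (lam * (D + 2 * e - L) + (ε * D + ε * L) + (3 * C + Real.log C0 + Real.log 2)) *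
        Real.exp (lam * (L - e) - (ε * (L - e) + C)) ≤
        Real.exp (lam * (D + 2 * e - L) + (ε * D + ε * L) + (3 * C + Real.log C0 + Real.log 2)) * siz (X.drop e) :=
      mul_le_mul_of_nonneg_left b2.2 (Real.exp_pos _).le
    refine le_trans ?_ h2
    rw [← Real.exp_add, ← Real.exp_add, ← Real.exp_add]
    refine Real.exp_le_exp.2 ?_
    linarith only
  have hd1 := hdb _ hq2
  have hd2 := hdb _ hq3
  have nn1 : 0 ≤ nd ((q : ℝ) * x1) := abs_nonneg _
  have nn2 : 0 ≤ nd ((q : ℝ) * x2) := abs_nonneg _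
  -- the bound of the product
  have hpb : (q : ℝ) * nd (q * x1) * nd (q * x2) ≤
      Real.exp (-(lam * (L - 2 * e - 2 * i - 3 * D)) + 4 * ε * L + K) := by
    refine (mul_le_mul (mul_le_mul hqb hd1 nn1 (Real.exp_pos _).le) hd2 nn2 (by positivity)).trans ?_
    rw [← Real.exp_add, ← Real.exp_add]
    refine Real.exp_le_exp.2 ?_
    linarith only [hεL0, hεD3, hεe0, hεD0, hεi, hK, hCn, hlC0, hl2]
  -- the power
  have hqc : (q : ℝ) ^ c ≤ Real.exp (c * (lam * (2 * i + L - 2 * e + D) + 4 * ε * L + K)) := by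
    rw [Real.rpow_def_of_pos hq0', mul_comm c]
    refine Real.exp_le_exp.2 (mul_le_mul_of_nonneg_right ?_ hc0)
    rw [Real.log_le_iff_le_exp hq0']
    exact hqK
  have hall : (q : ℝ) ^ (1 + c) * nd (q * x1) * nd (q * x2) < η := by
    have h1 : (q : ℝ) ^ (1 + c) * nd (q * x1) * nd (q * x2) = (q : ℝ) ^ c * ((q : ℝ) * nd (q * x1) * nd (q * x2)) := by
      rw [Real.rpow_add hq0', Real.rpow_one]
      ring
    rw [h1]
    have h2 : 0 ≤ (q : ℝ) * nd (q * x1) * nd (q * x2) := by positivity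
    refine lt_of_le_of_lt (mul_le_mul hqc hpb h2 (Real.exp_pos _).le) ?_
    rw [← Real.exp_add, ← Real.lt_log_iff_exp_lt hη]
    have h4 : c * (lam * (2 * i + L - 2 * e + D)) ≤ lam * (L - 2 * e - 2 * i - 3 * D) - lam * (δ * L) := by
      have h5 : c * (2 * (i : ℝ) + L - 2 * e + D) ≤ (L - 2 * e - 2 * i - 3 * D) - δ * L := by linarith
      have h5' := mul_le_mul_of_nonneg_left h5 hlam.le
      linarith only [h5']
    have h6 : c * (4 * ε * L + K) ≤ 4 * ε * L + K := by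
      exact mul_le_of_le_one_left (by positivity) hc1.le
    have h7 : 8 * (ε * L) = lam * δ * L / 4 := by rw [hεdef]; ring
    exact fin_last h4 h6 h7 hLN (by positivity)
  refine ⟨q, ?_, hq0, ?_⟩
  · by_contra hcon
    exact absurd (hηq q hq0 (not_le.1 hcon)) (not_le.2 hall)
  · exact lt_of_lt_of_le hall hηε

end Pool.Agent.H1.DC
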