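import Mathlib
import Pool.Agent.H1.DC.CmD
import Pool.Agent.H1.DC.Fin
import Pool.Agent.H2.MC.ThmA

set_option autoImplicit false

/-!
# Module Main (90 lines): Littlewood's statement for all pairs of low joint complexity (both read forward)

As `thmA` in H2/MC/ThmA.lean: `b = pq α`, `a = pq β`, `not_evPer`, `pq_pos`, bounded digits by `bd_of_occD`; `2 OccD - RecD = RecD + 2 TrD` (`occD_card`). `comb_main` gives the dual runs. Rates: `F = RecB b`, `lang_RecB`,
`rate` with `hrec` (trivial), `hev` (`ev_RecB`), `κ = k < 2`, `ncard (RecB b n) ≤ k n` infinitely often (`RecB b = RecD b a` by `eqD`, hypothesis by `freqD`), `f = wt` (`wt_nonneg`, `wt_append_ge`, `wt_append_le`), `rate_pos`, `win_rate` for `b`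
(`F = RecB b`) and for `a` (`RecB a = RecD b a = RecB b`). `c < 1`: `k > 1` (some `n ≥ 1` has `n + 1 ≤ ncard RecD ≤ k n`, `recD_low`), so `4c < 1/18`. Then `final_dual`.
-/

namespace Pool.Agent.H1.DC

open Filter Pool.Agent.H2.MC Pool.Agent.H2.Sturm

theorem main {α β : ℝ} (hα : NotQuad α) (hβ : NotQuad β) {k c : ℝ} (hc : 0 ≤ c) (hk : k + 4 * c < 19 / 18)
    (h : ∃ᶠ n : ℕ in atTop, (OccD (pq α) (pq β) n).Finite ∧
      2 * ((OccD (pq α) (pq β) n).ncard : ℝ) - (RecD (pq α) (pq β) n).ncard ≤ k * n) :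
    PowerLittlewood c α β := by
  sorry

end Pool.Agent.H1.DC
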