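import Mathlib
import Pool.Agent.H1.DC.CmS
import Pool.Agent.H1.DC.FinS
import Pool.Agent.H2.MC.ThmA

set_option autoImplicit false

/-!
# Module MainS: one number of low complexity, all fractions of quadratic polynomials
-/

namespace Pool.Agent.H1.DC

open Filter Pool.Agent.H2.MC Pool.Agent.H2.Sturm Pool.Agent.H54.TM

lemma occD_self (b : ℕ → ℕ) (n : ℕ) : OccD b b n = {w | ∃ i, win b i n = w} := by
  ext w
  exact ⟨fun h => h.elim id id, fun h => Or.inl h⟩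

private lemma nd_mul_zero {x : ℝ} {q : ℕ} (h : nd ((q : ℝ) * x) = 0) (k : ℕ) : nd (((k * q : ℕ) : ℝ) * x) = 0 := by
  have h1 : (q : ℝ) * x - round ((q : ℝ) * x) = 0 := abs_eq_zero.1 h
  refine le_antisymm ?_ (abs_nonneg _)
  refine (nd_le _ ((k : ℤ) * round ((q : ℝ) * x))).trans (le_of_eq ?_)
  have h2 : ((k * q : ℕ) : ℝ) * x - (((k : ℤ) * round ((q : ℝ) * x) : ℤ) : ℝ) = k * ((q : ℝ) * x - round ((q : ℝ) * x)) := by
    push_cast
    ring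
  rw [h2, h1, mul_zero, abs_zero]

private lemma pl_zero {c x y : ℝ} {q : ℕ} (hq : 0 < q) (h : nd ((q : ℝ) * x) = 0 ∨ nd ((q : ℝ) * y) = 0) :
    PowerLittlewood c x y := by
  intro ε hε N
  refine ⟨(N + 1) * q, ?_, by positivity, ?_⟩
  · calc N ≤ N + 1 := Nat.le_succ N
      _ ≤ (N + 1) * q := Nat.le_mul_of_pos_right _ hq
  · show (((N + 1) * q : ℕ) : ℝ) ^ (1 + c) * nd ((((N + 1) * q : ℕ) : ℝ) * x) * nd ((((N + 1) * q : ℕ) : ℝ) * y) < ε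
    rcases h with h | h
    · rw [nd_mul_zero h (N + 1), mul_zero, zero_mul]
      exact hε
    · rw [nd_mul_zero h (N + 1), mul_zero]
      exact hε

theorem mainS {α : ℝ} (hα : NotQuad α) {a b d : Fin 3 → ℤ} (h0 : qv (a 0) (b 0) (d 0) α ≠ 0) {κ c : ℝ}
    (hc : 0 ≤ c) (hc1 : c < 1) (hκ : κ * (7 + 2 * c - c ^ 2) < 8)
    (h : ∃ᶠ n : ℕ in atTop, (OccD (pq α) (pq α) n).Finite ∧ ((OccD (pq α) (pq α) n).ncard : ℝ) ≤ κ * n) :
    PowerLittlewood c (qv (a 1) (b 1) (d 1) α / qv (a 0) (b 0) (d 0) α)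
      (qv (a 2) (b 2) (d 2) α / qv (a 0) (b 0) (d 0) α) := by
  by_cases hn1 : ∀ q : ℕ, 0 < q → 0 < nd ((q : ℝ) * (qv (a 1) (b 1) (d 1) α / qv (a 0) (b 0) (d 0) α))
  swap
  · push Not at hn1
    obtain ⟨q, hq, hq0⟩ := hn1
    exact pl_zero hq (Or.inl (le_antisymm hq0 (abs_nonneg _)))
  by_cases hn2 : ∀ q : ℕ, 0 < q → 0 < nd ((q : ℝ) * (qv (a 2) (b 2) (d 2) α / qv (a 0) (b 0) (d 0) α))
  swap
  · push Not at hn2
    obtain ⟨q, hq, hq0⟩ := hn2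
    exact pl_zero hq (Or.inr (le_antisymm hq0 (abs_nonneg _)))
  have hbp : ¬ EvPer (pq α) := not_evPer hα
  have hb0 : ∀ n, 0 < pq α n := pq_pos hα
  obtain ⟨n0, hn0, hn0f⟩ := (h.and_eventually (eventually_ge_atTop 1)).exists.imp
    (fun n hn => (⟨hn.2, hn.1.1⟩ : 1 ≤ n ∧ (OccD (pq α) (pq α) n).Finite))
  obtain ⟨M, hM⟩ := bd_of_occD hn0 hn0f
  have hf : ∃ᶠ n : ℕ in atTop, ((OccD (pq α) (pq α) n).ncard : ℝ) ≤ κ * n := h.mono fun n hn => hn.2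
  have hκ1 := kappa_gt hM hbp hf
  have hw7 : 7 ≤ 7 + 2 * c - c ^ 2 := by nlinarith
  have hκ2 : κ < 2 := by nlinarith
  obtain ⟨δ, hδ, hcomb⟩ := comb_tws hM hb0 hbp hc hc1 hκ hf
  -- rates
  have hfr := cmt_freq hM hbp hκ2 hf
  have heq := eqD hM hbp hbp (hfr.mono fun n hn => hn.1)
  have hF : Lang (RecB (pq α)) := lang_RecB hM.1
  have hev : ∀ n, ∃ N, ∀ i, N ≤ i → win (pq α) i n ∈ RecB (pq α) n := fun n => ev_RecB hM.1 n
  have hcard : ∃ᶠ n : ℕ in atTop, ((RecB (pq α) n).ncard : ℝ) ≤ κ * n := by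
    refine hf.mono (fun n hn => ?_)
    rw [(heq n).1]
    have h1 : ((OccD (pq α) (pq α) n).ncard : ℝ) = (RecD (pq α) (pq α) n).ncard + (TrD (pq α) (pq α) n).ncard := by
      exact_mod_cast occD_card hM n
    have h2 : (0 : ℝ) ≤ (TrD (pq α) (pq α) n).ncard := Nat.cast_nonneg _
    linarith
  have hlog2 : 0 ≤ Real.log 2 := Real.log_nonneg (by norm_num)
  obtain ⟨lam, hlam0, hlam⟩ := rate hF (fun n w hw => hw) hev hκ2 hcard hlog2 wt_nonneg wt_append_ge wt_append_le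
  have hlampos : 0 < lam := rate_pos hF.nonempty hF.len hlam0 hlam
  have hxB := win_rate hb0 hM.1 hlam0 hlam (fun n => (hev n).imp (fun N hN i hi => Or.inl (hN i hi)))
  exact finS hα h0 hlampos hxB hM.1 hc hc1 hδ hcomb hn1 hn2

end Pool.Agent.H1.DC
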