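import Mathlib
import Pool.Agent.H1.DC.CmT
import Pool.Agent.H54.TM.FinT
import Pool.Agent.H54.TM.Fr
import Pool.Agent.H2.MC.ThmA

set_option autoImplicit false

/-!
# Module MainT: Littlewood's statement for all pairs of low joint complexity, both sequences read forward
-/

namespace Pool.Agent.H1.DC

open Filter Pool.Agent.H2.MC Pool.Agent.H2.Sturm Pool.Agent.H54.TM

theorem mainT {α β : ℝ} (hα : NotQuad α) (hβ : NotQuad β) {κ c : ℝ} (hc : 0 ≤ c) (hκ : κ * (7 + 3 * c) < 8)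
    (h : ∃ᶠ n : ℕ in atTop, (OccD (pq α) (pq β) n).Finite ∧ ((OccD (pq α) (pq β) n).ncard : ℝ) ≤ κ * n) :
    PowerLittlewood c α β := by
  have hbp : ¬ EvPer (pq α) := not_evPer hα
  have hap : ¬ EvPer (pq β) := not_evPer hβ
  have hb0 : ∀ n, 0 < pq α n := pq_pos hα
  have ha0 : ∀ n, 0 < pq β n := pq_pos hβ
  obtain ⟨n0, hn0, hn0f⟩ := (h.and_eventually (eventually_ge_atTop 1)).exists.imp
    (fun n hn => (⟨hn.2, hn.1.1⟩ : 1 ≤ n ∧ (OccD (pq α) (pq β) n).Finite))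
  obtain ⟨M, hM⟩ := bd_of_occD hn0 hn0f
  have hf : ∃ᶠ n : ℕ in atTop, ((OccD (pq α) (pq β) n).ncard : ℝ) ≤ κ * n := h.mono fun n hn => hn.2
  have hκ1 := kappa_gt hM hbp hf
  have hκ2 : κ < 2 := by nlinarith
  obtain ⟨δ, hδ, hcomb⟩ := comb_tw hM hb0 hbp hap hc hκ hf
  -- rates
  have hfr := freqP hM hbp hκ2 hf
  have heq := eqD hM hbp hap (hfr.mono fun n hn => hn.1)
  have hF : Lang (RecB (pq α)) := lang_RecB hM.1
  have hev : ∀ n, ∃ N, ∀ i, N ≤ i → win (pq α) i n ∈ RecB (pq α) n := fun n => ev_RecB hM.1 n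
  have hev' : ∀ n, ∃ N, ∀ i, N ≤ i → win (pq β) i n ∈ RecB (pq α) n := by
    intro n
    rw [(heq n).1, ← (heq n).2]
    exact ev_RecB hM.2 n
  have hcard : ∃ᶠ n : ℕ in atTop, ((RecB (pq α) n).ncard : ℝ) ≤ κ * n := by
    refine hf.mono (fun n hn => ?_)
    rw [(heq n).1]
    have h1 : ((OccD (pq α) (pq β) n).ncard : ℝ) = (RecD (pq α) (pq β) n).ncard + (TrD (pq α) (pq β) n).ncard := by
      exact_mod_cast occD_card hM n
    have h2 : (0 : ℝ) ≤ (TrD (pq α) (pq β) n).ncard := Nat.cast_nonneg _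
    linarith
  have hlog2 : 0 ≤ Real.log 2 := Real.log_nonneg (by norm_num)
  obtain ⟨lam, hlam0, hlam⟩ := rate hF (fun n w hw => hw) hev hκ2 hcard hlog2 wt_nonneg wt_append_ge wt_append_le
  have hlampos : 0 < lam := rate_pos hF.nonempty hF.len hlam0 hlam
  have hxB := win_rate hb0 hM.1 hlam0 hlam (fun n => (hev n).imp (fun N hN i hi => Or.inl (hN i hi)))
  have hxA := win_rate ha0 hM.2 hlam0 hlam (fun n => (hev' n).imp (fun N hN i hi => Or.inl (hN i hi)))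
  have hr : ∀ ε : ℝ, 0 < ε → ∃ C : ℝ, ∀ i n : ℕ, |Real.log (siz (win (pq α) i n)) - lam * n| ≤ ε * n + C ∧
      |Real.log (siz (win (pq β) i n)) - lam * n| ≤ ε * n + C := by
    intro ε hε
    obtain ⟨C, hC⟩ := hxB ε hε
    obtain ⟨C', hC'⟩ := hxA ε hε
    exact ⟨max C C', fun i n => ⟨(hC i n).trans (by gcongr; exact le_max_left _ _),
      (hC' i n).trans (by gcongr; exact le_max_right _ _)⟩⟩
  have hc1 : c < 1 := by nlinarith
  exact finT hα hβ hlampos hr hM.1 hc hc1 hδ hcomb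

end Pool.Agent.H1.DC
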